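import Mathlib

set_option autoImplicit false

/-!
# Pseudo-Riemannian manifolds: metric, curvature, geodesics, causal completeness

`E` is a finite dimensional real vector space and `M` a manifold modelled on `E`. Tensor fields on
`M` are given by their local representatives in the charts of the atlas.
-/

namespace Pool.Agent.Lib.MP_611141_gt

open scoped Topology ContDiff
open Function Set

noncomputable section

section Local

variable {E : Type*} [NormedAddCommGroup E] [NormedSpace ℝ E]

/-- Christoffel symbols of the metric `G` at `y`: `christoffel G y u v` is the vector `Γ(u,v)` with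
`G(Γ(u,v),w) = (D_u G(v,w) + D_v G(u,w) - D_w G(u,v)) / 2` for all `w`. -/
def christoffel (G : E → E →L[ℝ] E →L[ℝ] ℝ) (y u v : E) : E :=
  (G y).inverse ((1 / 2 : ℝ) •
    (fderiv ℝ G y u v + fderiv ℝ G y v u - ((fderiv ℝ G y).flip u).flip v))

/-- The curvature `R(u,v)w = ∇_u ∇_v w - ∇_v ∇_u w` (`u, v, w` constant vector fields) at `y` of the
connection with Christoffel symbols `Γ`. -/
def curvature (Γ : E → E → E → E) (y u v w : E) : E :=
  fderiv ℝ (fun z => Γ z v w) y u - fderiv ℝ (fun z => Γ z u w) y v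
    + Γ y u (Γ y v w) - Γ y v (Γ y u w)

/-- The covariant derivative of an `E`-valued tensor `T` with `k` arguments; the direction of
differentiation is the first argument of the result. -/
def covDeriv (Γ : E → E → E → E) {k : ℕ} (T : E → (Fin k → E) → E) (y : E)
    (v : Fin (k + 1) → E) : E :=
  fderiv ℝ (fun z => T z (Fin.tail v)) y (v 0) + Γ y (v 0) (T y (Fin.tail v))
    - ∑ i, T y (update (Fin.tail v) i (Γ y (v 0) (Fin.tail v i)))

/-- The `r`-fold covariant derivative `∇^r R` of the curvature tensor. -/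
def nablaR (Γ : E → E → E → E) : (r : ℕ) → E → (Fin (3 + r) → E) → E
  | 0 => fun y v => curvature Γ y (v 0) (v 1) (v 2)
  | r + 1 => covDeriv Γ (nablaR Γ r)

end Local

/-- A smooth pseudo-Riemannian metric on the manifold `M`, given by its local representatives in the
charts of the atlas: `G φ y u v` is the value of the metric at the point `φ.symm y` on the tangent
vectors represented by `u` and `v` in the chart `φ`. -/
structure PseudoMetric (E M : Type*) [NormedAddCommGroup E] [NormedSpace ℝ E]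
    [TopologicalSpace M] [ChartedSpace E M] where
  /-- the local representatives -/
  G : OpenPartialHomeomorph M E → E → E →L[ℝ] E →L[ℝ] ℝ
  smooth : ∀ φ ∈ atlas E M, ∀ y ∈ φ.target, ContDiffAt ℝ ∞ (G φ) y
  symm : ∀ φ ∈ atlas E M, ∀ y ∈ φ.target, ∀ u v, G φ y u v = G φ y v u
  nondeg : ∀ φ ∈ atlas E M, ∀ y ∈ φ.target, ∀ u, (∀ v, G φ y u v = 0) → u = 0
  compat : ∀ φ ∈ atlas E M, ∀ ψ ∈ atlas E M, ∀ x ∈ φ.source ∩ ψ.source, ∀ u v,
    G ψ (ψ x) (fderiv ℝ (ψ ∘ φ.symm) (φ x) u) (fderiv ℝ (ψ ∘ φ.symm) (φ x) v) = G φ (φ x) u v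

namespace PseudoMetric

variable {E M : Type*} [NormedAddCommGroup E] [NormedSpace ℝ E] [TopologicalSpace M]
  [ChartedSpace E M]

/-- The Christoffel symbols of the Levi-Civita connection in the chart `φ`. -/
def Γ (g : PseudoMetric E M) (φ : OpenPartialHomeomorph M E) : E → E → E → E :=
  christoffel (g.G φ)

/-- `(M, g)` is `r`-th symmetric: `∇^r R = 0`. -/
def IsSymmetricOfOrder (g : PseudoMetric E M) (r : ℕ) : Prop :=
  ∀ φ ∈ atlas E M, ∀ y ∈ φ.target, ∀ v, nablaR (g.Γ φ) r y v = 0

/-- The metric is indefinite (at every point). -/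
def IsIndefinite (g : PseudoMetric E M) : Prop :=
  ∀ φ ∈ atlas E M, ∀ y ∈ φ.target, (∃ u, g.G φ y u u < 0) ∧ ∃ u, 0 < g.G φ y u u

/-- `γ` is a geodesic on the open set `I` of real numbers: it is continuous and in every chart the
curve is twice differentiable and satisfies `γ'' = -Γ(γ', γ')`. -/
def IsGeodesicOn (g : PseudoMetric E M) (γ : ℝ → M) (I : Set ℝ) : Prop :=
  ∀ t ∈ I, ContinuousAt γ t ∧ ∀ φ ∈ atlas E M, γ t ∈ φ.source →
    (∀ᶠ s in 𝓝 t, DifferentiableAt ℝ (φ ∘ γ) s) ∧
    HasDerivAt (deriv (φ ∘ γ))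
      (-g.Γ φ (φ (γ t)) (deriv (φ ∘ γ) t) (deriv (φ ∘ γ) t)) t

/-- The curve `γ` has on `I` nonzero velocity of the causal type `σ`: timelike (`g(γ',γ') < 0`) for
`σ = -1`, lightlike (`g(γ',γ') = 0`) for `σ = 0`, spacelike (`g(γ',γ') > 0`) for `σ = 1`. -/
def HasCausalType (g : PseudoMetric E M) (σ : SignType) (γ : ℝ → M) (I : Set ℝ) : Prop :=
  ∀ t ∈ I, ∀ φ ∈ atlas E M, γ t ∈ φ.source → deriv (φ ∘ γ) t ≠ 0 ∧
    SignType.sign (g.G φ (φ (γ t)) (deriv (φ ∘ γ) t) (deriv (φ ∘ γ) t)) = σ

/-- `γ` is an inextendible geodesic with domain the nonempty open interval `I`. -/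
structure IsInextendibleGeodesic (g : PseudoMetric E M) (γ : ℝ → M) (I : Set ℝ) : Prop where
  isOpen : IsOpen I
  ordConnected : I.OrdConnected
  nonempty : I.Nonempty
  geodesic : g.IsGeodesicOn γ I
  maximal : ∀ (J : Set ℝ) (δ : ℝ → M), IsOpen J → J.OrdConnected → I ⊆ J →
    g.IsGeodesicOn δ J → EqOn γ δ I → J = I

/-- Causal completeness for the causal type `σ`: every inextendible geodesic of this type is defined
on all of `ℝ`. -/
def CausallyComplete (g : PseudoMetric E M) (σ : SignType) : Prop :=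
  ∀ (γ : ℝ → M) (I : Set ℝ), g.IsInextendibleGeodesic γ I → g.HasCausalType σ γ I → I = univ

end PseudoMetric

end

end Pool.Agent.Lib.MP_611141_gt
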