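import Mathlib
import Pool.Agent.Lib.MP_611141_gt.Defs

set_option autoImplicit false

/-!
# Local pseudo-Riemannian geometry in a chart

Everything is expressed through the local representative `G : E → E →L[ℝ] E →L[ℝ] ℝ` of the metric.
-/

namespace Pool.Agent.Lib.MP_611141_gt

open scoped Topology ContDiff
open Function

noncomputable section

variable {E : Type*} [NormedAddCommGroup E] [NormedSpace ℝ E]

/-! ### Tensors -/

/-- `T` is a smooth `E`-valued tensor field with `k` arguments on the set `U`. -/
structure IsTensorOn (U : Set E) {k : ℕ} (T : E → (Fin k → E) → E) : Prop where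
  smooth : ∀ y ∈ U, ∀ v, ContDiffAt ℝ ∞ (fun p : E × (Fin k → E) => T p.1 p.2) (y, v)
  multilinear : ∀ y ∈ U, ∃ f : MultilinearMap ℝ (fun _ : Fin k => E) E, ∀ v, f v = T y v

/-- A smooth symmetric connection on the set `U`. -/
structure IsConnectionOn (U : Set E) (Γ : E → E → E → E) : Prop where
  smooth : ∀ y ∈ U, ∀ u v, ContDiffAt ℝ ∞ (fun p : E × E × E => Γ p.1 p.2.1 p.2.2) (y, u, v)
  bilinear : ∀ y ∈ U, ∃ f : E →ₗ[ℝ] E →ₗ[ℝ] E, ∀ u v, f u v = Γ y u v
  symm : ∀ y ∈ U, ∀ u v, Γ y u v = Γ y v u

namespace IsTensorOn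

variable {U : Set E} {k : ℕ} {T : E → (Fin k → E) → E}

lemma update_add (hT : IsTensorOn U T) {y : E} (hy : y ∈ U) (v : Fin k → E) (i : Fin k)
    (a b : E) : T y (update v i (a + b)) = T y (update v i a) + T y (update v i b) := by
  obtain ⟨f, hf⟩ := hT.multilinear y hy
  rw [← hf, ← hf, ← hf, f.map_update_add]

lemma update_sub (hT : IsTensorOn U T) {y : E} (hy : y ∈ U) (v : Fin k → E) (i : Fin k)
    (a b : E) : T y (update v i (a - b)) = T y (update v i a) - T y (update v i b) := by
  obtain ⟨f, hf⟩ := hT.multilinear y hy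
  rw [← hf, ← hf, ← hf, f.map_update_sub]

lemma continuous (hT : IsTensorOn U T) {y : E} (hy : y ∈ U) : Continuous (T y) := by
  rw [continuous_iff_continuousAt]
  intro v
  have h1 : ContinuousAt (fun p : E × (Fin k → E) => T p.1 p.2) (y, v) :=
    (hT.smooth y hy v).continuousAt
  have h2 : ContinuousAt (fun w : Fin k → E => ((y, w) : E × (Fin k → E))) v := by fun_prop
  exact ContinuousAt.comp (f := fun w : Fin k → E => ((y, w) : E × (Fin k → E))) h1 h2

lemma hasFDerivAt_snd (hT : IsTensorOn U T) {y : E} (hy : y ∈ U) (v w : Fin k → E) :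
    fderiv ℝ (fun p : E × (Fin k → E) => T p.1 p.2) (y, v) (0, w)
      = ∑ i, T y (update v i (w i)) := by
  obtain ⟨f, hf⟩ := hT.multilinear y hy
  have hfun : (T y : (Fin k → E) → E) = f := by ext v; rw [hf]
  let f' : ContinuousMultilinearMap ℝ (fun _ : Fin k => E) E :=
    { toMultilinearMap := f, cont := by
        have := hT.continuous hy
        rwa [hfun] at this }
  have h1 : HasFDerivAt (T y) (f'.linearDeriv v) v := by
    have := f'.hasFDerivAt v
    rw [hfun]
    exact this
  have h2 : HasFDerivAt (fun p : E × (Fin k → E) => T p.1 p.2)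
      (fderiv ℝ (fun p : E × (Fin k → E) => T p.1 p.2) (y, v)) (y, v) :=
    ((hT.smooth y hy v).differentiableAt (by simp)).hasFDerivAt
  have h3 : HasFDerivAt (fun w : Fin k → E => ((y, w) : E × (Fin k → E)))
      (ContinuousLinearMap.inr ℝ E (Fin k → E)) v := hasFDerivAt_prodMk_right y v
  have h4 := h2.comp (f := fun w : Fin k → E => ((y, w) : E × (Fin k → E))) v h3
  have h5 := h4.unique h1
  have h6 := congrArg (fun L => L w) h5
  simp only [ContinuousLinearMap.comp_apply, ContinuousLinearMap.inr_apply] at h6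
  rw [h6, ContinuousMultilinearMap.linearDeriv_apply]
  refine Finset.sum_congr rfl (fun i _ => ?_)
  exact hf _

lemma fderiv_fst (hT : IsTensorOn U T) {y : E} (hy : y ∈ U) (v : Fin k → E) (a : E) :
    fderiv ℝ (fun p : E × (Fin k → E) => T p.1 p.2) (y, v) (a, 0)
      = fderiv ℝ (fun z => T z v) y a := by
  have h2 : HasFDerivAt (fun p : E × (Fin k → E) => T p.1 p.2)
      (fderiv ℝ (fun p : E × (Fin k → E) => T p.1 p.2) (y, v)) (y, v) :=
    ((hT.smooth y hy v).differentiableAt (by simp)).hasFDerivAt
  have h3 : HasFDerivAt (fun z : E => ((z, v) : E × (Fin k → E)))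
      (ContinuousLinearMap.inl ℝ E (Fin k → E)) y := hasFDerivAt_prodMk_left y v
  have h4 := h2.comp (f := fun z : E => ((z, v) : E × (Fin k → E))) y h3
  have h5 := h4.fderiv
  have h6 : (fun p : E × (Fin k → E) => T p.1 p.2) ∘ (fun z : E => ((z, v) : E × (Fin k → E)))
      = fun z => T z v := rfl
  rw [h6] at h5
  rw [h5]
  rfl

/-- The total derivative of a tensor in the point and in the arguments. -/
lemma fderiv_apply (hT : IsTensorOn U T) {y : E} (hy : y ∈ U) (v w : Fin k → E) (a : E) :
    fderiv ℝ (fun p : E × (Fin k → E) => T p.1 p.2) (y, v) (a, w)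
      = fderiv ℝ (fun z => T z v) y a + ∑ i, T y (update v i (w i)) := by
  have : ((a, w) : E × (Fin k → E)) = (a, 0) + (0, w) := by simp
  rw [this, map_add, hT.fderiv_fst hy, hT.hasFDerivAt_snd hy]

end IsTensorOn

variable {U : Set E} {k : ℕ} {T : E → (Fin k → E) → E}

namespace IsConnectionOn

variable {Γ : E → E → E → E}

lemma add_left (hΓ : IsConnectionOn U Γ) {y : E} (hy : y ∈ U) (a b v : E) :
    Γ y (a + b) v = Γ y a v + Γ y b v := by
  obtain ⟨f, hf⟩ := hΓ.bilinear y hy
  rw [← hf, ← hf, ← hf, map_add, LinearMap.add_apply]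

lemma smul_left (hΓ : IsConnectionOn U Γ) {y : E} (hy : y ∈ U) (c : ℝ) (a v : E) :
    Γ y (c • a) v = c • Γ y a v := by
  obtain ⟨f, hf⟩ := hΓ.bilinear y hy
  rw [← hf, ← hf, map_smul, LinearMap.smul_apply]

lemma add_right (hΓ : IsConnectionOn U Γ) {y : E} (hy : y ∈ U) (u a b : E) :
    Γ y u (a + b) = Γ y u a + Γ y u b := by
  obtain ⟨f, hf⟩ := hΓ.bilinear y hy
  rw [← hf, ← hf, ← hf, map_add]

lemma smul_right (hΓ : IsConnectionOn U Γ) {y : E} (hy : y ∈ U) (c : ℝ) (u a : E) :
    Γ y u (c • a) = c • Γ y u a := by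
  obtain ⟨f, hf⟩ := hΓ.bilinear y hy
  rw [← hf, ← hf, map_smul]

lemma neg_right (hΓ : IsConnectionOn U Γ) {y : E} (hy : y ∈ U) (u a : E) :
    Γ y u (-a) = - Γ y u a := by
  obtain ⟨f, hf⟩ := hΓ.bilinear y hy
  rw [← hf, ← hf, map_neg]

end IsConnectionOn

namespace IsTensorOn

lemma update_smul (hT : IsTensorOn U T) {y : E} (hy : y ∈ U) (v : Fin k → E) (i : Fin k)
    (c : ℝ) (a : E) : T y (update v i (c • a)) = c • T y (update v i a) := by
  obtain ⟨f, hf⟩ := hT.multilinear y hy
  rw [← hf, ← hf, f.map_update_smul]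

lemma update_neg (hT : IsTensorOn U T) {y : E} (hy : y ∈ U) (v : Fin k → E) (i : Fin k)
    (a : E) : T y (update v i (- a)) = - T y (update v i a) := by
  have := hT.update_smul hy v i (-1) a
  simpa using this

lemma differentiableAt (hT : IsTensorOn U T) {y : E} (hy : y ∈ U) (v : Fin k → E) :
    DifferentiableAt ℝ (fun z => T z v) y := by
  have h3 : HasFDerivAt (fun p : E × (Fin k → E) => T p.1 p.2)
      (fderiv ℝ (fun p : E × (Fin k → E) => T p.1 p.2) (y, v)) (y, v) :=
    ((hT.smooth y hy v).differentiableAt (by simp)).hasFDerivAt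
  have h4 := h3.comp (f := fun z : E => ((z, v) : E × (Fin k → E))) y
    (hasFDerivAt_prodMk_left y v)
  exact h4.differentiableAt

lemma exists_multilinear {f : (Fin k → E) → E}
    (h1 : ∀ v i a b, f (update v i (a + b)) = f (update v i a) + f (update v i b))
    (h2 : ∀ v i (c : ℝ) a, f (update v i (c • a)) = c • f (update v i a)) :
    ∃ g : MultilinearMap ℝ (fun _ : Fin k => E) E, ∀ v, g v = f v :=
  ⟨MultilinearMap.mk' f h1 h2, fun _ => rfl⟩

/-- The covariant derivative in terms of the total derivative. -/
lemma covDeriv_eq {Γ : E → E → E → E} (hT : IsTensorOn U T)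
    {y : E} (hy : y ∈ U) (V : Fin (k + 1) → E) :
    covDeriv Γ T y V = fderiv ℝ (fun p : E × (Fin k → E) => T p.1 p.2) (y, Fin.tail V)
      (V 0, fun i => - Γ y (V 0) (Fin.tail V i)) + Γ y (V 0) (T y (Fin.tail V)) := by
  rw [hT.fderiv_apply hy]
  unfold covDeriv
  simp only [hT.update_neg hy, Finset.sum_neg_distrib]
  abel

omit [NormedAddCommGroup E] [NormedSpace ℝ E] in
lemma tail_update_zero (V : Fin (k + 1) → E) (a : E) :
    Fin.tail (update V 0 a) = Fin.tail V := by
  ext i; simp [Fin.tail]

omit [NormedAddCommGroup E] [NormedSpace ℝ E] in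
lemma tail_update_succ (V : Fin (k + 1) → E) (j : Fin k) (a : E) :
    Fin.tail (update V j.succ a) = update (Fin.tail V) j a := by
  ext i
  by_cases h : i = j
  · subst h; simp [Fin.tail]
  · have : i.succ ≠ j.succ := fun h' => h (Fin.succ_injective _ h')
    simp [Fin.tail, h]

/-- The covariant derivative of a tensor is a tensor. -/
theorem covDeriv (hU : IsOpen U) {Γ : E → E → E → E} (hΓ : IsConnectionOn U Γ)
    (hT : IsTensorOn U T) : IsTensorOn U (covDeriv Γ T) := by
  refine ⟨fun y hy V => ?_, fun y hy => ?_⟩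
  · -- smoothness
    have heq : (fun p : E × (Fin (k + 1) → E) => Pool.Agent.Lib.MP_611141_gt.covDeriv Γ T p.1 p.2)
        =ᶠ[𝓝 (y, V)] fun p => fderiv ℝ (fun p : E × (Fin k → E) => T p.1 p.2) (p.1, Fin.tail p.2)
          (p.2 0, fun i => - Γ p.1 (p.2 0) (Fin.tail p.2 i))
          + Γ p.1 (p.2 0) (T p.1 (Fin.tail p.2)) := by
      have : ∀ᶠ p in 𝓝 ((y, V) : E × (Fin (k + 1) → E)), p.1 ∈ U :=
        continuousAt_fst.eventually (hU.mem_nhds hy)
      filter_upwards [this] with p hp
      exact hT.covDeriv_eq hp p.2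
    refine ContDiffAt.congr_of_eventuallyEq ?_ heq
    have h0 : ContDiff ℝ ∞ (fun p : E × (Fin (k + 1) → E) => (p.1, Fin.tail p.2)) := by
      have : (fun p : E × (Fin (k + 1) → E) => (p.1, Fin.tail p.2))
        = fun p => (p.1, fun i => p.2 i.succ) := rfl
      rw [this]
      fun_prop
    have h1 : ContDiffAt ℝ ∞ (fun p : E × (Fin (k + 1) → E) =>
        fderiv ℝ (fun p : E × (Fin k → E) => T p.1 p.2) (p.1, Fin.tail p.2)) (y, V) := by
      have h2 : ContDiffAt ℝ ∞ (fderiv ℝ (fun p : E × (Fin k → E) => T p.1 p.2)) (y, Fin.tail V) :=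
        (hT.smooth y hy _).fderiv_right (by simp)
      exact h2.comp (f := fun p : E × (Fin (k + 1) → E) => (p.1, Fin.tail p.2)) (y, V)
        h0.contDiffAt
    have h3 : ContDiffAt ℝ ∞ (fun p : E × (Fin (k + 1) → E) => T p.1 (Fin.tail p.2)) (y, V) :=
      (hT.smooth y hy (Fin.tail V)).comp
        (f := fun p : E × (Fin (k + 1) → E) => (p.1, Fin.tail p.2)) (y, V) h0.contDiffAt
    have h4 : ∀ (a : E × (Fin (k + 1) → E) → E), ContDiffAt ℝ ∞ a (y, V) →
        ContDiffAt ℝ ∞ (fun p : E × (Fin (k + 1) → E) => Γ p.1 (p.2 0) (a p)) (y, V) := by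
      intro a ha
      have h5 : ContDiffAt ℝ ∞ (fun p : E × (Fin (k + 1) → E) => (p.1, p.2 0, a p)) (y, V) := by
        fun_prop
      exact (hΓ.smooth y hy (V 0) (a (y, V))).comp
        (f := fun p : E × (Fin (k + 1) → E) => (p.1, p.2 0, a p)) (y, V) h5
    refine ContDiffAt.add ?_ (h4 _ h3)
    refine h1.clm_apply (ContDiffAt.prodMk (by fun_prop) ?_)
    rw [contDiffAt_pi]
    intro i
    refine ContDiffAt.neg (h4 _ ?_)
    have : (fun p : E × (Fin (k + 1) → E) => Fin.tail p.2 i) = fun p => p.2 i.succ := rfl
    rw [this]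
    fun_prop
  · -- multilinearity
    apply exists_multilinear
    · intro V i a b
      refine Fin.cases ?_ (fun j => ?_) i
      · unfold Pool.Agent.Lib.MP_611141_gt.covDeriv
        simp only [tail_update_zero, update_self, map_add, hΓ.add_left hy, hT.update_add hy,
          Finset.sum_add_distrib]
        abel
      · unfold Pool.Agent.Lib.MP_611141_gt.covDeriv
        have h0 : ∀ x : E, (update V j.succ x) 0 = V 0 := by
          intro x
          rw [update_of_ne (Fin.succ_ne_zero j).symm]
        simp only [tail_update_succ, h0]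
        have h1 : fderiv ℝ (fun z => T z (update (Fin.tail V) j (a + b))) y
            = fderiv ℝ (fun z => T z (update (Fin.tail V) j a)) y
              + fderiv ℝ (fun z => T z (update (Fin.tail V) j b)) y := by
          rw [← fderiv_fun_add (hT.differentiableAt hy _) (hT.differentiableAt hy _)]
          apply Filter.EventuallyEq.fderiv_eq
          filter_upwards [hU.mem_nhds hy] with z hz
          exact hT.update_add hz _ _ _ _
        have h2 : ∀ i, ∀ x : E, T y (update (update (Fin.tail V) j x) i
            (Γ y (V 0) (update (Fin.tail V) j x i)))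
            = if i = j then T y (update (Fin.tail V) j (Γ y (V 0) x)) else
              T y (update (update (Fin.tail V) i (Γ y (V 0) (Fin.tail V i))) j x) := by
          intro i x
          split_ifs with h
          · subst h; simp
          · rw [update_of_ne h, update_comm (Ne.symm h)]
        simp only [h2]
        rw [h1, hT.update_add hy, hΓ.add_right hy]
        have h3 : ∀ i, (if i = j then T y (update (Fin.tail V) j (Γ y (V 0) (a + b))) else
              T y (update (update (Fin.tail V) i (Γ y (V 0) (Fin.tail V i))) j (a + b)))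
            = (if i = j then T y (update (Fin.tail V) j (Γ y (V 0) a)) else
              T y (update (update (Fin.tail V) i (Γ y (V 0) (Fin.tail V i))) j a))
            + (if i = j then T y (update (Fin.tail V) j (Γ y (V 0) b)) else
              T y (update (update (Fin.tail V) i (Γ y (V 0) (Fin.tail V i))) j b)) := by
          intro i
          split_ifs
          · rw [hΓ.add_right hy, hT.update_add hy]
          · rw [hT.update_add hy]
        simp only [h3, Finset.sum_add_distrib, add_apply]
        abel
    · intro V i c a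
      refine Fin.cases ?_ (fun j => ?_) i
      · unfold Pool.Agent.Lib.MP_611141_gt.covDeriv
        simp only [tail_update_zero, update_self, map_smul, hΓ.smul_left hy, hT.update_smul hy,
          ← Finset.smul_sum, smul_sub, smul_add]
      · unfold Pool.Agent.Lib.MP_611141_gt.covDeriv
        have h0 : ∀ x : E, (update V j.succ x) 0 = V 0 := by
          intro x
          rw [update_of_ne (Fin.succ_ne_zero j).symm]
        simp only [tail_update_succ, h0]
        have h1 : fderiv ℝ (fun z => T z (update (Fin.tail V) j (c • a))) y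
            = c • fderiv ℝ (fun z => T z (update (Fin.tail V) j a)) y := by
          rw [← fderiv_fun_const_smul (hT.differentiableAt hy _)]
          apply Filter.EventuallyEq.fderiv_eq
          filter_upwards [hU.mem_nhds hy] with z hz
          exact hT.update_smul hz _ _ _ _
        have h2 : ∀ i, ∀ x : E, T y (update (update (Fin.tail V) j x) i
            (Γ y (V 0) (update (Fin.tail V) j x i)))
            = if i = j then T y (update (Fin.tail V) j (Γ y (V 0) x)) else
              T y (update (update (Fin.tail V) i (Γ y (V 0) (Fin.tail V i))) j x) := by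
          intro i x
          split_ifs with h
          · subst h; simp
          · rw [update_of_ne h, update_comm (Ne.symm h)]
        simp only [h2]
        rw [h1, hT.update_smul hy, hΓ.smul_right hy]
        have h3 : ∀ i, (if i = j then T y (update (Fin.tail V) j (Γ y (V 0) (c • a))) else
              T y (update (update (Fin.tail V) i (Γ y (V 0) (Fin.tail V i))) j (c • a)))
            = c • (if i = j then T y (update (Fin.tail V) j (Γ y (V 0) a)) else
              T y (update (update (Fin.tail V) i (Γ y (V 0) (Fin.tail V i))) j a)) := by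
          intro i
          split_ifs
          · rw [hΓ.smul_right hy, hT.update_smul hy]
          · rw [hT.update_smul hy]
        simp only [h3, ← Finset.smul_sum, smul_apply, smul_sub, smul_add]

end IsTensorOn

end

end Pool.Agent.Lib.MP_611141_gt
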