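import Mathlib
import Pool.Agent.Lib.MP_611141_gt.Local

set_option autoImplicit false

/-!
# Behaviour of covariant derivatives under a change of coordinates
-/

namespace Pool.Agent.Lib.MP_611141_gt

open scoped Topology ContDiff
open Function

noncomputable section

variable {E : Type*} [NormedAddCommGroup E] [NormedSpace ℝ E]

/-- `Γ'` is the transform of `Γ` under the change of coordinates `τ`. -/
def ConnRel (τ : E → E) (U : Set E) (Γ Γ' : E → E → E → E) : Prop :=
  ∀ z ∈ U, ∀ u v, Γ' (τ z) (fderiv ℝ τ z u) (fderiv ℝ τ z v)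
    = fderiv ℝ τ z (Γ z u v) - fderiv ℝ (fderiv ℝ τ) z u v

/-- `T'` is the transform of the tensor `T` under the change of coordinates `τ`. -/
def TensorRel (τ : E → E) (U : Set E) {k : ℕ} (T T' : E → (Fin k → E) → E) : Prop :=
  ∀ z ∈ U, ∀ v : Fin k → E, T' (τ z) (fun i => fderiv ℝ τ z (v i)) = fderiv ℝ τ z (T z v)

lemma contDiffAt_fderiv {F : Type*} [NormedAddCommGroup F] [NormedSpace ℝ F] {f : E → F} {y : E}
    (hf : ContDiffAt ℝ ∞ f y) : ContDiffAt ℝ ∞ (fderiv ℝ f) y :=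
  hf.fderiv_right (by simp)

lemma hasFDerivAt_fderiv_apply {τ : E → E} {y : E} (hτ : ContDiffAt ℝ ∞ τ y) (v : E) :
    HasFDerivAt (fun z => fderiv ℝ τ z v) ((fderiv ℝ (fderiv ℝ τ) y).flip v) y := by
  have h1 : HasFDerivAt (fderiv ℝ τ) (fderiv ℝ (fderiv ℝ τ) y) y :=
    ((contDiffAt_fderiv hτ).differentiableAt (by simp)).hasFDerivAt
  exact h1.clm_apply (hasFDerivAt_const v y) |>.congr_fderiv (by ext w; simp)

/-- The covariant derivative is natural. -/
theorem TensorRel.covDeriv {τ : E → E} {U U' : Set E} (hU : IsOpen U)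
    (hτ : ∀ z ∈ U, ContDiffAt ℝ ∞ τ z) (hmaps : ∀ z ∈ U, τ z ∈ U')
    {Γ Γ' : E → E → E → E} (hΓ : ConnRel τ U Γ Γ')
    {k : ℕ} {T T' : E → (Fin k → E) → E} (hT : IsTensorOn U T) (hT' : IsTensorOn U' T')
    (hrel : TensorRel τ U T T') :
    TensorRel τ U (covDeriv Γ T) (covDeriv Γ' T') := by
  intro y hy V
  set v : Fin k → E := Fin.tail V with hv
  set D := fderiv ℝ τ y with hD
  set D2 := fderiv ℝ (fderiv ℝ τ) y with hD2
  have htail : Fin.tail (fun i => D (V i)) = fun i => D (v i) := rfl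
  -- derivative of the left hand side
  have hτ' : HasFDerivAt τ D y := ((hτ y hy).differentiableAt (by simp)).hasFDerivAt
  have hw : HasFDerivAt (fun z => (fun i => fderiv ℝ τ z (v i) : Fin k → E))
      (ContinuousLinearMap.pi (fun i => D2.flip (v i))) y := by
    rw [hasFDerivAt_pi]
    intro i
    exact hasFDerivAt_fderiv_apply (hτ y hy) (v i)
  have h1 : HasFDerivAt (fun p : E × (Fin k → E) => T' p.1 p.2)
      (fderiv ℝ (fun p : E × (Fin k → E) => T' p.1 p.2) (τ y, fun i => D (v i)))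
      (τ y, fun i => D (v i)) :=
    ((hT'.smooth _ (hmaps y hy) _).differentiableAt (by simp)).hasFDerivAt
  have h2 := h1.comp (f := fun z => (τ z, (fun i => fderiv ℝ τ z (v i) : Fin k → E))) y
    (hτ'.prodMk hw)
  -- derivative of the right hand side
  have hTz : HasFDerivAt (fun z => T z v) (fderiv ℝ (fun z => T z v) y) y := by
    have h3 : HasFDerivAt (fun p : E × (Fin k → E) => T p.1 p.2)
        (fderiv ℝ (fun p : E × (Fin k → E) => T p.1 p.2) (y, v)) (y, v) :=
      ((hT.smooth y hy v).differentiableAt (by simp)).hasFDerivAt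
    have h4 := h3.comp (f := fun z : E => ((z, v) : E × (Fin k → E))) y
      (hasFDerivAt_prodMk_left y v)
    exact h4.differentiableAt.hasFDerivAt
  have hDz : HasFDerivAt (fderiv ℝ τ) D2 y :=
    ((contDiffAt_fderiv (hτ y hy)).differentiableAt (by simp)).hasFDerivAt
  have h3 := hDz.clm_apply hTz
  have heq : (fun p : E × (Fin k → E) => T' p.1 p.2) ∘
      (fun z => (τ z, (fun i => fderiv ℝ τ z (v i) : Fin k → E)))
      =ᶠ[𝓝 y] fun z => fderiv ℝ τ z (T z v) := by
    filter_upwards [hU.mem_nhds hy] with z hz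
    exact hrel z hz v
  have h4 := (h2.congr_of_eventuallyEq heq.symm).unique h3
  have h5 := congrArg (fun L => L (V 0)) h4
  simp only [ContinuousLinearMap.comp_apply, ContinuousLinearMap.prod_apply,
    add_apply, ContinuousLinearMap.flip_apply] at h5
  rw [hT'.fderiv_apply (hmaps y hy)] at h5
  simp only [ContinuousLinearMap.pi_apply, ContinuousLinearMap.flip_apply] at h5
  -- the two covariant derivatives
  unfold Pool.Agent.Lib.MP_611141_gt.covDeriv
  rw [htail, ← hv]
  have h6 : Γ' (τ y) (D (V 0)) (T' (τ y) fun i => D (v i))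
      = D (Γ y (V 0) (T y v)) - D2 (V 0) (T y v) := by
    rw [hrel y hy v]
    exact hΓ y hy (V 0) (T y v)
  have h7 : ∀ i, T' (τ y) (update (fun i => D (v i)) i (Γ' (τ y) (D (V 0)) (D (v i))))
      = D (T y (update v i (Γ y (V 0) (v i))))
        - T' (τ y) (update (fun i => D (v i)) i (D2 (V 0) (v i))) := by
    intro i
    have h8 : Γ' (τ y) (D (V 0)) (D (v i)) = D (Γ y (V 0) (v i)) - D2 (V 0) (v i) :=
      hΓ y hy (V 0) (v i)
    rw [h8, hT'.update_sub (hmaps y hy)]
    congr 1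
    rw [← hrel y hy]
    congr 1
    ext j
    by_cases hj : j = i
    · subst hj; simp [hD]
    · simp [hj, hD]
  have h9 : ∑ i, T' (τ y) (update (fun i => D (v i)) i (Γ' (τ y) (D (V 0)) (D (v i))))
      = D (∑ i, T y (update v i (Γ y (V 0) (v i))))
        - ∑ i, T' (τ y) (update (fun i => D (v i)) i (D2 (V 0) (v i))) := by
    rw [Finset.sum_congr rfl (fun i _ => h7 i), Finset.sum_sub_distrib, map_sum]
  rw [h6, h9, map_sub, map_add]
  have h10 := eq_sub_of_add_eq h5
  simp only [h10]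
  abel

variable {U : Set E} {Γ : E → E → E → E}

/-- A connection seen as a field of tensors with two arguments (in one chart). -/
lemma IsConnectionOn.isTensorOn (hΓ : IsConnectionOn U Γ) :
    IsTensorOn U (fun y (v : Fin 2 → E) => Γ y (v 0) (v 1)) := by
  refine ⟨fun y hy v => ?_, fun y hy => ?_⟩
  · have h : ContDiffAt ℝ ∞ (fun p : E × (Fin 2 → E) => (p.1, p.2 0, p.2 1)) (y, v) := by
      fun_prop
    exact (hΓ.smooth y hy (v 0) (v 1)).comp
      (f := fun p : E × (Fin 2 → E) => (p.1, p.2 0, p.2 1)) (y, v) h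
  · apply IsTensorOn.exists_multilinear
    · intro v i a b
      fin_cases i <;> simp [update, hΓ.add_left hy, hΓ.add_right hy]
    · intro v i c a
      fin_cases i <;> simp [update, hΓ.smul_left hy, hΓ.smul_right hy]

lemma IsConnectionOn.differentiableAt (hΓ : IsConnectionOn U Γ) {y : E} (hy : y ∈ U) (u v : E) :
    DifferentiableAt ℝ (fun z => Γ z u v) y := by
  have := hΓ.isTensorOn.differentiableAt hy ![u, v]
  simpa using this

lemma IsConnectionOn.dadd_left (hU : IsOpen U) (hΓ : IsConnectionOn U Γ) {y : E} (hy : y ∈ U)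
    (a b v : E) : fderiv ℝ (fun z => Γ z (a + b) v) y
      = fderiv ℝ (fun z => Γ z a v) y + fderiv ℝ (fun z => Γ z b v) y := by
  rw [← fderiv_fun_add (hΓ.differentiableAt hy _ _) (hΓ.differentiableAt hy _ _)]
  apply Filter.EventuallyEq.fderiv_eq
  filter_upwards [hU.mem_nhds hy] with z hz
  exact hΓ.add_left hz _ _ _

lemma IsConnectionOn.dadd_right (hU : IsOpen U) (hΓ : IsConnectionOn U Γ) {y : E} (hy : y ∈ U)
    (u a b : E) : fderiv ℝ (fun z => Γ z u (a + b)) y
      = fderiv ℝ (fun z => Γ z u a) y + fderiv ℝ (fun z => Γ z u b) y := by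
  rw [← fderiv_fun_add (hΓ.differentiableAt hy _ _) (hΓ.differentiableAt hy _ _)]
  apply Filter.EventuallyEq.fderiv_eq
  filter_upwards [hU.mem_nhds hy] with z hz
  exact hΓ.add_right hz _ _ _

lemma IsConnectionOn.dsmul_left (hU : IsOpen U) (hΓ : IsConnectionOn U Γ) {y : E} (hy : y ∈ U)
    (c : ℝ) (a v : E) : fderiv ℝ (fun z => Γ z (c • a) v) y
      = c • fderiv ℝ (fun z => Γ z a v) y := by
  rw [← fderiv_fun_const_smul (hΓ.differentiableAt hy _ _)]
  apply Filter.EventuallyEq.fderiv_eq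
  filter_upwards [hU.mem_nhds hy] with z hz
  exact hΓ.smul_left hz _ _ _

lemma IsConnectionOn.dsmul_right (hU : IsOpen U) (hΓ : IsConnectionOn U Γ) {y : E} (hy : y ∈ U)
    (c : ℝ) (u a : E) : fderiv ℝ (fun z => Γ z u (c • a)) y
      = c • fderiv ℝ (fun z => Γ z u a) y := by
  rw [← fderiv_fun_const_smul (hΓ.differentiableAt hy _ _)]
  apply Filter.EventuallyEq.fderiv_eq
  filter_upwards [hU.mem_nhds hy] with z hz
  exact hΓ.smul_right hz _ _ _

/-- The curvature is a tensor. -/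
theorem IsConnectionOn.curvature (hU : IsOpen U) (hΓ : IsConnectionOn U Γ) :
    IsTensorOn U (nablaR Γ 0) := by
  have hdef : nablaR Γ 0 = fun y (v : Fin 3 → E) =>
    Pool.Agent.Lib.MP_611141_gt.curvature Γ y (v 0) (v 1) (v 2) := rfl
  rw [hdef]
  refine ⟨fun y hy v => ?_, fun y hy => ?_⟩
  · have hT := hΓ.isTensorOn
    have h1 : ∀ i j l : Fin 3, ContDiffAt ℝ ∞ (fun p : E × (Fin 3 → E) =>
        fderiv ℝ (fun z => Γ z (p.2 i) (p.2 j)) p.1 (p.2 l)) (y, v) := by
      intro i j l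
      have heq : (fun p : E × (Fin 3 → E) => fderiv ℝ (fun z => Γ z (p.2 i) (p.2 j)) p.1 (p.2 l))
          =ᶠ[𝓝 (y, v)] fun p => fderiv ℝ (fun p : E × (Fin 2 → E) => Γ p.1 (p.2 0) (p.2 1))
            (p.1, ![p.2 i, p.2 j]) (p.2 l, 0) := by
        have : ∀ᶠ p in 𝓝 ((y, v) : E × (Fin 3 → E)), p.1 ∈ U :=
          continuousAt_fst.eventually (hU.mem_nhds hy)
        filter_upwards [this] with p hp
        rw [hT.fderiv_fst hp]
        simp
      refine ContDiffAt.congr_of_eventuallyEq ?_ heq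
      have h0 : ContDiff ℝ ∞ (fun p : E × (Fin 3 → E) => (p.1, ![p.2 i, p.2 j])) := by
        refine contDiff_fst.prodMk ?_
        rw [contDiff_pi]
        intro m
        fin_cases m <;> simp <;> fun_prop
      have h2 : ContDiffAt ℝ ∞ (fderiv ℝ (fun p : E × (Fin 2 → E) => Γ p.1 (p.2 0) (p.2 1)))
          (y, ![v i, v j]) := (hT.smooth y hy _).fderiv_right (by simp)
      have h3 := h2.comp (f := fun p : E × (Fin 3 → E) => (p.1, ![p.2 i, p.2 j])) (y, v)
        h0.contDiffAt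
      refine h3.clm_apply (ContDiffAt.prodMk (by fun_prop) contDiffAt_const)
    have h4 : ∀ (a b : E × (Fin 3 → E) → E), ContDiffAt ℝ ∞ a (y, v) → ContDiffAt ℝ ∞ b (y, v) →
        ContDiffAt ℝ ∞ (fun p : E × (Fin 3 → E) => Γ p.1 (a p) (b p)) (y, v) := by
      intro a b ha hb
      have h5 : ContDiffAt ℝ ∞ (fun p : E × (Fin 3 → E) => (p.1, a p, b p)) (y, v) := by
        fun_prop
      exact (hΓ.smooth y hy (a (y, v)) (b (y, v))).comp
        (f := fun p : E × (Fin 3 → E) => (p.1, a p, b p)) (y, v) h5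
    unfold Pool.Agent.Lib.MP_611141_gt.curvature
    refine ContDiffAt.sub (ContDiffAt.add (ContDiffAt.sub (h1 1 2 0) (h1 0 2 1)) ?_) ?_
    · exact h4 _ _ (by fun_prop) (h4 _ _ (by fun_prop) (by fun_prop))
    · exact h4 _ _ (by fun_prop) (h4 _ _ (by fun_prop) (by fun_prop))
  · apply IsTensorOn.exists_multilinear
    · intro v i a b
      unfold Pool.Agent.Lib.MP_611141_gt.curvature
      fin_cases i <;> simp [update, hΓ.add_left hy, hΓ.add_right hy, hΓ.dadd_left hU hy,
        hΓ.dadd_right hU hy] <;> abel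
    · intro v i c a
      unfold Pool.Agent.Lib.MP_611141_gt.curvature
      fin_cases i <;> simp [update, hΓ.smul_left hy, hΓ.smul_right hy, hΓ.dsmul_left hU hy,
        hΓ.dsmul_right hU hy, smul_sub, smul_add]

theorem IsConnectionOn.nablaR (hU : IsOpen U) (hΓ : IsConnectionOn U Γ) (r : ℕ) :
    IsTensorOn U (nablaR Γ r) := by
  induction r with
  | zero => exact hΓ.curvature hU
  | succ r ih => exact ih.covDeriv hU hΓ

/-- Naturality of the curvature tensor. -/
theorem ConnRel.curvature {τ : E → E} {U' : Set E} (hU : IsOpen U)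
    (hτ : ∀ z ∈ U, ContDiffAt ℝ ∞ τ z) (hmaps : ∀ z ∈ U, τ z ∈ U')
    {Γ' : E → E → E → E} (hrel : ConnRel τ U Γ Γ')
    (hΓ : IsConnectionOn U Γ) (hΓ' : IsConnectionOn U' Γ') :
    TensorRel τ U (nablaR Γ 0) (Pool.Agent.Lib.MP_611141_gt.nablaR Γ' 0) := by
  intro y hy V
  set D := fderiv ℝ τ y with hD
  set D2 := fderiv ℝ (fderiv ℝ τ) y with hD2
  set D3 := fderiv ℝ (fderiv ℝ (fderiv ℝ τ)) y with hD3
  have hT := hΓ.isTensorOn
  have hT' := hΓ'.isTensorOn
  have hτ' : HasFDerivAt τ D y := ((hτ y hy).differentiableAt (by simp)).hasFDerivAt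
  have hDz : HasFDerivAt (fderiv ℝ τ) D2 y :=
    ((contDiffAt_fderiv (hτ y hy)).differentiableAt (by simp)).hasFDerivAt
  have hD2z : HasFDerivAt (fderiv ℝ (fderiv ℝ τ)) D3 y :=
    ((contDiffAt_fderiv (contDiffAt_fderiv (hτ y hy))).differentiableAt (by simp)).hasFDerivAt
  have h2inf : minSmoothness ℝ 2 ≤ (∞ : WithTop ℕ∞) := by
    rw [minSmoothness_of_isRCLikeNormedField]
    exact WithTop.coe_le_coe.2 (le_top : (2 : ℕ∞) ≤ ⊤)
  have hsymm3 : ∀ a b c, D3 a b c = D3 b a c := by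
    intro a b c
    have h : IsSymmSndFDerivAt ℝ (fderiv ℝ τ) y :=
      (contDiffAt_fderiv (hτ y hy)).isSymmSndFDerivAt h2inf
    have := h.eq a b
    rw [hD3, this]
  have hsymm2 : ∀ a b, D2 a b = D2 b a := by
    intro a b
    exact ((hτ y hy).isSymmSndFDerivAt h2inf).eq a b
  -- differentiate the relation between the two connections
  have key : ∀ w u v, fderiv ℝ (fun z => Γ' z (D u) (D v)) (τ y) (D w)
      + Γ' (τ y) (D2 w u) (D v) + Γ' (τ y) (D u) (D2 w v)
      = D2 w (Γ y u v) + D (fderiv ℝ (fun z => Γ z u v) y w) - D3 w u v := by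
    intro w u v
    have hw : HasFDerivAt (fun z => (fun i => fderiv ℝ τ z (![u, v] i) : Fin 2 → E))
        (ContinuousLinearMap.pi (fun i => D2.flip (![u, v] i))) y := by
      rw [hasFDerivAt_pi]
      intro i
      exact hasFDerivAt_fderiv_apply (hτ y hy) _
    have h1 : HasFDerivAt (fun p : E × (Fin 2 → E) => Γ' p.1 (p.2 0) (p.2 1))
        (fderiv ℝ (fun p : E × (Fin 2 → E) => Γ' p.1 (p.2 0) (p.2 1))
          (τ y, fun i => D (![u, v] i))) (τ y, fun i => D (![u, v] i)) :=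
      ((hT'.smooth _ (hmaps y hy) _).differentiableAt (by simp)).hasFDerivAt
    have h2 := h1.comp (f := fun z => (τ z, (fun i => fderiv ℝ τ z (![u, v] i) : Fin 2 → E))) y
      (hτ'.prodMk hw)
    have hTz : HasFDerivAt (fun z => Γ z u v) (fderiv ℝ (fun z => Γ z u v) y) y :=
      (hΓ.differentiableAt hy u v).hasFDerivAt
    have h3 := (hDz.clm_apply hTz).sub
      ((hD2z.clm_apply (hasFDerivAt_const u y)).clm_apply (hasFDerivAt_const v y))
    have heq : (fun p : E × (Fin 2 → E) => Γ' p.1 (p.2 0) (p.2 1)) ∘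
        (fun z => (τ z, (fun i => fderiv ℝ τ z (![u, v] i) : Fin 2 → E)))
        =ᶠ[𝓝 y] (fun z => fderiv ℝ τ z (Γ z u v)) - fun z => fderiv ℝ (fderiv ℝ τ) z u v := by
      filter_upwards [hU.mem_nhds hy] with z hz
      exact hrel z hz u v
    have h4 := (h2.congr_of_eventuallyEq heq.symm).unique h3
    have h5 := congrArg (fun L => L w) h4
    simp only [ContinuousLinearMap.comp_apply, ContinuousLinearMap.prod_apply] at h5
    rw [hT'.fderiv_apply (hmaps y hy)] at h5
    simp [Fin.sum_univ_two, update] at h5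
    rw [← add_assoc] at h5
    rw [h5]
    abel
  have hc : ∀ u v, Γ' (τ y) (D u) (D v) = D (Γ y u v) - D2 u v := fun u v => hrel y hy u v
  show Pool.Agent.Lib.MP_611141_gt.curvature Γ' (τ y) (D (V 0)) (D (V 1)) (D (V 2))
    = D (Pool.Agent.Lib.MP_611141_gt.curvature Γ y (V 0) (V 1) (V 2))
  unfold Pool.Agent.Lib.MP_611141_gt.curvature
  have k1 := eq_sub_of_add_eq (eq_sub_of_add_eq (key (V 0) (V 1) (V 2)))
  have k2 := eq_sub_of_add_eq (eq_sub_of_add_eq (key (V 1) (V 0) (V 2)))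
  rw [k1, k2, hc (V 1) (V 2), hc (V 0) (V 2), sub_eq_add_neg (D (Γ y (V 1) (V 2))),
    sub_eq_add_neg (D (Γ y (V 0) (V 2))), hΓ'.add_right (hmaps y hy), hΓ'.add_right (hmaps y hy),
    hΓ'.neg_right (hmaps y hy), hΓ'.neg_right (hmaps y hy), hc (V 0) (Γ y (V 1) (V 2)),
    hc (V 1) (Γ y (V 0) (V 2)), hsymm3 (V 0) (V 1) (V 2), hsymm2 (V 0) (V 1)]
  simp only [map_sub, map_add]
  abel

/-- Naturality of the iterated covariant derivatives of the curvature tensor. -/
theorem ConnRel.nablaR {τ : E → E} {U' : Set E} (hU : IsOpen U) (hU' : IsOpen U')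
    (hτ : ∀ z ∈ U, ContDiffAt ℝ ∞ τ z) (hmaps : ∀ z ∈ U, τ z ∈ U')
    {Γ' : E → E → E → E} (hrel : ConnRel τ U Γ Γ')
    (hΓ : IsConnectionOn U Γ) (hΓ' : IsConnectionOn U' Γ') (r : ℕ) :
    TensorRel τ U (nablaR Γ r) (Pool.Agent.Lib.MP_611141_gt.nablaR Γ' r) := by
  induction r with
  | zero => exact hrel.curvature hU hτ hmaps hΓ hΓ'
  | succ r ih =>
    exact ih.covDeriv hU hτ hmaps hrel (hΓ.nablaR hU r) (hΓ'.nablaR hU' r)

end

end Pool.Agent.Lib.MP_611141_gt
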