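import Mathlib
import Pool.Agent.Lib.MP_611141_gt.Transform

set_option autoImplicit false
set_option maxSynthPendingDepth 3

/-!
# The Levi-Civita connection of a metric in a chart
-/

namespace Pool.Agent.Lib.MP_611141_gt

open scoped Topology ContDiff
open Function

noncomputable section

variable {E : Type*} [NormedAddCommGroup E] [NormedSpace ℝ E]

/-- `G` is a smooth nondegenerate symmetric bilinear form on the set `U`. -/
structure IsMetricOn (U : Set E) (G : E → E →L[ℝ] E →L[ℝ] ℝ) : Prop where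
  smooth : ∀ y ∈ U, ContDiffAt ℝ ∞ G y
  symm : ∀ y ∈ U, ∀ u v, G y u v = G y v u
  nondeg : ∀ y ∈ U, ∀ u, (∀ v, G y u v = 0) → u = 0

/-- `G'` is the transform of the metric `G` under the change of coordinates `τ`. -/
def MetricRel (τ : E → E) (U : Set E) (G G' : E → E →L[ℝ] E →L[ℝ] ℝ) : Prop :=
  ∀ z ∈ U, ∀ u v, G' (τ z) (fderiv ℝ τ z u) (fderiv ℝ τ z v) = G z u v

namespace IsMetricOn

variable {U : Set E} {G : E → E →L[ℝ] E →L[ℝ] ℝ}

lemma fderiv_symm (hU : IsOpen U) (hG : IsMetricOn U G) {y : E} (hy : y ∈ U) (a u v : E) :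
    fderiv ℝ G y a u v = fderiv ℝ G y a v u := by
  have hd : HasFDerivAt G (fderiv ℝ G y) y :=
    ((hG.smooth y hy).differentiableAt (by simp)).hasFDerivAt
  have h1 : ∀ u v : E, HasFDerivAt (fun z => G z u v) (((fderiv ℝ G y).flip u).flip v) y := by
    intro u v
    exact ((hd.clm_apply (hasFDerivAt_const u y)).clm_apply (hasFDerivAt_const v y)).congr_fderiv
      (by ext w; simp)
  have h2 : (fun z => G z u v) =ᶠ[𝓝 y] fun z => G z v u := by
    filter_upwards [hU.mem_nhds hy] with z hz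
    exact hG.symm z hz u v
  have h3 := ((h1 u v).congr_of_eventuallyEq h2.symm).unique (h1 v u)
  have h4 := congrArg (fun L => L a) h3
  simpa using h4

variable [FiniteDimensional ℝ E]

lemma isInvertible (hG : IsMetricOn U G) {y : E} (hy : y ∈ U) : (G y).IsInvertible := by
  have hinj : Function.Injective (G y : E →ₗ[ℝ] (E →L[ℝ] ℝ)) := by
    rw [← LinearMap.ker_eq_bot, LinearMap.ker_eq_bot']
    intro u hu
    apply hG.nondeg y hy u
    intro v
    have : G y u = 0 := hu
    rw [this]; rfl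
  have hdim : Module.finrank ℝ E = Module.finrank ℝ (E →L[ℝ] ℝ) := by
    have h1 : Module.finrank ℝ (E →L[ℝ] ℝ) = Module.finrank ℝ (E →ₗ[ℝ] ℝ) :=
      (LinearMap.toContinuousLinearMap (𝕜 := ℝ) (E := E) (F' := ℝ)).symm.finrank_eq
    rw [h1]
    exact (Subspace.dual_finrank_eq (K := ℝ) (V := E)).symm
  refine ⟨(LinearEquiv.ofInjectiveOfFinrankEq _ hinj hdim).toContinuousLinearEquiv, ?_⟩
  ext u v
  rfl

lemma apply_inverse (hG : IsMetricOn U G) {y : E} (hy : y ∈ U) (f : E →L[ℝ] ℝ) :
    G y ((G y).inverse f) = f := by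
  obtain ⟨e, he⟩ := hG.isInvertible hy
  rw [← he, ContinuousLinearMap.inverse_equiv]
  simp

/-- Koszul's formula. -/
lemma koszul (hG : IsMetricOn U G) {y : E} (hy : y ∈ U) (u v w : E) :
    G y (christoffel G y u v) w
      = (fderiv ℝ G y u v w + fderiv ℝ G y v u w - fderiv ℝ G y w u v) / 2 := by
  unfold christoffel
  rw [hG.apply_inverse hy]
  simp
  ring

omit [FiniteDimensional ℝ E] in
lemma eq_of_forall (hG : IsMetricOn U G) {y : E} (hy : y ∈ U) {a b : E}
    (h : ∀ w, G y a w = G y b w) : a = b := by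
  have : a - b = 0 := hG.nondeg y hy _ (fun w => by rw [map_sub]; simp [h w])
  exact sub_eq_zero.1 this

theorem isConnectionOn (hU : IsOpen U) (hG : IsMetricOn U G) :
    IsConnectionOn U (christoffel G) := by
  refine ⟨fun y hy u v => ?_, fun y hy => ?_, fun y hy u v => ?_⟩
  · unfold christoffel
    have h0 : ContDiffAt ℝ ∞ (fun p : E × E × E => (G p.1).inverse) (y, u, v) := by
      have h1 := (hG.isInvertible hy).contDiffAt_map_inverse (n := ∞)
      exact (h1.comp y (hG.smooth y hy)).comp (f := fun p : E × E × E => p.1) (y, u, v)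
        contDiffAt_fst
    have h2 : ContDiffAt ℝ ∞ (fun p : E × E × E => fderiv ℝ G p.1) (y, u, v) := by
      have h3 : ContDiffAt ℝ ∞ (fderiv ℝ G) y := (hG.smooth y hy).fderiv_right (by simp)
      exact h3.comp (f := fun p : E × E × E => p.1) (y, u, v) contDiffAt_fst
    have hflip : ContDiff ℝ ∞ (fun L : E →L[ℝ] E →L[ℝ] E →L[ℝ] ℝ => L.flip) :=
      (ContinuousLinearMap.flipₗᵢ ℝ E E (E →L[ℝ] ℝ)).toContinuousLinearEquiv.contDiff
    have hflip' : ContDiff ℝ ∞ (fun L : E →L[ℝ] E →L[ℝ] ℝ => L.flip) :=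
      (ContinuousLinearMap.flipₗᵢ ℝ E E ℝ).toContinuousLinearEquiv.contDiff
    refine h0.clm_apply (ContDiffAt.const_smul _ ?_)
    refine ContDiffAt.sub (ContDiffAt.add ?_ ?_) ?_
    · exact (h2.clm_apply (by fun_prop)).clm_apply (by fun_prop)
    · exact (h2.clm_apply (by fun_prop)).clm_apply (by fun_prop)
    · have h4 : ContDiffAt ℝ ∞ (fun p : E × E × E => (fderiv ℝ G p.1).flip) (y, u, v) :=
        hflip.contDiffAt.comp (f := fun p : E × E × E => fderiv ℝ G p.1) (y, u, v) h2
      have h5 : ContDiffAt ℝ ∞ (fun p : E × E × E => (fderiv ℝ G p.1).flip p.2.1) (y, u, v) :=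
        h4.clm_apply (by fun_prop)
      have h6 : ContDiffAt ℝ ∞ (fun p : E × E × E => ((fderiv ℝ G p.1).flip p.2.1).flip)
          (y, u, v) :=
        hflip'.contDiffAt.comp (f := fun p : E × E × E => (fderiv ℝ G p.1).flip p.2.1) (y, u, v) h5
      exact h6.clm_apply (by fun_prop)
  · refine ⟨LinearMap.mk₂ ℝ (christoffel G y) ?_ ?_ ?_ ?_, fun u v => rfl⟩
    · intro a b v
      apply hG.eq_of_forall hy
      intro w
      rw [map_add, add_apply, hG.koszul hy, hG.koszul hy, hG.koszul hy]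
      simp only [map_add, add_apply]
      ring
    · intro c a v
      apply hG.eq_of_forall hy
      intro w
      rw [map_smul, smul_apply, hG.koszul hy, hG.koszul hy]
      simp only [map_smul, smul_apply, smul_eq_mul]
      ring
    · intro u a b
      apply hG.eq_of_forall hy
      intro w
      rw [map_add, add_apply, hG.koszul hy, hG.koszul hy, hG.koszul hy]
      simp only [map_add, add_apply]
      ring
    · intro c u a
      apply hG.eq_of_forall hy
      intro w
      rw [map_smul, smul_apply, hG.koszul hy, hG.koszul hy]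
      simp only [map_smul, smul_apply, smul_eq_mul]
      ring
  · apply hG.eq_of_forall hy
    intro w
    rw [hG.koszul hy, hG.koszul hy, hG.fderiv_symm hU hy w u v]
    ring

/-- The Levi-Civita connection is metric. -/
theorem metric (hU : IsOpen U) (hG : IsMetricOn U G) {y : E} (hy : y ∈ U) (u v w : E) :
    fderiv ℝ G y u v w = G y (christoffel G y u v) w + G y v (christoffel G y u w) := by
  rw [hG.symm y hy v, hG.koszul hy, hG.koszul hy, hG.fderiv_symm hU hy u w v,
    hG.fderiv_symm hU hy v u w]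
  ring

/-- Transformation law of the Christoffel symbols. -/
theorem connRel (hU : IsOpen U) (hG : IsMetricOn U G) {τ : E → E} {U' : Set E}
    (hτ : ∀ z ∈ U, ContDiffAt ℝ ∞ τ z) (hmaps : ∀ z ∈ U, τ z ∈ U')
    (hsurj : ∀ z ∈ U, Function.Surjective (fderiv ℝ τ z))
    {G' : E → E →L[ℝ] E →L[ℝ] ℝ} (hG' : IsMetricOn U' G') (hrel : MetricRel τ U G G') :
    ConnRel τ U (christoffel G) (christoffel G') := by
  intro y hy u v
  set D := fderiv ℝ τ y with hD
  set D2 := fderiv ℝ (fderiv ℝ τ) y with hD2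
  have hτ' : HasFDerivAt τ D y := ((hτ y hy).differentiableAt (by simp)).hasFDerivAt
  have h2inf : minSmoothness ℝ 2 ≤ (∞ : WithTop ℕ∞) := by
    rw [minSmoothness_of_isRCLikeNormedField]
    exact WithTop.coe_le_coe.2 (le_top : (2 : ℕ∞) ≤ ⊤)
  have hsymm2 : ∀ a b, D2 a b = D2 b a := by
    intro a b
    exact ((hτ y hy).isSymmSndFDerivAt h2inf).eq a b
  have key : ∀ a b c, fderiv ℝ G y a b c = fderiv ℝ G' (τ y) (D a) (D b) (D c)
      + G' (τ y) (D2 a b) (D c) + G' (τ y) (D b) (D2 a c) := by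
    intro a b c
    have hd : HasFDerivAt G (fderiv ℝ G y) y :=
      ((hG.smooth y hy).differentiableAt (by simp)).hasFDerivAt
    have hd' : HasFDerivAt G' (fderiv ℝ G' (τ y)) (τ y) :=
      ((hG'.smooth _ (hmaps y hy)).differentiableAt (by simp)).hasFDerivAt
    have h1 := (hd.clm_apply (hasFDerivAt_const b y)).clm_apply (hasFDerivAt_const c y)
    have h2 := ((hd'.comp y hτ').clm_apply (hasFDerivAt_fderiv_apply (hτ y hy) b)).clm_apply
      (hasFDerivAt_fderiv_apply (hτ y hy) c)
    have heq : (fun z => G z b c) =ᶠ[𝓝 y]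
        fun z => (G' ∘ τ) z (fderiv ℝ τ z b) (fderiv ℝ τ z c) := by
      filter_upwards [hU.mem_nhds hy] with z hz
      exact (hrel z hz b c).symm
    have h3 := (h1.congr_of_eventuallyEq heq.symm).unique h2
    have h4 := congrArg (fun L => L a) h3
    simp at h4
    rw [h4]
    ring
  apply hG'.eq_of_forall (hmaps y hy)
  intro w'
  obtain ⟨w, rfl⟩ := hsurj y hy w'
  rw [map_sub, sub_apply, hrel y hy, hG'.koszul (hmaps y hy), hG.koszul hy, key, key, key,
    hsymm2 v u, hG'.symm _ (hmaps y hy) (D v) (D2 u w), hsymm2 w u, hsymm2 w v,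
    hG'.symm _ (hmaps y hy) (D u) (D2 v w)]
  ring

end IsMetricOn

end

end Pool.Agent.Lib.MP_611141_gt
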