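import Mathlib
import Pool.Agent.Lib.MP_611141_gt.LeviCivita

set_option autoImplicit false
set_option maxSynthPendingDepth 3

/-!
# Changes of charts
-/

namespace Pool.Agent.Lib.MP_611141_gt

open scoped Topology ContDiff Manifold
open Function Set

noncomputable section

section Overlap

variable {E M : Type*} [NormedAddCommGroup E] [TopologicalSpace M]

/-- The domain of the change of charts `ψ ∘ φ.symm`. -/
def overlap (φ ψ : OpenPartialHomeomorph M E) : Set E := φ.target ∩ φ.symm ⁻¹' ψ.source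

variable {φ ψ : OpenPartialHomeomorph M E}

lemma isOpen_overlap (φ ψ : OpenPartialHomeomorph M E) : IsOpen (overlap φ ψ) :=
  φ.isOpen_inter_preimage_symm ψ.open_source

lemma mem_overlap {x : M} (h : x ∈ φ.source) (h' : x ∈ ψ.source) : φ x ∈ overlap φ ψ :=
  ⟨φ.map_source h, by simpa [φ.left_inv h] using h'⟩

lemma overlap_maps {y : E} (hy : y ∈ overlap φ ψ) : (ψ ∘ φ.symm) y ∈ ψ.target :=
  ψ.map_source hy.2

lemma overlap_maps' {y : E} (hy : y ∈ overlap φ ψ) : (ψ ∘ φ.symm) y ∈ overlap ψ φ := by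
  refine ⟨ψ.map_source hy.2, ?_⟩
  simp only [mem_preimage, comp_apply, ψ.left_inv hy.2]
  exact φ.map_target hy.1

lemma transition_inv {y : E} (hy : y ∈ overlap φ ψ) :
    (φ ∘ ψ.symm) ((ψ ∘ φ.symm) y) = y := by
  simp only [comp_apply, ψ.left_inv hy.2, φ.right_inv hy.1]

end Overlap

variable {E M : Type*} [NormedAddCommGroup E] [NormedSpace ℝ E] [TopologicalSpace M]
  [ChartedSpace E M] {φ ψ : OpenPartialHomeomorph M E}

lemma contDiffAt_transition [IsManifold 𝓘(ℝ, E) ∞ M]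
    (hφ : φ ∈ atlas E M) (hψ : ψ ∈ atlas E M) {y : E} (hy : y ∈ overlap φ ψ) :
    ContDiffAt ℝ ∞ (ψ ∘ φ.symm) y := by
  have h : φ.symm ≫ₕ ψ ∈ contDiffGroupoid ∞ 𝓘(ℝ, E) :=
    (contDiffGroupoid ∞ 𝓘(ℝ, E)).compatible hφ hψ
  rw [contDiffGroupoid, mem_groupoid_of_pregroupoid] at h
  have h1 : ContDiffOn ℝ ∞ (𝓘(ℝ, E) ∘ (φ.symm ≫ₕ ψ) ∘ 𝓘(ℝ, E).symm)
    (𝓘(ℝ, E).symm ⁻¹' (φ.symm ≫ₕ ψ).source ∩ range 𝓘(ℝ, E)) := h.1
  simp only [modelWithCornersSelf_coe, modelWithCornersSelf_coe_symm, id_comp, comp_id,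
    range_id, inter_univ, preimage_id] at h1
  have h2 : (φ.symm ≫ₕ ψ).source ∈ 𝓝 y := by
    rw [OpenPartialHomeomorph.trans_source]
    exact (isOpen_overlap φ ψ).mem_nhds hy
  exact h1.contDiffAt h2

lemma fderiv_transition_comp [IsManifold 𝓘(ℝ, E) ∞ M]
    (hφ : φ ∈ atlas E M) (hψ : ψ ∈ atlas E M) {y : E} (hy : y ∈ overlap φ ψ) :
    (fderiv ℝ (φ ∘ ψ.symm) ((ψ ∘ φ.symm) y)).comp (fderiv ℝ (ψ ∘ φ.symm) y)
      = ContinuousLinearMap.id ℝ E := by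
  have h1 : HasFDerivAt (ψ ∘ φ.symm) (fderiv ℝ (ψ ∘ φ.symm) y) y :=
    ((contDiffAt_transition hφ hψ hy).differentiableAt (by simp)).hasFDerivAt
  have h2 : HasFDerivAt (φ ∘ ψ.symm) (fderiv ℝ (φ ∘ ψ.symm) ((ψ ∘ φ.symm) y))
      ((ψ ∘ φ.symm) y) :=
    ((contDiffAt_transition hψ hφ (overlap_maps' hy)).differentiableAt (by simp)).hasFDerivAt
  have h3 := h2.comp y h1
  have h4 : (φ ∘ ψ.symm) ∘ (ψ ∘ φ.symm) =ᶠ[𝓝 y] id := by
    filter_upwards [(isOpen_overlap φ ψ).mem_nhds hy] with z hz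
    exact transition_inv hz
  exact (h3.congr_of_eventuallyEq h4.symm).unique (hasFDerivAt_id y)

/-- The derivative of a change of charts, as an equivalence. -/
def transitionEquiv [IsManifold 𝓘(ℝ, E) ∞ M]
    (hφ : φ ∈ atlas E M) (hψ : ψ ∈ atlas E M) {y : E} (hy : y ∈ overlap φ ψ) : E ≃L[ℝ] E :=
  ContinuousLinearEquiv.equivOfInverse (fderiv ℝ (ψ ∘ φ.symm) y)
    (fderiv ℝ (φ ∘ ψ.symm) ((ψ ∘ φ.symm) y))
    (fun v => congrArg (fun L => L v) (fderiv_transition_comp hφ hψ hy))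
    (fun v => by
      have h := fderiv_transition_comp hψ hφ (overlap_maps' hy)
      rw [transition_inv hy] at h
      exact congrArg (fun L => L v) h)

@[simp] lemma transitionEquiv_apply [IsManifold 𝓘(ℝ, E) ∞ M]
    (hφ : φ ∈ atlas E M) (hψ : ψ ∈ atlas E M) {y : E} (hy : y ∈ overlap φ ψ) (v : E) :
    transitionEquiv hφ hψ hy v = fderiv ℝ (ψ ∘ φ.symm) y v := rfl

lemma surjective_fderiv_transition [IsManifold 𝓘(ℝ, E) ∞ M]
    (hφ : φ ∈ atlas E M) (hψ : ψ ∈ atlas E M) {y : E} (hy : y ∈ overlap φ ψ) :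
    Surjective (fderiv ℝ (ψ ∘ φ.symm) y) := (transitionEquiv hφ hψ hy).surjective

lemma injective_fderiv_transition [IsManifold 𝓘(ℝ, E) ∞ M]
    (hφ : φ ∈ atlas E M) (hψ : ψ ∈ atlas E M) {y : E} (hy : y ∈ overlap φ ψ) :
    Injective (fderiv ℝ (ψ ∘ φ.symm) y) := (transitionEquiv hφ hψ hy).injective

/-- Chain rule for changes of charts. -/
lemma fderiv_transition_trans [IsManifold 𝓘(ℝ, E) ∞ M] {χ : OpenPartialHomeomorph M E}
    (hφ : φ ∈ atlas E M) (hψ : ψ ∈ atlas E M) (hχ : χ ∈ atlas E M) {x : M} (h1 : x ∈ φ.source)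
    (h2 : x ∈ ψ.source) (h3 : x ∈ χ.source) :
    (fderiv ℝ (χ ∘ ψ.symm) (ψ x)).comp (fderiv ℝ (ψ ∘ φ.symm) (φ x))
      = fderiv ℝ (χ ∘ φ.symm) (φ x) := by
  have e1 : (ψ ∘ φ.symm) (φ x) = ψ x := by simp [φ.left_inv h1]
  have k1 : HasFDerivAt (ψ ∘ φ.symm) (fderiv ℝ (ψ ∘ φ.symm) (φ x)) (φ x) :=
    ((contDiffAt_transition hφ hψ (mem_overlap h1 h2)).differentiableAt (by simp)).hasFDerivAt
  have k2 : HasFDerivAt (χ ∘ ψ.symm) (fderiv ℝ (χ ∘ ψ.symm) (ψ x)) ((ψ ∘ φ.symm) (φ x)) := by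
    rw [e1]
    exact ((contDiffAt_transition hψ hχ (mem_overlap h2 h3)).differentiableAt
      (by simp)).hasFDerivAt
  have k3 : HasFDerivAt (χ ∘ φ.symm) (fderiv ℝ (χ ∘ φ.symm) (φ x)) (φ x) :=
    ((contDiffAt_transition hφ hχ (mem_overlap h1 h3)).differentiableAt (by simp)).hasFDerivAt
  have h4 : (χ ∘ ψ.symm) ∘ (ψ ∘ φ.symm) =ᶠ[𝓝 (φ x)] χ ∘ φ.symm := by
    filter_upwards [(isOpen_overlap φ ψ).mem_nhds (mem_overlap h1 h2)] with z hz
    simp only [comp_apply, ψ.left_inv hz.2]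
  exact ((k2.comp _ k1).congr_of_eventuallyEq h4.symm).unique k3

lemma fderiv_transition_self [IsManifold 𝓘(ℝ, E) ∞ M] (hφ : φ ∈ atlas E M) {x : M}
    (h1 : x ∈ φ.source) : fderiv ℝ (φ ∘ φ.symm) (φ x) = ContinuousLinearMap.id ℝ E := by
  have h4 : φ ∘ φ.symm =ᶠ[𝓝 (φ x)] id := by
    filter_upwards [φ.open_target.mem_nhds (φ.map_source h1)] with z hz
    simp [φ.right_inv hz]
  have k3 : HasFDerivAt (φ ∘ φ.symm) (fderiv ℝ (φ ∘ φ.symm) (φ x)) (φ x) :=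
    ((contDiffAt_transition hφ hφ (mem_overlap h1 h1)).differentiableAt (by simp)).hasFDerivAt
  exact (k3.congr_of_eventuallyEq h4.symm).unique (hasFDerivAt_id _)

namespace PseudoMetric

variable (g : PseudoMetric E M)

lemma isMetricOn (hφ : φ ∈ atlas E M) : IsMetricOn φ.target (g.G φ) :=
  ⟨g.smooth φ hφ, g.symm φ hφ, g.nondeg φ hφ⟩

lemma isMetricOn_overlap (hφ : φ ∈ atlas E M) (ψ : OpenPartialHomeomorph M E) :
    IsMetricOn (overlap φ ψ) (g.G φ) :=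
  ⟨fun y hy => g.smooth φ hφ y hy.1, fun y hy => g.symm φ hφ y hy.1,
    fun y hy => g.nondeg φ hφ y hy.1⟩

lemma metricRel (hφ : φ ∈ atlas E M) (hψ : ψ ∈ atlas E M) :
    MetricRel (ψ ∘ φ.symm) (overlap φ ψ) (g.G φ) (g.G ψ) := by
  intro y hy u v
  have h := g.compat φ hφ ψ hψ (φ.symm y) ⟨φ.map_target hy.1, hy.2⟩ u v
  rw [φ.right_inv hy.1] at h
  exact h

variable [FiniteDimensional ℝ E]

lemma isConnectionOn (hφ : φ ∈ atlas E M) : IsConnectionOn φ.target (g.Γ φ) :=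
  (g.isMetricOn hφ).isConnectionOn φ.open_target

lemma isConnectionOn_overlap (hφ : φ ∈ atlas E M) (ψ : OpenPartialHomeomorph M E) :
    IsConnectionOn (overlap φ ψ) (g.Γ φ) :=
  (g.isMetricOn_overlap hφ ψ).isConnectionOn (isOpen_overlap φ ψ)

lemma isTensorOn_nablaR (hφ : φ ∈ atlas E M) (r : ℕ) :
    IsTensorOn φ.target (nablaR (g.Γ φ) r) :=
  (g.isConnectionOn hφ).nablaR φ.open_target r

/-- The transformation law of the Christoffel symbols. -/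
lemma connRel [IsManifold 𝓘(ℝ, E) ∞ M] (hφ : φ ∈ atlas E M) (hψ : ψ ∈ atlas E M) :
    ConnRel (ψ ∘ φ.symm) (overlap φ ψ) (g.Γ φ) (g.Γ ψ) :=
  (g.isMetricOn_overlap hφ ψ).connRel (isOpen_overlap φ ψ) (U' := ψ.target)
    (fun _ hz => contDiffAt_transition hφ hψ hz) (fun _ hz => overlap_maps hz)
    (fun _ hz => surjective_fderiv_transition hφ hψ hz) (g.isMetricOn hψ) (g.metricRel hφ hψ)

/-- Naturality of the iterated covariant derivatives of the curvature. -/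
lemma tensorRel_nablaR [IsManifold 𝓘(ℝ, E) ∞ M] (hφ : φ ∈ atlas E M) (hψ : ψ ∈ atlas E M)
    (r : ℕ) :
    TensorRel (ψ ∘ φ.symm) (overlap φ ψ) (nablaR (g.Γ φ) r) (nablaR (g.Γ ψ) r) :=
  (g.connRel hφ hψ).nablaR (isOpen_overlap φ ψ) ψ.open_target
    (fun _ hz => contDiffAt_transition hφ hψ hz) (fun _ hz => overlap_maps hz)
    (g.isConnectionOn_overlap hφ ψ) (g.isConnectionOn hψ) r

end PseudoMetric

end

end Pool.Agent.Lib.MP_611141_gt
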