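import Pool.Agent.Lib.MP_611141_gt.Lift

/-!
# Causal completeness gives complete flows
-/

set_option autoImplicit false
set_option maxSynthPendingDepth 3

open Set Topology Filter
open scoped ContDiff Manifold

namespace Pool.Agent.Lib.MP_611141_gt

noncomputable section

namespace FrameSpec

variable {E M : Type} [NormedAddCommGroup E] [NormedSpace ℝ E] [TopologicalSpace M]
  [ChartedSpace E M] {g : PseudoMetric E M} {P : Type} [TopologicalSpace P] (F : FrameSpec g P)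
  [FiniteDimensional ℝ E] [IsManifold 𝓘(ℝ, E) ∞ M] [T2Space P]

omit [FiniteDimensional ℝ E] [IsManifold 𝓘(ℝ, E) ∞ M] in
/-- Being a geodesic is a local property. -/
lemma _root_.Pool.Agent.Lib.MP_611141_gt.PseudoMetric.IsGeodesicOn.congr_at {γ δ : ℝ → M}
    {I J : Set ℝ} {t : ℝ} (hγ : g.IsGeodesicOn γ I) (ht : t ∈ I) (h : γ =ᶠ[𝓝 t] δ)
    (hJ : J = {t}) : g.IsGeodesicOn δ J := by
  subst hJ
  intro s hs
  rw [mem_singleton_iff] at hs
  subst hs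
  obtain ⟨h1, h2⟩ := hγ s ht
  refine ⟨h1.congr h, fun φ hφ hφs => ?_⟩
  rw [← h.eq_of_nhds] at hφs ⊢
  obtain ⟨h3, h4⟩ := h2 φ hφ hφs
  have hev : ∀ᶠ r in 𝓝 s, φ ∘ γ =ᶠ[𝓝 r] φ ∘ δ := by
    have := h.eventually_nhds
    filter_upwards [this] with r hr
    exact Filter.EventuallyEq.fun_comp (show γ =ᶠ[𝓝 r] δ from hr) φ
  have hev' : deriv (φ ∘ γ) =ᶠ[𝓝 s] deriv (φ ∘ δ) := hev.mono fun r hr => hr.deriv_eq
  refine ⟨?_, ?_⟩
  · filter_upwards [hev, h3] with r hr hr'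
    exact hr'.congr_of_eventuallyEq hr.symm
  · rw [← hev'.eq_of_nhds]
    exact h4.congr_of_eventuallyEq hev'.symm

include F in
/-- Every geodesic extends to an inextendible geodesic. -/
lemma exists_inextendible [Nontrivial E] {γ : ℝ → M} {I : Set ℝ} (hI : IsOpen I)
    (hI' : I.OrdConnected) (hI0 : I.Nonempty) (hγ : g.IsGeodesicOn γ I) :
    ∃ (δ : ℝ → M) (J : Set ℝ), g.IsInextendibleGeodesic δ J ∧ I ⊆ J ∧ EqOn γ δ I := by
  classical
  let Fam : Set ℝ → (ℝ → M) → Prop := fun J δ =>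
    IsOpen J ∧ J.OrdConnected ∧ I ⊆ J ∧ g.IsGeodesicOn δ J ∧ EqOn γ δ I
  have hagree : ∀ J δ J' δ', Fam J δ → Fam J' δ' → EqOn δ δ' (J ∩ J') := by
    rintro J δ J' δ' ⟨a1, a2, a3, a4, a5⟩ ⟨b1, b2, b3, b4, b5⟩
    refine F.geodesic_unique' (a1.inter b1) ?_ (fun t ht => a4 t ht.1) (fun t ht => b4 t ht.2)
      hI (fun t ht => ⟨a3 ht, b3 ht⟩) hI0 (fun t ht => by rw [← a5 ht, b5 ht])
    exact (a2.inter b2).isPreconnected
  let Jm : Set ℝ := {t | ∃ J δ, Fam J δ ∧ t ∈ J}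
  have hch : ∀ t, ∃ (J : Set ℝ) (δ : ℝ → M), t ∈ Jm → Fam J δ ∧ t ∈ J := by
    intro t
    by_cases ht : t ∈ Jm
    · obtain ⟨J, δ, h⟩ := ht
      exact ⟨J, δ, fun _ => h⟩
    · exact ⟨∅, γ, fun h => absurd h ht⟩
  choose Jc δc hc using hch
  let δm : ℝ → M := fun t => δc t t
  have hδm : ∀ J δ, Fam J δ → EqOn δm δ J := by
    intro J δ h t ht
    have htm : t ∈ Jm := ⟨J, δ, h, ht⟩
    exact hagree _ _ _ _ (hc t htm).1 h ⟨(hc t htm).2, ht⟩
  have hIm : I ⊆ Jm := fun t ht => ⟨I, γ, ⟨hI, hI', Subset.rfl, hγ, fun _ _ => rfl⟩, ht⟩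
  have hopen : IsOpen Jm := by
    rw [isOpen_iff_mem_nhds]
    rintro t ⟨J, δ, h, ht⟩
    exact mem_of_superset (h.1.mem_nhds ht) fun s hs => ⟨J, δ, h, hs⟩
  have hord : Jm.OrdConnected := by
    obtain ⟨x₀, hx₀⟩ := hI0
    have : IsPreconnected Jm := by
      refine isPreconnected_of_forall x₀ ?_
      rintro t ⟨J, δ, h, ht⟩
      exact ⟨J, fun s hs => ⟨J, δ, h, hs⟩, h.2.2.1 hx₀, ht, h.2.1.isPreconnected⟩
    exact this.ordConnected
  have hgeo : g.IsGeodesicOn δm Jm := by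
    rintro t ⟨J, δ, h, ht⟩
    have h1 : δ =ᶠ[𝓝 t] δm := by
      filter_upwards [h.1.mem_nhds ht] with s hs
      exact (hδm J δ h hs).symm
    exact (h.2.2.2.1.congr_at ht h1 rfl) t rfl
  have hγm : EqOn γ δm I := fun t ht =>
    (hδm I γ ⟨hI, hI', Subset.rfl, hγ, fun _ _ => rfl⟩ ht).symm
  refine ⟨δm, Jm, ⟨hopen, hord, hI0.mono hIm, hgeo, ?_⟩, hIm, hγm⟩
  intro J δ h1 h2 h3 h4 h5
  refine Subset.antisymm (fun t ht => ⟨J, δ, ⟨h1, h2, hIm.trans h3, h4, fun s hs => ?_⟩, ht⟩) h3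
  rw [hγm hs, h5 (hIm hs)]

include F in
/-- The causal type is constant. -/
lemma hasCausalType_of_subset [Nontrivial E] {γ : ℝ → M} {I J : Set ℝ} {σ : SignType}
    (hJ : IsOpen J) (hJ' : IsPreconnected J) (hγ : g.IsGeodesicOn γ J) (hI : I ⊆ J)
    (hI0 : I.Nonempty) (h : g.HasCausalType σ γ I) : g.HasCausalType σ γ J := by
  obtain ⟨w, hw⟩ := exists_ne (0 : E)
  obtain ⟨lam, -, hlam⟩ := exists_dual_vector ℝ w (by simpa using hw)
  have hw' : lam (‖w‖⁻¹ • w) = 1 := by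
    rw [map_smul, hlam]
    simp [hw]
  set w' := ‖w‖⁻¹ • w with hw'def
  have hctl : ∀ t ∈ J, F.S.Ctl (F.lift γ lam) (w', 0) t := fun t ht =>
    F.ctl_lift lam hJ hγ hw' ht
  obtain ⟨t₀, ht₀⟩ := hI0
  -- value of the metric
  have hval : ∀ t ∈ J, ∀ φ (hφ : φ ∈ atlas E M), γ t ∈ φ.source →
      g.G φ (φ (γ t)) (deriv (φ ∘ γ) t) (deriv (φ ∘ γ) t) = F.form (F.lift γ lam t) w' w' := by
    intro t ht φ hφ hφt
    have h1 := F.lift_chart lam (hγ t ht).1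
      ((hγ t ht).2 _ (idx E (γ t)).2 (mem_idx E _)).1.self_of_nhds (j := ⟨φ, hφ⟩) hφt
    have h2 : F.lift γ lam t ∈ (F.S.κ ⟨φ, hφ⟩).source :=
      (F.src _ _).2 (by rw [F.π_lift]; exact hφt)
    rw [F.pull_apply h2, h1]
    simp [hw']
  intro t ht φ hφ hφt
  refine ⟨fun h0 => ?_, ?_⟩
  · -- the velocity does not vanish
    have hp : ∀ s : ℝ, F.S.Ctl (fun _ => F.lift γ lam t) (w', 0) s := by
      intro s
      have h2 : F.lift γ lam t ∈ (F.S.κ ⟨φ, hφ⟩).source :=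
        (F.src _ _).2 (by rw [F.π_lift]; exact hφt)
      have h1 := F.lift_chart lam (hγ t ht).1
        ((hγ t ht).2 _ (idx E (γ t)).2 (mem_idx E _)).1.self_of_nhds (j := ⟨φ, hφ⟩) hφt
      refine ParSpace.Ctl.of_chart continuousAt_const (i := ⟨φ, hφ⟩) h2 ?_
      have h3 : F.S.Y ⟨φ, hφ⟩ (F.S.κ ⟨φ, hφ⟩ (F.lift γ lam t)) (w', 0) = 0 := by
        have hy := F.mem_tgt h2
        have hz : ∀ u, (F.S.κ ⟨φ, hφ⟩ (F.lift γ lam t)).2 u = 0 := by
          intro u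
          rw [h1]
          simp only [ContinuousLinearMap.smulRight_apply]
          rw [h0, smul_zero]
        refine Prod.ext ?_ ?_
        · rw [F.Y_fst _ _ _ _ hy, hz]
          rfl
        · ext u
          rw [F.Y_snd _ _ _ _ _ hy, hz, hz, hz]
          rw [← g.chrCLM_eq]
          simp
      rw [h3]
      exact hasDerivAt_const _ _
    have heq := ParSpace.ctl_unique (S := F.S) hJ' hJ hctl (fun s _ => hp s) ht rfl
    have h4 := heq (hI ht₀)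
    have hbase : γ t₀ = γ t := by
      rw [← F.π_lift γ lam t₀, h4]
      exact F.π_lift γ lam t
    have hφt₀ : γ t₀ ∈ φ.source := by rw [hbase]; exact hφt
    have h5 := F.lift_chart lam (hγ t₀ (hI ht₀)).1
      ((hγ t₀ (hI ht₀)).2 _ (idx E (γ t₀)).2 (mem_idx E _)).1.self_of_nhds (j := ⟨φ, hφ⟩) hφt₀
    have h6 := F.lift_chart lam (hγ t ht).1
      ((hγ t ht).2 _ (idx E (γ t)).2 (mem_idx E _)).1.self_of_nhds (j := ⟨φ, hφ⟩) hφt
    rw [h4] at h5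
    have h7 := congrArg (fun y => y.2 w') (h5.symm.trans h6)
    simp only [ContinuousLinearMap.smulRight_apply, hw', one_smul, h0] at h7
    exact (h t₀ ht₀ φ hφ hφt₀).1 h7
  · have h1 := (h t₀ ht₀ _ (idx E (γ t₀)).2 (mem_idx E _)).2
    rw [hval t₀ (hI ht₀) _ (idx E (γ t₀)).2 (mem_idx E _)] at h1
    rw [hval t ht φ hφ hφt, F.pull_eq_of_ctl hJ hJ' hctl ht (hI ht₀)]
    exact h1

/-- Convergence of frames over a converging base geodesic. -/
lemma tendsto_of_base {f : ℝ → P} {w : E} {a T : ℝ} (haT : a < T)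
    (hf : ∀ t ∈ Ioo a T, F.S.Ctl f (w, 0) t) {γ : ℝ → M} {J : Set ℝ}
    (hγ : g.IsGeodesicOn γ J) (hT : T ∈ J) (h : ∀ t ∈ Ioo a T, F.π (f t) = γ t) :
    ∃ q, Tendsto f (𝓝[<] T) (𝓝 q) := by
  obtain ⟨j, hjdef⟩ : ∃ j, j = idx E (γ T) := ⟨_, rfl⟩
  have hjT : γ T ∈ j.1.source := by rw [hjdef]; exact mem_idx E _
  obtain ⟨hd1, hd2⟩ := (hγ T hT).2 j.1 j.2 hjT
  have hx : ContinuousAt (j.1 ∘ γ) T := hd1.self_of_nhds.continuousAt
  have hx' : ContinuousAt (deriv (j.1 ∘ γ)) T := hd2.continuousAt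
  have hyT : (j.1 ∘ γ) T ∈ j.1.target := j.1.map_source hjT
  have hL : ContinuousAt (fun t => chrCLM (g.G j.1) ((j.1 ∘ γ) t) (deriv (j.1 ∘ γ) t)) T := by
    have h1 : ContinuousAt (fun t => chrCLM (g.G j.1) ((j.1 ∘ γ) t)) T :=
      ContinuousAt.comp (g := chrCLM (g.G j.1)) (g.contDiffAt_chrCLM j.2 hyT).continuousAt hx
    exact h1.clm_apply hx'
  obtain ⟨K, hK0, hK⟩ : ∃ K : ℝ, 0 ≤ K ∧
      ∀ᶠ t in 𝓝 T, ‖chrCLM (g.G j.1) ((j.1 ∘ γ) t) (deriv (j.1 ∘ γ) t)‖ ≤ K := by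
    refine ⟨‖chrCLM (g.G j.1) ((j.1 ∘ γ) T) (deriv (j.1 ∘ γ) T)‖ + 1, by positivity, ?_⟩
    have h1 := hL.norm.eventually (gt_mem_nhds
      (show ‖chrCLM (g.G j.1) ((j.1 ∘ γ) T) (deriv (j.1 ∘ γ) T)‖
        < ‖chrCLM (g.G j.1) ((j.1 ∘ γ) T) (deriv (j.1 ∘ γ) T)‖ + 1 by linarith))
    exact h1.mono fun t ht => le_of_lt ht
  have hsrc : ∀ᶠ t in 𝓝 T, γ t ∈ j.1.source :=
    (hγ T hT).1.eventually (j.1.open_source.mem_nhds hjT)
  obtain ⟨ε, hε, hball⟩ := Metric.eventually_nhds_iff_ball.1 (hK.and hsrc)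
  rw [Real.ball_eq_Ioo] at hball
  set b := max a (T - ε) with hb
  have hbT : b < T := max_lt haT (by linarith)
  have hbsub : ∀ t ∈ Ioo b T, t ∈ Ioo a T ∧ t ∈ Ioo (T - ε) (T + ε) := by
    intro t ht
    exact ⟨⟨(le_max_left _ _).trans_lt ht.1, ht.2⟩, (le_max_right _ _).trans_lt ht.1,
      by linarith [ht.2]⟩
  have hfsrc : ∀ t ∈ Ioo b T, f t ∈ (F.S.κ j).source := by
    intro t ht
    rw [F.src, h t (hbsub t ht).1]
    exact (hball t (hbsub t ht).2).2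
  -- derivative of the frame part
  have hAder : ∀ t ∈ Ioo b T, HasDerivAt (fun s => (F.S.κ j (f s)).2)
      (-(chrCLM (g.G j.1) ((j.1 ∘ γ) t) (deriv (j.1 ∘ γ) t)).comp (F.S.κ j (f t)).2) t := by
    intro t ht
    have h1 : HasDerivAt (fun s => (F.S.κ j (f s)).2) (F.S.Y j (F.S.κ j (f t)) (w, 0)).2 t :=
      ((hf t (hbsub t ht).1).2 j (hfsrc t ht)).snd
    refine h1.congr_deriv ?_
    ext u
    rw [F.Y_snd _ _ _ _ _ (F.mem_tgt (hfsrc t ht))]
    have h2 : HasDerivAt (j.1 ∘ F.π ∘ f) ((F.S.κ j (f t)).2 w) t :=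
      F.hasDerivAt_base (hf t (hbsub t ht).1) (hfsrc t ht)
    have h3 : deriv (j.1 ∘ γ) t = (F.S.κ j (f t)).2 w := by
      rw [← h2.deriv]
      refine Filter.EventuallyEq.deriv_eq ?_
      filter_upwards [isOpen_Ioo.mem_nhds (hbsub t ht).1] with s hs
      simp only [Function.comp_apply, h s hs]
    have h4 : (j.1 ∘ γ) t = (F.S.κ j (f t)).1 := by
      rw [F.fst _ _ (hfsrc t ht), h t (hbsub t ht).1]
      rfl
    rw [h3, h4]
    simp [g.chrCLM_eq]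
  have hAbd : ∀ t ∈ Ioo b T, ‖-(chrCLM (g.G j.1) ((j.1 ∘ γ) t) (deriv (j.1 ∘ γ) t)).comp
      (F.S.κ j (f t)).2‖ ≤ K * ‖(F.S.κ j (f t)).2‖ := by
    intro t ht
    rw [norm_neg]
    refine (ContinuousLinearMap.opNorm_comp_le _ _).trans ?_
    gcongr
    exact (hball t (hbsub t ht).2).1
  -- bound
  obtain ⟨c, hc⟩ : ∃ c, c ∈ Ioo b T := exists_between hbT
  have hR : ∀ t ∈ Ioo c T, ‖(F.S.κ j (f t)).2‖ ≤
      ‖(F.S.κ j (f c)).2‖ * Real.exp (K * (T - c)) := by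
    intro t ht
    have h1 := norm_le_gronwallBound_of_norm_deriv_right_le
      (f := fun s => (F.S.κ j (f s)).2)
      (f' := fun t => -(chrCLM (g.G j.1) ((j.1 ∘ γ) t) (deriv (j.1 ∘ γ) t)).comp
        (F.S.κ j (f t)).2) (δ := ‖(F.S.κ j (f c)).2‖) (K := K) (ε := 0) (a := c) (b := t)
      (fun s hs => (hAder s ⟨hc.1.trans_le hs.1, hs.2.trans_lt ht.2⟩).continuousAt.continuousWithinAt)
      (fun s hs => (hAder s ⟨hc.1.trans_le hs.1, hs.2.trans ht.2⟩).hasDerivWithinAt)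
      le_rfl
      (fun s hs => by
        simpa using hAbd s ⟨hc.1.trans_le hs.1, hs.2.trans ht.2⟩) t ⟨ht.1.le, le_rfl⟩
    rw [gronwallBound_ε0] at h1
    refine h1.trans ?_
    have : t - c ≤ T - c := by linarith [ht.2]
    gcongr
  set R := K * (‖(F.S.κ j (f c)).2‖ * Real.exp (K * (T - c))) with hRdef
  have hR0 : 0 ≤ R := by positivity
  have hlip : LipschitzOnWith R.toNNReal (fun s => (F.S.κ j (f s)).2) (Ioo c T) := by
    refine Convex.lipschitzOnWith_of_nnnorm_hasDerivWithin_le (convex_Ioo c T)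
      (f' := fun t => -(chrCLM (g.G j.1) ((j.1 ∘ γ) t) (deriv (j.1 ∘ γ) t)).comp
        (F.S.κ j (f t)).2)
      (fun t ht => (hAder t ⟨hc.1.trans ht.1, ht.2⟩).hasDerivWithinAt) (fun t ht => ?_)
    rw [← NNReal.coe_le_coe, Real.coe_toNNReal R hR0]
    refine (hAbd t ⟨hc.1.trans ht.1, ht.2⟩).trans ?_
    change K * ‖(F.S.κ j (f t)).2‖ ≤ R
    rw [hRdef]
    gcongr
    exact hR t ht
  have : CompleteSpace (E →L[ℝ] E) := inferInstance
  obtain ⟨A, hA⟩ := tendsto_of_lipschitz hc.2 hlip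
  have hx2 : Tendsto (fun s => (F.S.κ j (f s)).1) (𝓝[<] T) (𝓝 ((j.1 ∘ γ) T)) := by
    refine (hx.tendsto.mono_left nhdsWithin_le_nhds).congr' ?_
    filter_upwards [Ioo_mem_nhdsLT hbT] with s hs
    rw [F.fst _ _ (hfsrc s hs), h s (hbsub s hs).1]
    rfl
  have h1 : Tendsto (fun s => F.S.κ j (f s)) (𝓝[<] T) (𝓝 ((j.1 ∘ γ) T, A)) :=
    hx2.prodMk_nhds hA
  have htgt : ((j.1 ∘ γ) T, A) ∈ (F.S.κ j).target := (F.tgt _ _).2 hyT
  refine ⟨(F.S.κ j).symm ((j.1 ∘ γ) T, A), ?_⟩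
  have h2 := ((F.S.κ j).continuousAt_symm htgt).tendsto.comp h1
  refine h2.congr' ?_
  filter_upwards [Ioo_mem_nhdsLT hbT] with s hs
  exact (F.S.κ j).left_inv (hfsrc s hs)

/-- Causal completeness gives complete flows for the controls of this causal type. -/
lemma isFlow_of_causallyComplete [Nontrivial E] {σ : SignType} (hσ : g.CausallyComplete σ)
    {g₀ : E →L[ℝ] E →L[ℝ] ℝ} (hg₀ : ∀ u, (∀ v, g₀ u v = 0) → u = 0) {v : E} (hv : v ≠ 0)
    (hvσ : SignType.sign (g₀ v v) = σ) :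
    ∃ Φ, ParSpace.IsFlow F.S (F.Q g₀) (v, 0) Φ := by
  have key : ∀ v : E, v ≠ 0 → SignType.sign (g₀ v v) = σ → ∀ (f : ℝ → P) (b : ℝ), 0 < b →
      (∀ t ∈ Ioo (-b) b, f t ∈ F.Q g₀ ∧ F.S.Ctl f (v, 0) t) →
      ∃ q, Tendsto f (𝓝[<] b) (𝓝 q) := by
    intro v hv hvσ f b hb hf
    have hgeo : g.IsGeodesicOn (F.π ∘ f) (Ioo (-b) b) :=
      F.isGeodesicOn_of_ctl isOpen_Ioo fun t ht => (hf t ht).2
    have htype : g.HasCausalType σ (F.π ∘ f) (Ioo (-b) b) := by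
      intro t ht φ hφ hφt
      have hj : f t ∈ (F.S.κ ⟨φ, hφ⟩).source := (F.src _ _).2 hφt
      have h1 := (F.hasDerivAt_base (hf t ht).2 hj).deriv
      simp only at h1
      rw [h1]
      refine ⟨fun h0 => hv ((injective_iff_map_eq_zero _).1
        (F.injective_of_mem_Q hg₀ (hf t ht).1 _ hj) v h0), ?_⟩
      have h2 := F.pull_apply hj v v
      rw [F.mem_Q.1 (hf t ht).1, F.fst _ _ hj] at h2
      simp only [Function.comp_apply]
      rw [← h2]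
      exact hvσ
    have hne : (Ioo (-b) b).Nonempty := ⟨0, by simpa using hb⟩
    obtain ⟨δ, J, hδ, hIJ, heq⟩ := F.exists_inextendible isOpen_Ioo ordConnected_Ioo hne hgeo
    have htype' : g.HasCausalType σ δ (Ioo (-b) b) := by
      intro t ht φ hφ hφt
      rw [← heq ht] at hφt ⊢
      have h1 : deriv (φ ∘ δ) t = deriv (φ ∘ F.π ∘ f) t := by
        refine Filter.EventuallyEq.deriv_eq ?_
        filter_upwards [isOpen_Ioo.mem_nhds ht] with s hs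
        simp only [Function.comp_apply, ← heq hs]
      rw [h1]
      exact htype t ht φ hφ hφt
    have htype'' : g.HasCausalType σ δ J :=
      F.hasCausalType_of_subset hδ.isOpen hδ.ordConnected.isPreconnected hδ.geodesic hIJ hne
        htype'
    have huniv := hσ δ J hδ htype''
    exact F.tendsto_of_base (a := -b) (T := b) (by linarith) (fun t ht => (hf t ht).2)
      hδ.geodesic (by rw [huniv]; trivial) (fun t ht => heq ht)
  refine ParSpace.isFlow_of_conv (F.preserves (mem_skew.2 (by simp))) (key v hv hvσ) ?_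
  have h1 := key (-v) (neg_ne_zero.2 hv) (by simpa using hvσ)
  intro f b hb hf
  refine h1 f b hb fun t ht => ⟨(hf t ht).1, ?_⟩
  have h2 := (hf t ht).2
  rwa [Prod.neg_mk, neg_zero] at h2

end FrameSpec

end

end Pool.Agent.Lib.MP_611141_gt
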