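import Pool.Agent.Lib.MP_611141_gt.Gauge

/-!
Extension of constant control paths, and the main abstract theorem: constant controls which
preserve `Q` are complete on `Q`.
-/

open Set Filter Metric Asymptotics
open scoped Topology NNReal

noncomputable section

namespace Pool.Agent.Lib.MP_611141_gt

namespace ParSpace

variable {P J V 𝔤 : Type*} [TopologicalSpace P] [NormedAddCommGroup V] [NormedSpace ℝ V]
    [NormedAddCommGroup 𝔤] [NormedSpace ℝ 𝔤] {S : ParSpace P J V 𝔤}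

/-- A constant control path which converges at the right end point extends. -/
theorem ext_right [CompleteSpace V] [T2Space P] {f : ℝ → P} {u : 𝔤} {a b : ℝ} (hab : a < b)
    (hf : ∀ t ∈ Ioo a b, S.Ctl f u t) {q : P} (hq : Tendsto f (𝓝[<] b) (𝓝 q)) :
    ∃ ε > (0 : ℝ), ∃ g : ℝ → P, (∀ t ∈ Ioo a (b + ε), S.Ctl g u t) ∧ EqOn g f (Iio b) := by
  obtain ⟨N, hN, δ, hδ, Ψ, -, hΨ⟩ := local_flow S q u
  have h1 : ∀ᶠ t in 𝓝[<] b, f t ∈ N := hq hN
  have h2 : ∀ᶠ t in 𝓝[<] b, t ∈ Ioo (max a (b - δ / 2)) b :=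
    Ioo_mem_nhdsLT (max_lt hab (by linarith))
  obtain ⟨t₁, ht₁N, ht₁⟩ := (h1.and h2).exists
  have hat₁ : a < t₁ := (le_max_left _ _).trans_lt ht₁.1
  have hbt₁ : b - δ / 2 < t₁ := (le_max_right _ _).trans_lt ht₁.1
  set ψ : ℝ → P := fun t => Ψ (f t₁, t - t₁) with hψ
  have hψc : ∀ t ∈ Ioo (t₁ - δ) (t₁ + δ), S.Ctl ψ u t := by
    intro t ht
    have h3 := (hΨ _ ht₁N).2 (t - t₁) ⟨by linarith [ht.1], by linarith [ht.2]⟩
    have h4 : S.Ctl (fun s => Ψ (f t₁, s + -t₁)) u t := by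
      refine Ctl.comp_add (f := fun s => Ψ (f t₁, s)) ?_
      rw [← sub_eq_add_neg]
      exact h3
    simpa [hψ, sub_eq_add_neg] using h4
  have heq : EqOn f ψ (Ioo (max a (t₁ - δ)) b) := by
    refine ctl_unique (S := S) (u := u) isPreconnected_Ioo isOpen_Ioo
      (fun t ht => hf t ⟨(le_max_left _ _).trans_lt ht.1, ht.2⟩)
      (fun t ht => hψc t ⟨(le_max_right _ _).trans_lt ht.1, ?_⟩)
      (t₀ := t₁) ⟨max_lt hat₁ (by linarith), ht₁.2⟩ ?_
    · linarith [ht.2]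
    · simp only [hψ, sub_self, (hΨ _ ht₁N).1]
  refine ⟨δ / 2, by positivity, fun t => if t < b then f t else ψ t, ?_, ?_⟩
  · intro t ht
    rcases lt_or_ge t b with htb | htb
    · refine (hf t ⟨ht.1, htb⟩).congr ?_
      filter_upwards [gt_mem_nhds htb] with s hs
      rw [if_pos hs]
    · have h5 : t₁ < t := ht₁.2.trans_le htb
      refine (hψc t ⟨by linarith, by linarith [ht.2]⟩).congr ?_
      filter_upwards [lt_mem_nhds h5] with s hs
      by_cases hsb : s < b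
      · rw [if_pos hsb]
        exact (heq ⟨max_lt (hat₁.trans hs) (by linarith), hsb⟩).symm
      · rw [if_neg hsb]
  · intro t ht
    simp only [mem_Iio.1 ht, if_true]

/-- A constant control path which converges at the left end point extends. -/
theorem ext_left [CompleteSpace V] [T2Space P] {f : ℝ → P} {u : 𝔤} {a b : ℝ} (hab : a < b)
    (hf : ∀ t ∈ Ioo a b, S.Ctl f u t) {q : P} (hq : Tendsto f (𝓝[>] a) (𝓝 q)) :
    ∃ ε > (0 : ℝ), ∃ g : ℝ → P, (∀ t ∈ Ioo (a - ε) b, S.Ctl g u t) ∧ EqOn g f (Ioi a) := by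
  have h1 : ∀ t ∈ Ioo (-b) (-a), S.Ctl (fun s => f (-s)) (-u) t := fun t ht =>
    Ctl.comp_neg (hf (-t) ⟨by linarith [ht.2], by linarith [ht.1]⟩)
  have h2 : Tendsto (fun s => f (-s)) (𝓝[<] (-a)) (𝓝 q) := by
    refine hq.comp ?_
    have := tendsto_neg_nhdsLT (a := -a)
    rwa [neg_neg] at this
  obtain ⟨ε, hε, g, hg, hgf⟩ := ext_right (by linarith) h1 h2
  refine ⟨ε, hε, fun t => g (-t), ?_, ?_⟩
  · intro t ht
    have h3 := Ctl.comp_neg (s := t) (hg (-t) ⟨by linarith [ht.2], by linarith [ht.1]⟩)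
    rwa [neg_neg] at h3
  · intro t ht
    have h3 := hgf (show -t ∈ Iio (-a) by simpa using ht)
    simp only [h3, neg_neg]

/-- There is a path from `p` with constant control `u` on `(-b, b)`. -/
def Reach (S : ParSpace P J V 𝔤) (u : 𝔤) (p : P) (b : ℝ) : Prop :=
  ∃ f : ℝ → P, f 0 = p ∧ ∀ t ∈ Ioo (-b) b, S.Ctl f u t

theorem Reach.anti {u : 𝔤} {p : P} {b b' : ℝ} (h : Reach S u p b) (hb : b' ≤ b) :
    Reach S u p b' := by
  obtain ⟨f, h0, hf⟩ := h
  exact ⟨f, h0, fun t ht => hf t ⟨by linarith [ht.1], by linarith [ht.2]⟩⟩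

/-- Gluing. -/
theorem glue [T2Space P] (S : ParSpace P J V 𝔤) (u : 𝔤) (p : P) :
    ∃ F : ℝ → P, F 0 = p ∧ ∀ t, (∃ b, |t| < b ∧ Reach S u p b) → S.Ctl F u t := by
  classical
  have hex : ∀ t : ℝ, ∃ (b : ℝ) (f : ℝ → P), (∃ b, |t| < b ∧ Reach S u p b) →
      (|t| < b ∧ f 0 = p ∧ ∀ t ∈ Ioo (-b) b, S.Ctl f u t) := by
    intro t
    by_cases h : ∃ b, |t| < b ∧ Reach S u p b
    · obtain ⟨b, hb, f, h0, hf⟩ := h
      exact ⟨b, f, fun _ => ⟨hb, h0, hf⟩⟩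
    · exact ⟨0, fun _ => p, fun h' => absurd h' h⟩
  choose b f hbf using hex
  have huniq : ∀ t s, (∃ b, |t| < b ∧ Reach S u p b) → (∃ b, |s| < b ∧ Reach S u p b) →
      |s| < b t → f s s = f t s := by
    intro t s ht hs hst
    obtain ⟨-, h0t, hft⟩ := hbf t ht
    obtain ⟨hbs, h0s, hfs⟩ := hbf s hs
    have hmin : |s| < min (b t) (b s) := lt_min hst hbs
    have hmin0 : 0 < min (b t) (b s) := (abs_nonneg _).trans_lt hmin
    have := ctl_unique (S := S) (u := u) (f := f s) (g := f t)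
      (I := Ioo (-(min (b t) (b s))) (min (b t) (b s))) isPreconnected_Ioo isOpen_Ioo
      (fun r hr => hfs r ⟨by linarith [hr.1, min_le_right (b t) (b s)],
        hr.2.trans_le (min_le_right _ _)⟩)
      (fun r hr => hft r ⟨by linarith [hr.1, min_le_left (b t) (b s)],
        hr.2.trans_le (min_le_left _ _)⟩)
      (t₀ := 0) ⟨by linarith, hmin0⟩ (h0s.trans h0t.symm)
    exact this (abs_lt.1 hmin)
  refine ⟨fun t => if t = 0 then p else f t t, by simp, fun t ht => ?_⟩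
  obtain ⟨hbt, h0t, hft⟩ := hbf t ht
  refine (hft t (abs_lt.1 hbt)).congr ?_
  have h1 : ∀ᶠ s in 𝓝 t, |s| < b t := continuous_abs.continuousAt.eventually (gt_mem_nhds hbt)
  filter_upwards [h1] with s hs
  by_cases hs0 : s = 0
  · simp only [hs0, if_true, h0t]
  · rw [if_neg hs0]
    exact (huniq t s ht ⟨b t, hs, f t, h0t, hft⟩ hs).symm

/-- Global existence from convergence at end points. -/
theorem global_of_conv [CompleteSpace V] [T2Space P] {u : 𝔤} {p : P}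
    (hr : ∀ (f : ℝ → P) (b : ℝ), 0 < b → f 0 = p → (∀ t ∈ Ioo (-b) b, S.Ctl f u t) →
      ∃ q, Tendsto f (𝓝[<] b) (𝓝 q))
    (hl : ∀ (f : ℝ → P) (b : ℝ), 0 < b → f 0 = p → (∀ t ∈ Ioo (-b) b, S.Ctl f u t) →
      ∃ q, Tendsto f (𝓝[>] (-b)) (𝓝 q)) :
    ∃ f : ℝ → P, f 0 = p ∧ ∀ t, S.Ctl f u t := by
  obtain ⟨F, hF0, hF⟩ := glue S u p
  refine ⟨F, hF0, fun t => hF t ?_⟩
  suffices h : ∀ b, Reach S u p b from ⟨|t| + 1, by linarith, h _⟩
  by_contra hcon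
  push Not at hcon
  obtain ⟨b₀, hb₀⟩ := hcon
  set T : Set ℝ := {b | Reach S u p b} with hT
  have hbd : BddAbove T := by
    refine ⟨b₀, fun b hb => ?_⟩
    by_contra h
    push Not at h
    exact hb₀ (Reach.anti hb h.le)
  obtain ⟨N, hN, δ, hδ, Ψ, -, hΨ⟩ := local_flow S p u
  have hδT : δ ∈ T := ⟨fun s => Ψ (p, s), (hΨ p (mem_of_mem_nhds hN)).1,
    (hΨ p (mem_of_mem_nhds hN)).2⟩
  set B := sSup T with hB
  have hB0 : 0 < B := hδ.trans_le (le_csSup hbd hδT)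
  have hFB : ∀ t ∈ Ioo (-B) B, S.Ctl F u t := by
    intro t ht
    obtain ⟨b, hb, htb⟩ := exists_lt_of_lt_csSup ⟨δ, hδT⟩ (abs_lt.2 ht)
    exact hF t ⟨b, htb, hb⟩
  obtain ⟨q, hq⟩ := hr F B hB0 hF0 hFB
  obtain ⟨ε, hε, g, hg, hgF⟩ := ext_right (by linarith) hFB hq
  have hg0 : g 0 = p := by rw [hgF (show (0 : ℝ) ∈ Iio B from hB0), hF0]
  obtain ⟨q', hq'⟩ := hl F B hB0 hF0 hFB
  have hq'' : Tendsto g (𝓝[>] (-B)) (𝓝 q') := by
    refine hq'.congr' ?_
    filter_upwards [Ioo_mem_nhdsGT (show -B < B by linarith)] with s hs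
    exact (hgF (show s ∈ Iio B from hs.2)).symm
  obtain ⟨ε', hε', g', hg', hg'g⟩ := ext_left (by linarith) hg hq''
  have hg'0 : g' 0 = p := by rw [hg'g (show (0 : ℝ) ∈ Ioi (-B) from by simpa using hB0), hg0]
  have hmem : B + min ε ε' ∈ T := by
    refine ⟨g', hg'0, fun t ht => hg' t ⟨?_, ?_⟩⟩
    · linarith [ht.1, min_le_right ε ε']
    · linarith [ht.2, min_le_left ε ε']
  have := le_csSup hbd hmem
  have hmin : 0 < min ε ε' := lt_min hε hε'
  linarith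

/-- A complete flow on `Q` from global paths. -/
theorem isFlow_of_global {Q : Set P} {u : 𝔤}
    (h : ∀ p ∈ Q, ∃ f : ℝ → P, f 0 = p ∧ ∀ t, f t ∈ Q ∧ S.Ctl f u t) :
    ∃ Φ : P → ℝ → P, IsFlow S Q u Φ := by
  classical
  have hex : ∀ p, ∃ f : ℝ → P, p ∈ Q → (f 0 = p ∧ ∀ t, f t ∈ Q ∧ S.Ctl f u t) := by
    intro p
    by_cases hp : p ∈ Q
    · obtain ⟨f, hf⟩ := h p hp
      exact ⟨f, fun _ => hf⟩
    · exact ⟨fun _ => p, fun h' => absurd h' hp⟩
  choose Φ hΦ using hex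
  exact ⟨Φ, fun p hp => (hΦ p hp).1, fun p hp s => ((hΦ p hp).2 s).1,
    fun p hp s => ((hΦ p hp).2 s).2⟩

/-- The constant control `u` preserves `Q` (in both time directions). -/
def Preserves (S : ParSpace P J V 𝔤) (Q : Set P) (u : 𝔤) : Prop :=
  ∀ (f : ℝ → P) (a b : ℝ), (∀ t ∈ Ioo a b, S.Ctl f u t) → ∀ s ∈ Ioo a b, f s ∈ Q →
    ∀ t ∈ Ioo a b, f t ∈ Q

theorem Preserves.neg {Q : Set P} {u : 𝔤} (h : Preserves S Q u) : Preserves S Q (-u) := by
  intro f a b hf s hs hsQ t ht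
  have h1 : ∀ t ∈ Ioo (-b) (-a), S.Ctl (fun s => f (-s)) u t := by
    intro t ht
    have h2 := Ctl.comp_neg (hf (-t) ⟨by linarith [ht.2], by linarith [ht.1]⟩)
    rwa [neg_neg] at h2
  have h3 := h (fun s => f (-s)) (-b) (-a) h1 (-s) ⟨by linarith [hs.2], by linarith [hs.1]⟩
    (by simpa using hsQ) (-t) ⟨by linarith [ht.2], by linarith [ht.1]⟩
  simpa using h3

/-- A complete flow from convergence of constant control paths in `Q` at the right end point, for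
`u` and `-u`. -/
theorem isFlow_of_conv [CompleteSpace V] [T2Space P] {Q : Set P} {u : 𝔤}
    (hQ : Preserves S Q u)
    (hr : ∀ (f : ℝ → P) (b : ℝ), 0 < b → (∀ t ∈ Ioo (-b) b, f t ∈ Q ∧ S.Ctl f u t) →
      ∃ q, Tendsto f (𝓝[<] b) (𝓝 q))
    (hl : ∀ (f : ℝ → P) (b : ℝ), 0 < b → (∀ t ∈ Ioo (-b) b, f t ∈ Q ∧ S.Ctl f (-u) t) →
      ∃ q, Tendsto f (𝓝[<] b) (𝓝 q)) :
    ∃ Φ : P → ℝ → P, IsFlow S Q u Φ := by
  refine isFlow_of_global fun p hp => ?_
  have h1 : ∀ (f : ℝ → P) (b : ℝ), 0 < b → f 0 = p → (∀ t ∈ Ioo (-b) b, S.Ctl f u t) →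
      ∃ q, Tendsto f (𝓝[<] b) (𝓝 q) := by
    intro f b hb hf0 hf
    exact hr f b hb fun t ht => ⟨hQ f (-b) b hf 0 ⟨by linarith, hb⟩ (by rw [hf0]; exact hp) t ht,
      hf t ht⟩
  have h2 : ∀ (f : ℝ → P) (b : ℝ), 0 < b → f 0 = p → (∀ t ∈ Ioo (-b) b, S.Ctl f u t) →
      ∃ q, Tendsto f (𝓝[>] (-b)) (𝓝 q) := by
    intro f b hb hf0 hf
    have hmem := hQ f (-b) b hf 0 ⟨by linarith, hb⟩ (by rw [hf0]; exact hp)
    obtain ⟨q, hq⟩ := hl (fun s => f (-s)) b hb fun t ht =>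
      ⟨hmem (-t) ⟨by linarith [ht.2], by linarith [ht.1]⟩,
        Ctl.comp_neg (hf (-t) ⟨by linarith [ht.2], by linarith [ht.1]⟩)⟩
    refine ⟨q, ?_⟩
    have h1 : Tendsto (fun s : ℝ => -s) (𝓝[>] (-b)) (𝓝[<] b) := by
      have := tendsto_neg_nhdsGT (a := -b)
      rwa [neg_neg] at this
    have h2 := hq.comp h1
    simpa [Function.comp_def] using h2
  obtain ⟨f, hf0, hf⟩ := global_of_conv (S := S) (u := u) (p := p) h1 h2
  refine ⟨f, hf0, fun t => ⟨?_, hf t⟩⟩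
  exact hQ f (-(|t| + 1)) (|t| + 1) (fun s _ => hf s) 0
    ⟨by linarith [abs_nonneg t], by linarith [abs_nonneg t]⟩ (by rw [hf0]; exact hp) t
    ⟨by linarith [neg_abs_le t], by linarith [le_abs_self t]⟩

/-- Convergence of bounded constant control paths. -/
theorem GaugeData.tendsto_of_ctl [CompleteSpace V] [CompleteSpace 𝔤] [T2Space P] {Q : Set P}
    (D : GaugeData S Q) {u : 𝔤} {f : ℝ → P} {b : ℝ} (hb : 0 < b)
    (hf : ∀ t ∈ Ioo (-b) b, f t ∈ Q ∧ S.Ctl f u t) : ∃ q, Tendsto f (𝓝[<] b) (𝓝 q) := by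
  have h0 : (0 : ℝ) ∈ Ioo (-b) b := ⟨by linarith, hb⟩
  set M := Real.exp (D.C * ‖u‖ * b) * D.h (f 0) with hM
  have hM0 : 0 ≤ M := mul_nonneg (Real.exp_pos _).le (D.h_nonneg _)
  have hgr : ∀ t ∈ Ioo (-b) b, D.h (f t) ≤ M := by
    intro t ht
    have h1 := D.growth f (fun _ => u) (-b) b ‖u‖ (fun s hs => ⟨(hf s hs).1, (hf s hs).2, le_rfl⟩)
      0 h0 t ht
    refine h1.trans ?_
    have hC := D.C_nonneg
    have := D.h_nonneg (f 0)
    have ht' : |t - 0| ≤ b := by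
      rw [sub_zero, abs_le]
      exact ⟨ht.1.le, ht.2.le⟩
    rw [hM]
    gcongr
  obtain ⟨l, hl, hconv⟩ := D.conv hM0
  set δ := min (b / 2) (l / (‖u‖ + 1)) with hδ
  have hδ0 : 0 < δ := lt_min (by positivity) (by positivity)
  have hδb : δ ≤ b / 2 := min_le_left _ _
  have hδl : δ * ‖u‖ ≤ l := by
    have h1 : δ ≤ l / (‖u‖ + 1) := min_le_right _ _
    rw [le_div_iff₀ (by positivity)] at h1
    nlinarith [norm_nonneg u]
  have hmap : ∀ s ∈ Ioo (-1 : ℝ) 1, b - δ + δ * s ∈ Ioo (-b) b := by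
    intro s hs
    constructor
    · nlinarith [hs.1, hs.2]
    · nlinarith [hs.1, hs.2]
  have hpath : IsPath S Q (fun s => f (b - δ + δ * s)) (fun _ => δ • u) l := by
    refine ⟨fun s hs => (hf _ (hmap s hs)).1, fun s hs => ?_, continuousOn_const, fun s _ => ?_⟩
    · have h1 := (hf _ (hmap s hs)).2
      have h2 : HasDerivAt (fun s => b - δ + δ * s) δ s := by
        simpa using ((hasDerivAt_id s).const_mul δ).const_add (b - δ)
      exact Ctl.comp h1 h2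
    · rw [norm_smul, Real.norm_eq_abs, abs_of_pos hδ0]
      exact hδl
  obtain ⟨q, -, hq⟩ := hconv (f (b - δ)) (hgr _ (by simpa using hmap 0 (by norm_num)))
    _ _ hpath (by simp)
  refine ⟨q, ?_⟩
  have h1 : Tendsto (fun t : ℝ => (t - (b - δ)) / δ) (𝓝[<] b) (𝓝[<] 1) := by
    refine tendsto_nhdsWithin_iff.2 ⟨?_, ?_⟩
    · have h2 : ContinuousAt (fun t : ℝ => (t - (b - δ)) / δ) b := by fun_prop
      have h3 : (b - (b - δ)) / δ = 1 := by field_simp; ring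
      have h4 := h2.tendsto
      simp only [h3] at h4
      exact h4.mono_left nhdsWithin_le_nhds
    · filter_upwards [self_mem_nhdsWithin] with t ht
      rw [mem_Iio] at ht ⊢
      rw [div_lt_one hδ0]
      linarith
  refine (hq.comp h1).congr ?_
  intro t
  simp only [Function.comp_apply]
  congr 1
  field_simp
  ring

/-- **Main abstract theorem**: given gauge data, every constant control which preserves `Q` has a
complete flow on `Q`. -/
theorem GaugeData.exists_isFlow [CompleteSpace V] [CompleteSpace 𝔤] [T2Space P] {Q : Set P}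
    (D : GaugeData S Q) {u : 𝔤} (hQ : Preserves S Q u) : ∃ Φ : P → ℝ → P, IsFlow S Q u Φ :=
  isFlow_of_conv hQ (fun _ _ hb hf => D.tendsto_of_ctl hb hf)
    (fun _ _ hb hf => D.tendsto_of_ctl hb hf)

/-- Global paths with constant control. -/
theorem GaugeData.exists_global [CompleteSpace V] [CompleteSpace 𝔤] [T2Space P] {Q : Set P}
    (D : GaugeData S Q) {u : 𝔤} (hQ : Preserves S Q u) {p : P} (hp : p ∈ Q) :
    ∃ f : ℝ → P, f 0 = p ∧ ∀ t, f t ∈ Q ∧ S.Ctl f u t := by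
  obtain ⟨Φ, hΦ⟩ := D.exists_isFlow hQ
  exact ⟨Φ p, hΦ.zero p hp, fun t => ⟨hΦ.mem p hp t, hΦ.ctl p hp t⟩⟩

end ParSpace

end Pool.Agent.Lib.MP_611141_gt
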