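import Pool.Agent.Lib.MP_611141_gt.ParSpace

/-!
Complete flows on an invariant set: group law, joint continuity, and differentiation of the flow
along a path.
-/

open Set Filter Metric
open scoped Topology

noncomputable section

namespace Pool.Agent.Lib.MP_611141_gt

namespace ParSpace

variable {P J V 𝔤 : Type*} [TopologicalSpace P] [NormedAddCommGroup V] [NormedSpace ℝ V]
    [NormedAddCommGroup 𝔤] [NormedSpace ℝ 𝔤] {S : ParSpace P J V 𝔤}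

/-- `Φ` is the flow of the constant control `u` on the invariant set `Q`. -/
structure IsFlow (S : ParSpace P J V 𝔤) (Q : Set P) (u : 𝔤) (Φ : P → ℝ → P) : Prop where
  zero : ∀ p ∈ Q, Φ p 0 = p
  mem : ∀ p ∈ Q, ∀ s, Φ p s ∈ Q
  ctl : ∀ p ∈ Q, ∀ s, S.Ctl (Φ p) u s

namespace IsFlow

variable {Q : Set P} {u : 𝔤} {Φ : P → ℝ → P}

theorem add [T2Space P] (h : IsFlow S Q u Φ) {p : P} (hp : p ∈ Q) (s t : ℝ) :
    Φ (Φ p s) t = Φ p (s + t) := by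
  have h1 : EqOn (Φ (Φ p s)) (fun r => Φ p (r + s)) univ := by
    refine ctl_unique (S := S) (u := u) isPreconnected_univ isOpen_univ
      (fun r _ => h.ctl _ (h.mem p hp s) r) (fun r _ => ?_) (mem_univ 0) ?_
    · exact Ctl.comp_add (h.ctl p hp (r + s))
    · simp [h.zero _ (h.mem p hp s)]
  have := h1 (mem_univ t)
  simpa [add_comm] using this

theorem smul (h : IsFlow S Q u Φ) (c : ℝ) : IsFlow S Q (c • u) (fun p s => Φ p (c * s)) where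
  zero p hp := by simpa using h.zero p hp
  mem p hp s := h.mem p hp _
  ctl p hp s := Ctl.comp_mul (h.ctl p hp _)

/-- Joint continuity of a complete flow. -/
theorem continuousOn [CompleteSpace V] [T2Space P] (h : IsFlow S Q u Φ) :
    ContinuousOn (fun q : P × ℝ => Φ q.1 q.2) (Q ×ˢ univ) := by
  rintro ⟨p₀, s₀⟩ ⟨hp₀, -⟩
  simp only at hp₀
  -- main step
  have key : ∀ (g : P) (N : Set P) (δ : ℝ) (Ψ : P × ℝ → P), N ∈ 𝓝 g → 0 < δ →
      ContinuousOn Ψ (N ×ˢ Ioo (-δ) δ) →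
      (∀ g ∈ N, Ψ (g, 0) = g ∧ ∀ t ∈ Ioo (-δ) δ, S.Ctl (fun s => Ψ (g, s)) u t) →
      ∀ s₁ s₂ : ℝ, Φ p₀ s₁ ∈ interior N → |s₂ - s₁| < δ →
      ContinuousWithinAt (fun q : P × ℝ => Φ q.1 q.2) (Q ×ˢ univ) (p₀, s₁) →
      ContinuousWithinAt (fun q : P × ℝ => Φ q.1 q.2) (Q ×ˢ univ) (p₀, s₂) := by
    intro g N δ Ψ hN hδ hΨ hΨ' s₁ s₂ hint hs hc
    have hs' : s₂ - s₁ ∈ Ioo (-δ) δ := abs_lt.1 hs
    have hfst : ContinuousWithinAt (fun q : P × ℝ => Φ q.1 s₁) (Q ×ˢ univ) (p₀, s₂) := by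
      have h1 : ContinuousWithinAt (fun q : P × ℝ => (q.1, s₁)) (Q ×ˢ univ) (p₀, s₂) :=
        (continuous_fst.prodMk continuous_const).continuousWithinAt
      exact ContinuousWithinAt.comp (f := fun q : P × ℝ => (q.1, s₁))
        (g := fun q : P × ℝ => Φ q.1 q.2) (t := Q ×ˢ univ) hc h1
        (fun q hq => ⟨hq.1, mem_univ _⟩)
    have hpair : ContinuousWithinAt (fun q : P × ℝ => (Φ q.1 s₁, q.2 - s₁)) (Q ×ˢ univ)
        (p₀, s₂) := hfst.prodMk (continuous_snd.sub continuous_const).continuousWithinAt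
    have hΨat : ContinuousAt Ψ (Φ p₀ s₁, s₂ - s₁) :=
      hΨ.continuousAt (prod_mem_nhds (mem_interior_iff_mem_nhds.1 hint)
        (Ioo_mem_nhds hs'.1 hs'.2))
    have hcomp : ContinuousWithinAt (fun q : P × ℝ => Ψ (Φ q.1 s₁, q.2 - s₁)) (Q ×ˢ univ)
        (p₀, s₂) := ContinuousAt.comp_continuousWithinAt
          (f := fun q : P × ℝ => (Φ q.1 s₁, q.2 - s₁)) hΨat hpair
    have heq : ∀ q : P × ℝ, q.1 ∈ Q → Φ q.1 s₁ ∈ N → q.2 - s₁ ∈ Ioo (-δ) δ →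
        Φ q.1 q.2 = Ψ (Φ q.1 s₁, q.2 - s₁) := by
      intro q hq hqN hqδ
      have h1 : EqOn (Φ (Φ q.1 s₁)) (fun r => Ψ (Φ q.1 s₁, r)) (Ioo (-δ) δ) := by
        refine ctl_unique (S := S) (u := u) isPreconnected_Ioo isOpen_Ioo
          (fun r _ => h.ctl _ (h.mem _ hq s₁) r) (hΨ' _ hqN).2
          (⟨by linarith, hδ⟩ : (0 : ℝ) ∈ Ioo (-δ) δ) ?_
        simp only [(hΨ' _ hqN).1, h.zero _ (h.mem _ hq s₁)]
      have h2 := h1 hqδ
      rw [h.add hq] at h2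
      simpa using h2
    refine hcomp.congr_of_eventuallyEq ?_ (heq (p₀, s₂) hp₀ (interior_subset hint) hs')
    have h1 : ∀ᶠ q in 𝓝[Q ×ˢ univ] (p₀, s₂), Φ q.1 s₁ ∈ N :=
      hfst (mem_interior_iff_mem_nhds.1 hint)
    have h2 : ∀ᶠ q : P × ℝ in 𝓝[Q ×ˢ univ] (p₀, s₂), q.2 - s₁ ∈ Ioo (-δ) δ := by
      refine (continuous_snd.sub continuous_const).continuousWithinAt ?_
      exact Ioo_mem_nhds hs'.1 hs'.2
    filter_upwards [h1, h2, self_mem_nhdsWithin] with q hq1 hq2 hq3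
    exact heq q hq3.1 hq1 hq2
  -- base point
  have h0 : ContinuousWithinAt (fun q : P × ℝ => Φ q.1 q.2) (Q ×ˢ univ) (p₀, 0) := by
    obtain ⟨N, hN, δ, hδ, Ψ, hΨ, hΨ'⟩ := local_flow S p₀ u
    have hΨat : ContinuousAt Ψ (p₀, 0) :=
      hΨ.continuousAt (prod_mem_nhds hN (Ioo_mem_nhds (by linarith) hδ))
    have heq : ∀ q : P × ℝ, q.1 ∈ Q → q.1 ∈ N → q.2 ∈ Ioo (-δ) δ → Φ q.1 q.2 = Ψ q := by
      intro q hq hqN hqδ
      have h1 : EqOn (Φ q.1) (fun r => Ψ (q.1, r)) (Ioo (-δ) δ) := by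
        refine ctl_unique (S := S) (u := u) isPreconnected_Ioo isOpen_Ioo
          (fun r _ => h.ctl _ hq r) (hΨ' _ hqN).2
          (⟨by linarith, hδ⟩ : (0 : ℝ) ∈ Ioo (-δ) δ) ?_
        simp only [(hΨ' _ hqN).1, h.zero _ hq]
      exact h1 hqδ
    refine hΨat.continuousWithinAt.congr_of_eventuallyEq ?_
      (heq (p₀, 0) hp₀ (mem_of_mem_nhds hN) ⟨by simpa using hδ, by simpa using hδ⟩)
    have h1 : ∀ᶠ q : P × ℝ in 𝓝[Q ×ˢ univ] (p₀, 0), q.1 ∈ N :=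
      continuous_fst.continuousWithinAt hN
    have h2 : ∀ᶠ q : P × ℝ in 𝓝[Q ×ˢ univ] (p₀, 0), q.2 ∈ Ioo (-δ) δ :=
      continuous_snd.continuousWithinAt (Ioo_mem_nhds (by simpa using hδ) (by simpa using hδ))
    filter_upwards [h1, h2, self_mem_nhdsWithin] with q hq1 hq2 hq3
    exact heq q hq3.1 hq1 hq2
  refine preconnected_induction isPreconnected_univ
    (fun s => ContinuousWithinAt (fun q : P × ℝ => Φ q.1 q.2) (Q ×ˢ univ) (p₀, s)) ?_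
    (mem_univ 0) (mem_univ s₀) h0
  intro t _
  rw [nhdsWithin_univ]
  obtain ⟨N, hN, δ, hδ, Ψ, hΨ, hΨ'⟩ := local_flow S (Φ p₀ t) u
  have h1 : ∀ᶠ s in 𝓝 t, Φ p₀ s ∈ interior N := by
    refine (h.ctl p₀ hp₀ t).1.eventually ?_
    exact isOpen_interior.mem_nhds (mem_interior_iff_mem_nhds.2 hN)
  have h2 : ∀ᶠ s in 𝓝 t, |s - t| < δ := by
    have : ∀ᶠ s in 𝓝 t, s ∈ ball t δ := ball_mem_nhds t hδ
    filter_upwards [this] with s hs
    rwa [mem_ball, Real.dist_eq] at hs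
  filter_upwards [h1, h2] with s hs1 hs2
  constructor
  · intro hc
    exact key _ N δ Ψ hN hδ hΨ hΨ' t s (mem_interior_iff_mem_nhds.2 hN) hs2 hc
  · intro hc
    exact key _ N δ Ψ hN hδ hΨ hΨ' s t hs1 (by rwa [abs_sub_comm]) hc

end IsFlow

/-- step induction on `[0, 1]` -/
theorem step_induction (Pr : ℝ → Prop) (h0 : Pr 0)
    (h : ∀ s ∈ Icc (0 : ℝ) 1, ∃ δ > (0 : ℝ), ∀ s₁ ∈ Icc (0 : ℝ) 1, ∀ s₂ ∈ Icc (0 : ℝ) 1,
      |s₁ - s| < δ → |s₂ - s| < δ → s₁ ≤ s₂ → Pr s₁ → Pr s₂) : Pr 1 := by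
  set A : Set ℝ := {s ∈ Icc (0 : ℝ) 1 | Pr s} with hA
  have hne : A.Nonempty := ⟨0, ⟨le_rfl, zero_le_one⟩, h0⟩
  have hbd : BddAbove A := ⟨1, fun s hs => hs.1.2⟩
  set m := sSup A with hm
  have hm1 : m ≤ 1 := csSup_le hne fun s hs => hs.1.2
  have hm0 : 0 ≤ m := le_csSup hbd ⟨⟨le_rfl, zero_le_one⟩, h0⟩
  obtain ⟨δ, hδ, hstep⟩ := h m ⟨hm0, hm1⟩
  obtain ⟨s₁, hs₁, hs₁'⟩ := exists_lt_of_lt_csSup hne (show m - δ < sSup A by linarith)
  have hs₁m : s₁ ≤ m := le_csSup hbd hs₁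
  set s₂ := min (m + δ / 2) 1 with hs₂
  have hs₂m : m ≤ s₂ := le_min (by linarith) hm1
  have hs₂1 : s₂ ≤ 1 := min_le_right _ _
  have hs₂' : s₂ ≤ m + δ / 2 := min_le_left _ _
  have hPr : Pr s₂ := by
    refine hstep s₁ hs₁.1 s₂ ⟨by linarith, hs₂1⟩ ?_ ?_ (by linarith) hs₁.2
    · rw [abs_lt]; constructor <;> linarith
    · rw [abs_lt]; constructor <;> linarith
  have h3 : s₂ ≤ m := le_csSup hbd ⟨⟨by linarith, hs₂1⟩, hPr⟩
  have h4 : s₂ = 1 := by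
    rcases min_choice (m + δ / 2) 1 with h5 | h5
    · rw [← hs₂] at h5
      linarith
    · exact h5
  rwa [h4] at hPr

end ParSpace

end Pool.Agent.Lib.MP_611141_gt
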