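import Pool.Agent.Lib.MP_611141_gt.Variation

/-!
The derivative of a complete flow along a controlled path.
-/

open Set Filter Metric Asymptotics
open scoped Topology

noncomputable section

namespace Pool.Agent.Lib.MP_611141_gt

namespace ParSpace

variable {P J V 𝔤 : Type*} [TopologicalSpace P] [NormedAddCommGroup V] [NormedSpace ℝ V]
    [NormedAddCommGroup 𝔤] [NormedSpace ℝ 𝔤] {S : ParSpace P J V 𝔤}

/-- The bracket relation on `Q`. -/
def Bracket (S : ParSpace P J V 𝔤) (Q : Set P) (Sb : P → 𝔤 →L[ℝ] 𝔤 →L[ℝ] 𝔤) : Prop :=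
  ∀ p ∈ Q, ∀ j, p ∈ (S.κ j).source → ∀ z u,
    fderiv ℝ (S.Y j) (S.κ j p) (S.Y j (S.κ j p) z) u
      - fderiv ℝ (S.Y j) (S.κ j p) (S.Y j (S.κ j p) u) z = S.Y j (S.κ j p) (Sb p z u)

/-- good balls in a chart -/
theorem exists_good_ball (j : J) {x₀ : V} (hx : x₀ ∈ (S.κ j).target) (u : 𝔤) :
    ∃ ρ > (0 : ℝ), ∃ L L₂ : ℝ, 1 ≤ L ∧ 0 ≤ L₂ ∧ ball x₀ ρ ⊆ (S.κ j).target ∧
      (∀ y ∈ ball x₀ ρ, HasFDerivAt (fun y => S.Y j y u) (fderiv ℝ (fun y => S.Y j y u) y) y) ∧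
      (∀ y ∈ ball x₀ ρ, ‖fderiv ℝ (fun y => S.Y j y u) y‖ ≤ L) ∧
      (∀ y ∈ ball x₀ ρ, ∀ y' ∈ ball x₀ ρ,
        ‖fderiv ℝ (fun y => S.Y j y u) y - fderiv ℝ (fun y => S.Y j y u) y'‖
          ≤ L₂ * ‖y - y'‖) := by
  have h2 := contDiffAt_Y (S := S) j hx u
  have h1 : ContDiffAt ℝ 1 (fderiv ℝ (fun y => S.Y j y u)) x₀ := h2.fderiv_right (by norm_num)
  obtain ⟨L₂, U, hU, hL₂⟩ := h1.exists_lipschitzOnWith
  obtain ⟨ρ, hρ, hball⟩ := Metric.mem_nhds_iff.1 (Filter.inter_mem hU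
    ((S.κ j).open_target.mem_nhds hx))
  set M := ‖fderiv ℝ (fun y => S.Y j y u) x₀‖ with hM
  refine ⟨ρ, hρ, max 1 (M + L₂ * ρ), L₂, le_max_left _ _, L₂.2, fun y hy => (hball hy).2,
    ?_, ?_, ?_⟩
  · intro y hy
    exact ((contDiffAt_Y_one (S := S) j (hball hy).2 u).differentiableAt (by norm_num)).hasFDerivAt
  · intro y hy
    refine le_trans ?_ (le_max_right _ _)
    have h3 := hL₂.norm_sub_le (hball hy).1 (hball (mem_ball_self hρ)).1
    have h4 : ‖y - x₀‖ ≤ ρ := by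
      rw [← dist_eq_norm]
      exact (mem_ball.1 hy).le
    calc ‖fderiv ℝ (fun y => S.Y j y u) y‖
        ≤ ‖fderiv ℝ (fun y => S.Y j y u) y - fderiv ℝ (fun y => S.Y j y u) x₀‖ + M := by
          rw [hM]; exact norm_le_norm_sub_add _ _
      _ ≤ L₂ * ‖y - x₀‖ + M := by gcongr
      _ ≤ M + L₂ * ρ := by
          rw [add_comm]
          gcongr
  · intro y hy y' hy'
    exact hL₂.norm_sub_le (hball hy).1 (hball hy').1

theorem fderiv_Y_apply (j : J) {x : V} (hx : x ∈ (S.κ j).target) (u : 𝔤) (v : V) :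
    fderiv ℝ (fun y => S.Y j y u) x v = fderiv ℝ (S.Y j) x v u := by
  have h1 : DifferentiableAt ℝ (S.Y j) x :=
    ((S.smooth j).contDiffAt ((S.κ j).open_target.mem_nhds hx)).differentiableAt (by norm_num)
  rw [fderiv_clm_apply h1 (differentiableAt_const u)]
  simp

variable {Q : Set P} {u : 𝔤} {Φ : P → ℝ → P} {Sb : P → 𝔤 →L[ℝ] 𝔤 →L[ℝ] 𝔤}

/-- Derivative of the time one flow along a path. -/
theorem ctl_flow_one [CompleteSpace V] [T2Space P] (h : IsFlow S Q u Φ) (hb : Bracket S Q Sb)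
    {f : ℝ → P} {z : 𝔤} {t₀ : ℝ} (hf : S.Ctl f z t₀) (hfQ : ∀ᶠ t in 𝓝 t₀, f t ∈ Q)
    {Z : ℝ → 𝔤} (hZ0 : Z 0 = z)
    (hZ : ∀ s ∈ Icc (0 : ℝ) 1, HasDerivWithinAt Z (Sb (Φ (f t₀) s) (Z s) u) (Icc 0 1) s) :
    S.Ctl (fun t => Φ (f t) 1) (Z 1) t₀ := by
  have hQ0 : f t₀ ∈ Q := hfQ.self_of_nhds
  have hcont : ∀ s : ℝ, Tendsto (fun q : ℝ × ℝ => Φ (f q.1) q.2) (𝓝 (t₀, s))
      (𝓝 (Φ (f t₀) s)) := by
    intro s
    have h1 := h.continuousOn (f t₀, s) ⟨hQ0, mem_univ _⟩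
    have h2 : Tendsto (fun q : ℝ × ℝ => (f q.1, q.2)) (𝓝 (t₀, s))
        (𝓝[Q ×ˢ univ] (f t₀, s)) := by
      refine tendsto_nhdsWithin_iff.2 ⟨?_, ?_⟩
      · have h3 : ContinuousAt (fun q : ℝ × ℝ => (f q.1, q.2)) (t₀, s) :=
          (ContinuousAt.comp (f := fun q : ℝ × ℝ => q.1) hf.1 continuousAt_fst).prodMk
            continuousAt_snd
        exact h3
      · have h3 : ∀ᶠ q : ℝ × ℝ in 𝓝 (t₀, s), f q.1 ∈ Q :=
          (continuousAt_fst (p := ((t₀, s) : ℝ × ℝ))).eventually hfQ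
        filter_upwards [h3] with q hq
        exact ⟨hq, mem_univ _⟩
    exact h1.tendsto.comp h2
  refine step_induction (fun s => S.Ctl (fun t => Φ (f t) s) (Z s) t₀) ?_ ?_
  · refine (hZ0 ▸ hf).congr ?_
    filter_upwards [hfQ] with t ht
    rw [h.zero _ ht]
  · intro s hs
    obtain ⟨j, hj⟩ := S.cover (Φ (f t₀) s)
    have hx := (S.κ j).map_source hj
    obtain ⟨ρ, hρ, L, L₂, hL1, hL0, hsub, hX, hL, hL₂⟩ := exists_good_ball (S := S) j hx u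
    -- the window
    have hwin : ∀ᶠ q : ℝ × ℝ in 𝓝 (t₀, s), f q.1 ∈ Q ∧ Φ (f q.1) q.2 ∈ (S.κ j).source ∧
        S.κ j (Φ (f q.1) q.2) ∈ ball (S.κ j (Φ (f t₀) s)) ρ := by
      have h1 : ∀ᶠ q : ℝ × ℝ in 𝓝 (t₀, s), f q.1 ∈ Q :=
        (continuousAt_fst (p := ((t₀, s) : ℝ × ℝ))).eventually hfQ
      have h2 := (hcont s).eventually ((S.κ j).open_source.mem_nhds hj)
      have h3 := (hcont s).eventually ((S.κ j).continuousAt hj (ball_mem_nhds _ hρ))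
      filter_upwards [h1, h2, h3] with q hq1 hq2 hq3
      exact ⟨hq1, hq2, hq3⟩
    rw [nhds_prod_eq, Filter.eventually_prod_iff] at hwin
    obtain ⟨p₁, hp₁, p₂, hp₂, hp⟩ := hwin
    obtain ⟨δ, hδ, hδ'⟩ := Metric.mem_nhds_iff.1 hp₂
    refine ⟨δ, hδ, fun s₁ hs₁ s₂ hs₂ hd₁ hd₂ h12 hPr => ?_⟩
    have hwin2 : ∀ r ∈ Icc s₁ s₂, p₂ r := by
      intro r hr
      apply hδ'
      rw [mem_ball, Real.dist_eq, abs_lt]
      rw [abs_lt] at hd₁ hd₂
      constructor <;> linarith [hr.1, hr.2, hd₁.1, hd₁.2, hd₂.1, hd₂.2]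
    have hp₁0 : p₁ t₀ := hp₁.self_of_nhds
    have hIcc : Icc s₁ s₂ ⊆ Icc (0 : ℝ) 1 := Icc_subset_Icc hs₁.1 hs₂.2
    have hsrc₁ : Φ (f t₀) s₁ ∈ (S.κ j).source := (hp hp₁0 (hwin2 s₁ (left_mem_Icc.2 h12))).2.1
    have hsrc₂ : Φ (f t₀) s₂ ∈ (S.κ j).source := (hp hp₁0 (hwin2 s₂ (right_mem_Icc.2 h12))).2.1
    -- the family
    have hfam : ∀ t, p₁ t → ∀ r ∈ Icc s₁ s₂, S.κ j (Φ (f t) r) ∈ ball (S.κ j (Φ (f t₀) s)) ρ ∧
        HasDerivAt (fun r => S.κ j (Φ (f t) r)) (S.Y j (S.κ j (Φ (f t) r)) u) r := by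
      intro t ht r hr
      have h1 := hp ht (hwin2 r hr)
      exact ⟨h1.2.2, (h.ctl _ h1.1 r).2 j h1.2.1⟩
    have hξd : ∀ r ∈ Icc s₁ s₂, HasDerivWithinAt (fun r => S.Y j (S.κ j (Φ (f t₀) r)) (Z r))
        (fderiv ℝ (fun y => S.Y j y u) (S.κ j (Φ (f t₀) r))
          (S.Y j (S.κ j (Φ (f t₀) r)) (Z r))) (Icc 0 1) r := by
      intro r hr
      have hsrc : Φ (f t₀) r ∈ (S.κ j).source := (hp hp₁0 (hwin2 r hr)).2.1
      have htar : S.κ j (Φ (f t₀) r) ∈ (S.κ j).target := (S.κ j).map_source hsrc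
      have hYd : HasFDerivAt (S.Y j) (fderiv ℝ (S.Y j) (S.κ j (Φ (f t₀) r)))
          (S.κ j (Φ (f t₀) r)) :=
        (((S.smooth j).contDiffAt ((S.κ j).open_target.mem_nhds htar)).differentiableAt
          (by norm_num)).hasFDerivAt
      have h1 : HasDerivAt (fun r => S.Y j (S.κ j (Φ (f t₀) r)))
          (fderiv ℝ (S.Y j) (S.κ j (Φ (f t₀) r)) (S.Y j (S.κ j (Φ (f t₀) r)) u)) r :=
        hYd.comp_hasDerivAt r (hfam t₀ hp₁0 r hr).2
      have h2 := h1.hasDerivWithinAt.clm_apply (hZ r (hIcc hr))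
      have h3 := hb (Φ (f t₀) r) (h.mem _ hQ0 r) j hsrc (Z r) u
      rw [fderiv_Y_apply j htar]
      rw [← h3] at h2
      convert h2 using 1
      abel
    have hmain := hasDerivAt_family (X := fun y => S.Y j y u)
      (X' := fderiv ℝ (fun y => S.Y j y u)) (x₀ := S.κ j (Φ (f t₀) s)) (ρ := ρ) (L := L)
      (L₂ := L₂) hX hL hL₂ hL1 hL0 (x := fun t r => S.κ j (Φ (f t) r))
      (ξ := fun r => S.Y j (S.κ j (Φ (f t₀) r)) (Z r)) (t₀ := t₀) h12
      (by linarith [hs₁.1, hs₂.2]) (hp₁.mono fun t ht => hfam t ht)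
      (fun r hr => ((hξd r hr).continuousWithinAt).mono hIcc)
      (fun r hr => by
        have hr' := Ico_subset_Icc_self hr
        refine (hξd r hr').mono_of_mem_nhdsWithin ?_
        have : r < 1 := lt_of_lt_of_le hr.2 hs₂.2
        have h0r : 0 ≤ r := hs₁.1.trans hr.1
        exact Filter.mem_of_superset (Ico_mem_nhdsGE this)
          fun y hy => ⟨h0r.trans hy.1, hy.2.le⟩)
      (hPr.2 j hsrc₁)
    refine Ctl.of_chart (i := j) ?_ hsrc₂ hmain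
    have h4 := hcont s₂
    have h5 : Tendsto (fun t : ℝ => (t, s₂)) (𝓝 t₀) (𝓝 (t₀, s₂)) :=
      (continuous_id.prodMk continuous_const).continuousAt
    exact h4.comp h5

/-- joint continuity along a path -/
theorem tendsto_flow_path [CompleteSpace V] [T2Space P] (h : IsFlow S Q u Φ)
    {f : ℝ → P} {t₀ : ℝ} (hf : ContinuousAt f t₀) (hfQ : ∀ᶠ t in 𝓝 t₀, f t ∈ Q) (s : ℝ) :
    ContinuousAt (fun q : ℝ × ℝ => Φ (f q.1) q.2) (t₀, s) := by
  have hQ0 : f t₀ ∈ Q := hfQ.self_of_nhds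
  have h1 := h.continuousOn (f t₀, s) ⟨hQ0, mem_univ _⟩
  have h2 : Tendsto (fun q : ℝ × ℝ => (f q.1, q.2)) (𝓝 (t₀, s))
      (𝓝[Q ×ˢ univ] (f t₀, s)) := by
    refine tendsto_nhdsWithin_iff.2 ⟨?_, ?_⟩
    · have h3 : ContinuousAt (fun q : ℝ × ℝ => (f q.1, q.2)) (t₀, s) :=
        (ContinuousAt.comp (f := fun q : ℝ × ℝ => q.1) hf continuousAt_fst).prodMk
          continuousAt_snd
      exact h3
    · have h3 : ∀ᶠ q : ℝ × ℝ in 𝓝 (t₀, s), f q.1 ∈ Q :=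
        (continuousAt_fst (p := ((t₀, s) : ℝ × ℝ))).eventually hfQ
      filter_upwards [h3] with q hq
      exact ⟨hq, mem_univ _⟩
  exact h1.tendsto.comp h2

/-- Derivative of the flow with variable time, at time zero. -/
theorem ctl_flow_var_zero [CompleteSpace V] [T2Space P] (h : IsFlow S Q u Φ)
    {g : ℝ → P} {z : 𝔤} {t₀ : ℝ} (hg : S.Ctl g z t₀) (hgQ : ∀ᶠ t in 𝓝 t₀, g t ∈ Q)
    {b : ℝ → ℝ} {b' : ℝ} (hb0 : b t₀ = 0) (hb : HasDerivAt b b' t₀) :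
    S.Ctl (fun t => Φ (g t) (b t)) (z + b' • u) t₀ := by
  have hQ0 : g t₀ ∈ Q := hgQ.self_of_nhds
  have hcont := tendsto_flow_path h hg.1 hgQ 0
  have hval : Φ (g t₀) 0 = g t₀ := h.zero _ hQ0
  obtain ⟨j, hj⟩ := S.cover (g t₀)
  have hx := (S.κ j).map_source hj
  have hbc : Tendsto (fun t => (t, b t)) (𝓝 t₀) (𝓝 (t₀, (0 : ℝ))) := by
    have : ContinuousAt (fun t => (t, b t)) t₀ := continuousAt_id.prodMk hb.continuousAt
    rw [← hb0]
    exact this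
  have hcontb : ContinuousAt (fun t => Φ (g t) (b t)) t₀ := by
    have := hcont.tendsto.comp hbc
    simp only at this
    have h2 : Φ (g t₀) 0 = Φ (g t₀) (b t₀) := by rw [hb0]
    rw [h2] at this
    exact this
  have hsrc : Φ (g t₀) (b t₀) ∈ (S.κ j).source := by rw [hb0, hval]; exact hj
  refine Ctl.of_chart (i := j) hcontb hsrc ?_
  rw [hb0, hval]
  set X₀ : V := S.Y j (S.κ j (g t₀)) u with hX₀
  -- the remainder is small
  have hrem : (fun t => S.κ j (Φ (g t) (b t)) - S.κ j (g t) - b t • X₀) =o[𝓝 t₀]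
      fun t => t - t₀ := by
    have hO : b =O[𝓝 t₀] fun t => t - t₀ := by
      have := hb.isBigO_sub
      simpa [hb0] using this
    refine IsLittleO.trans_isBigO ?_ hO
    rw [isLittleO_iff]
    intro ε hε
    have hXc : ContinuousAt (fun y => S.Y j y u) (S.κ j (g t₀)) :=
      (contDiffAt_Y_one (S := S) j hx u).continuousAt
    have hwin : ∀ᶠ q : ℝ × ℝ in 𝓝 (t₀, 0), g q.1 ∈ Q ∧ Φ (g q.1) q.2 ∈ (S.κ j).source ∧
        ‖S.Y j (S.κ j (Φ (g q.1) q.2)) u - X₀‖ ≤ ε := by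
      have h1 : ∀ᶠ q : ℝ × ℝ in 𝓝 (t₀, 0), g q.1 ∈ Q :=
        (continuousAt_fst (p := ((t₀, 0) : ℝ × ℝ))).eventually hgQ
      have h2 := hcont.eventually ((S.κ j).open_source.mem_nhds (by simpa [hval] using hj))
      have h3 : ContinuousAt (fun q : ℝ × ℝ => S.Y j (S.κ j (Φ (g q.1) q.2)) u) (t₀, 0) := by
        have h4 : ContinuousAt (fun q : ℝ × ℝ => S.κ j (Φ (g q.1) q.2)) (t₀, 0) := by
          refine ContinuousAt.comp (f := fun q : ℝ × ℝ => Φ (g q.1) q.2) ?_ hcont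
          simp only [hval]
          exact (S.κ j).continuousAt hj
        refine ContinuousAt.comp (f := fun q : ℝ × ℝ => S.κ j (Φ (g q.1) q.2))
          (g := fun y => S.Y j y u) ?_ h4
        simp only [hval]
        exact hXc
      have h4 : ∀ᶠ q : ℝ × ℝ in 𝓝 (t₀, 0),
          dist (S.Y j (S.κ j (Φ (g q.1) q.2)) u) (S.Y j (S.κ j (Φ (g t₀) 0)) u) < ε :=
        Metric.continuousAt_iff'.1 h3 ε hε
      filter_upwards [h1, h2, h4] with q hq1 hq2 hq3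
      refine ⟨hq1, hq2, ?_⟩
      rw [← dist_eq_norm, hX₀]
      rw [hval] at hq3
      exact hq3.le
    rw [nhds_prod_eq, Filter.eventually_prod_iff] at hwin
    obtain ⟨p₁, hp₁, p₂, hp₂, hp⟩ := hwin
    obtain ⟨δ, hδ, hδ'⟩ := Metric.mem_nhds_iff.1 hp₂
    have hbδ : ∀ᶠ t in 𝓝 t₀, |b t| < δ := by
      have := Metric.continuousAt_iff'.1 hb.continuousAt δ hδ
      filter_upwards [this] with t ht
      rwa [hb0, Real.dist_eq, sub_zero] at ht
    filter_upwards [hp₁, hbδ] with t ht htδ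
    have hall : ∀ s ∈ uIcc 0 (b t), g t ∈ Q ∧ Φ (g t) s ∈ (S.κ j).source ∧
        ‖S.Y j (S.κ j (Φ (g t) s)) u - X₀‖ ≤ ε := by
      intro s hs
      refine hp ht (hδ' ?_)
      rw [mem_ball, Real.dist_eq, sub_zero]
      have : |s - 0| ≤ |b t - 0| := abs_sub_left_of_mem_uIcc hs
      rw [sub_zero, sub_zero] at this
      linarith
    have hgt : Φ (g t) 0 = g t := h.zero _ (hall 0 left_mem_uIcc).1
    have hmv := (convex_uIcc (0 : ℝ) (b t)).norm_image_sub_le_of_norm_hasDerivWithin_le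
      (f := fun s => S.κ j (Φ (g t) s) - s • X₀)
      (f' := fun s => S.Y j (S.κ j (Φ (g t) s)) u - X₀) (C := ε) (x := 0) (y := b t)
      (fun s hs => by
        have h1 := (h.ctl _ (hall s hs).1 s).2 j (hall s hs).2.1
        have h2 : HasDerivAt (fun s : ℝ => s • X₀) X₀ s := by
          simpa using (hasDerivAt_id s).smul_const X₀
        exact (h1.sub h2).hasDerivWithinAt)
      (fun s hs => (hall s hs).2.2) left_mem_uIcc right_mem_uIcc
    simp only [zero_smul, sub_zero, hgt] at hmv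
    have e1 : S.κ j (Φ (g t) (b t)) - S.κ j (g t) - b t • X₀
        = S.κ j (Φ (g t) (b t)) - b t • X₀ - S.κ j (g t) := by abel
    rw [e1]
    exact hmv
  have h1 := hg.2 j hj
  have h2 : HasDerivAt (fun t => b t • X₀) (b' • X₀) t₀ := hb.smul_const X₀
  have h3 : HasDerivAt (fun t => S.κ j (Φ (g t) (b t)) - S.κ j (g t) - b t • X₀) 0 t₀ := by
    rw [hasDerivAt_iff_isLittleO]
    refine hrem.congr_left ?_
    intro t
    rw [hb0, hval, zero_smul, smul_zero, sub_zero, sub_zero, sub_self, sub_zero]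
  have h4 := (h3.add h1).add h2
  rw [map_add, map_smul]
  convert h4 using 1
  · funext t
    simp only [Pi.add_apply]
    abel
  · rw [zero_add]

end ParSpace

end Pool.Agent.Lib.MP_611141_gt
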