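import Mathlib
import Pool.Agent.Lib.MP_611141_gt.Chart

set_option autoImplicit false
set_option maxSynthPendingDepth 3

/-!
# The vector fields on the frame bundle, in a chart
-/

namespace Pool.Agent.Lib.MP_611141_gt

open scoped Topology ContDiff Manifold
open Function Set

noncomputable section

variable {E : Type*} [NormedAddCommGroup E] [NormedSpace ℝ E]

/-- Exchange of the two arguments of a bilinear form. -/
def flipCLM : (E →L[ℝ] E →L[ℝ] ℝ) →L[ℝ] (E →L[ℝ] E →L[ℝ] ℝ) :=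
  (ContinuousLinearMap.flipₗᵢ ℝ E E ℝ).toContinuousLinearEquiv.toContinuousLinearMap

@[simp] lemma flipCLM_apply (b : E →L[ℝ] E →L[ℝ] ℝ) (u v : E) : flipCLM b u v = b v u := rfl

/-- The Christoffel symbols as a continuous bilinear map. -/
def chrCLM (G : E → E →L[ℝ] E →L[ℝ] ℝ) (y : E) : E →L[ℝ] E →L[ℝ] E :=
  (ContinuousLinearMap.compL ℝ E (E →L[ℝ] ℝ) E (G y).inverse).comp
    ((1 / 2 : ℝ) • (fderiv ℝ G y + (fderiv ℝ G y).flip - flipCLM.comp (fderiv ℝ G y).flip))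

lemma chrCLM_apply (G : E → E →L[ℝ] E →L[ℝ] ℝ) (y u v : E) :
    chrCLM G y u v = christoffel G y u v := by
  simp only [chrCLM, christoffel, ContinuousLinearMap.comp_apply,
    ContinuousLinearMap.compL_apply]
  rfl

/-- The linear family of vector fields on the bundle of frames, in a chart with Christoffel symbols
`Γ`: the frame `(y, Φ)` moves with velocity `Φ j`, and in the time derivative of `Φ` the vertical
part is `Φ ∘ ϖ`. -/
def frameField (Γ : E → E →L[ℝ] E →L[ℝ] E) (p : E × (E →L[ℝ] E)) :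
    (E × (E →L[ℝ] E)) →L[ℝ] (E × (E →L[ℝ] E)) :=
  (p.2.comp (ContinuousLinearMap.fst ℝ E (E →L[ℝ] E))).prod
    ((ContinuousLinearMap.compL ℝ E E E p.2).comp (ContinuousLinearMap.snd ℝ E (E →L[ℝ] E))
      - (((ContinuousLinearMap.compL ℝ E E E).flip p.2).comp ((Γ p.1).comp p.2)).comp
        (ContinuousLinearMap.fst ℝ E (E →L[ℝ] E)))

lemma frameField_apply (Γ : E → E →L[ℝ] E →L[ℝ] E) (p z : E × (E →L[ℝ] E)) :
    frameField Γ p z = (p.2 z.1, p.2.comp z.2 - (Γ p.1 (p.2 z.1)).comp p.2) := rfl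

/-- The change of coordinates of the frame bundle. -/
def liftT (τ : E → E) (p : E × (E →L[ℝ] E)) : E × (E →L[ℝ] E) :=
  (τ p.1, (fderiv ℝ τ p.1).comp p.2)

/-- Its derivative. -/
def liftTDeriv (τ : E → E) (p : E × (E →L[ℝ] E)) : (E × (E →L[ℝ] E)) →L[ℝ] (E × (E →L[ℝ] E)) :=
  ((fderiv ℝ τ p.1).comp (ContinuousLinearMap.fst ℝ E (E →L[ℝ] E))).prod
    (((ContinuousLinearMap.compL ℝ E E E).flip p.2).comp ((fderiv ℝ (fderiv ℝ τ) p.1).comp
        (ContinuousLinearMap.fst ℝ E (E →L[ℝ] E)))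
      + (ContinuousLinearMap.compL ℝ E E E (fderiv ℝ τ p.1)).comp
        (ContinuousLinearMap.snd ℝ E (E →L[ℝ] E)))

lemma liftTDeriv_apply (τ : E → E) (p q : E × (E →L[ℝ] E)) :
    liftTDeriv τ p q = (fderiv ℝ τ p.1 q.1,
      (fderiv ℝ (fderiv ℝ τ) p.1 q.1).comp p.2 + (fderiv ℝ τ p.1).comp q.2) := rfl

lemma hasFDerivAt_liftT {τ : E → E} {p : E × (E →L[ℝ] E)} (hτ : ContDiffAt ℝ ∞ τ p.1) :
    HasFDerivAt (liftT τ) (liftTDeriv τ p) p := by
  have h1 : HasFDerivAt τ (fderiv ℝ τ p.1) p.1 := (hτ.differentiableAt (by simp)).hasFDerivAt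
  have h2 : HasFDerivAt (fderiv ℝ τ) (fderiv ℝ (fderiv ℝ τ) p.1) p.1 :=
    ((contDiffAt_fderiv hτ).differentiableAt (by simp)).hasFDerivAt
  have h3 : HasFDerivAt (fun q : E × (E →L[ℝ] E) => τ q.1) ((fderiv ℝ τ p.1).comp
      (ContinuousLinearMap.fst ℝ E (E →L[ℝ] E))) p := h1.comp p hasFDerivAt_fst
  have h4 : HasFDerivAt (fun q : E × (E →L[ℝ] E) => fderiv ℝ τ q.1)
      ((fderiv ℝ (fderiv ℝ τ) p.1).comp (ContinuousLinearMap.fst ℝ E (E →L[ℝ] E))) p :=
    h2.comp p hasFDerivAt_fst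
  have h5 := h3.prodMk (h4.clm_comp (hasFDerivAt_snd (p := p)))
  refine h5.congr_fderiv ?_
  ext q <;> simp [liftTDeriv]

/-- Naturality of the vector fields. -/
lemma frameField_natural {τ : E → E} {Γ Γ' : E → E →L[ℝ] E →L[ℝ] E} {p : E × (E →L[ℝ] E)}
    (hrel : ∀ u v, Γ' (τ p.1) (fderiv ℝ τ p.1 u) (fderiv ℝ τ p.1 v)
      = fderiv ℝ τ p.1 (Γ p.1 u v) - fderiv ℝ (fderiv ℝ τ) p.1 u v) (z : E × (E →L[ℝ] E)) :
    liftTDeriv τ p (frameField Γ p z) = frameField Γ' (liftT τ p) z := by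
  rw [frameField_apply, frameField_apply, liftTDeriv_apply]
  refine Prod.ext rfl ?_
  ext u
  simp only [liftT, ContinuousLinearMap.comp_apply, add_apply, sub_apply, map_sub]
  rw [hrel]
  abel

lemma contDiffAt_frameField {Γ : E → E →L[ℝ] E →L[ℝ] E}
    {p : E × (E →L[ℝ] E)} (hΓ : ContDiffAt ℝ ∞ Γ p.1) : ContDiffAt ℝ ∞ (frameField Γ) p := by
  have h1 : ContDiffAt ℝ ∞ (fun q : E × (E →L[ℝ] E) =>
      q.2.comp (ContinuousLinearMap.fst ℝ E (E →L[ℝ] E))) p :=
    contDiffAt_snd.clm_comp contDiffAt_const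
  have h2 : ContDiffAt ℝ ∞ (fun q : E × (E →L[ℝ] E) =>
      (ContinuousLinearMap.compL ℝ E E E q.2).comp
        (ContinuousLinearMap.snd ℝ E (E →L[ℝ] E))) p := by
    have : ContDiffAt ℝ ∞ (fun q : E × (E →L[ℝ] E) => ContinuousLinearMap.compL ℝ E E E q.2) p :=
      (ContinuousLinearMap.compL ℝ E E E).contDiff.contDiffAt.comp p contDiffAt_snd
    exact this.clm_comp contDiffAt_const
  have h3 : ContDiffAt ℝ ∞ (fun q : E × (E →L[ℝ] E) => Γ q.1) p :=
    hΓ.comp p contDiffAt_fst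
  have h4 : ContDiffAt ℝ ∞ (fun q : E × (E →L[ℝ] E) =>
      (((ContinuousLinearMap.compL ℝ E E E).flip q.2).comp ((Γ q.1).comp q.2)).comp
        (ContinuousLinearMap.fst ℝ E (E →L[ℝ] E))) p := by
    have : ContDiffAt ℝ ∞ (fun q : E × (E →L[ℝ] E) =>
        (ContinuousLinearMap.compL ℝ E E E).flip q.2) p :=
      (ContinuousLinearMap.compL ℝ E E E).flip.contDiff.contDiffAt.comp p contDiffAt_snd
    exact (this.clm_comp (h3.clm_comp contDiffAt_snd)).clm_comp contDiffAt_const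
  have h5 := h1.prodMk (h2.sub h4)
  have h6 : ContDiff ℝ ∞ (fun q : (E × (E →L[ℝ] E) →L[ℝ] E) × (E × (E →L[ℝ] E) →L[ℝ] (E →L[ℝ] E))
      => q.1.prod q.2) :=
    (ContinuousLinearMap.prodₗᵢ ℝ (𝕜 := ℝ) (E := E × (E →L[ℝ] E)) (F := E)
      (G := E →L[ℝ] E)).toContinuousLinearEquiv.contDiff
  exact h6.contDiffAt.comp p h5

/-- The derivative of the vector fields. -/
lemma fderiv_frameField {Γ : E → E →L[ℝ] E →L[ℝ] E} {p : E × (E →L[ℝ] E)}
    (hΓ : ContDiffAt ℝ ∞ Γ p.1) (q w : E × (E →L[ℝ] E)) :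
    fderiv ℝ (frameField Γ) p q w = (q.2 w.1, q.2.comp w.2
      - ((fderiv ℝ Γ p.1 q.1 (p.2 w.1)).comp p.2 + (Γ p.1 (q.2 w.1)).comp p.2
        + (Γ p.1 (p.2 w.1)).comp q.2)) := by
  have h0 : HasFDerivAt (frameField Γ) (fderiv ℝ (frameField Γ) p) p :=
    ((contDiffAt_frameField hΓ).differentiableAt (by simp)).hasFDerivAt
  have h1 := h0.clm_apply (hasFDerivAt_const w p)
  have h2 : HasFDerivAt (fun q : E × (E →L[ℝ] E) => Γ q.1) ((fderiv ℝ Γ p.1).comp
      (ContinuousLinearMap.fst ℝ E (E →L[ℝ] E))) p :=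
    ((hΓ.differentiableAt (by simp)).hasFDerivAt).comp p hasFDerivAt_fst
  have h3 : HasFDerivAt (fun q : E × (E →L[ℝ] E) => q.2 w.1)
      ((ContinuousLinearMap.apply ℝ E w.1).comp (ContinuousLinearMap.snd ℝ E (E →L[ℝ] E))) p := by
    have := (hasFDerivAt_snd (𝕜 := ℝ) (p := p)).clm_apply (hasFDerivAt_const w.1 p)
    refine this.congr_fderiv ?_
    ext <;> simp
  have h4 := (h2.clm_apply h3).clm_comp (hasFDerivAt_snd (𝕜 := ℝ) (p := p))
  have h5 := (hasFDerivAt_snd (𝕜 := ℝ) (p := p)).clm_comp (hasFDerivAt_const w.2 p)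
  have h6 := h3.prodMk (h5.sub h4)
  have h7 := congrArg (fun L => L q) (h1.unique h6)
  simp at h7
  rw [h7]
  refine Prod.ext rfl ?_
  ext u
  simp
  abel

/-- The bracket relation of the vector fields on the frame bundle. -/
lemma frameField_bracket {Γ : E → E →L[ℝ] E →L[ℝ] E} {p : E × (E →L[ℝ] E)}
    (hΓ : ContDiffAt ℝ ∞ Γ p.1) (hsymm : ∀ u v, Γ p.1 u v = Γ p.1 v u)
    (z w : E × (E →L[ℝ] E)) (Rf : E →L[ℝ] E)
    (hRf : ∀ u, p.2 (Rf u)
      = curvature (fun y u v => Γ y u v) p.1 (p.2 z.1) (p.2 w.1) (p.2 u)) :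
    frameField Γ p (w.2 z.1 - z.2 w.1, w.2.comp z.2 - z.2.comp w.2 + Rf)
      = fderiv ℝ (frameField Γ) p (frameField Γ p w) z
        - fderiv ℝ (frameField Γ) p (frameField Γ p z) w := by
  have hd : ∀ a b c, fderiv ℝ (fun y => Γ y b c) p.1 a = fderiv ℝ Γ p.1 a b c := by
    intro a b c
    have h1 := ((hΓ.differentiableAt (by simp)).hasFDerivAt).clm_apply
      (hasFDerivAt_const b p.1)
    have h2 := h1.clm_apply (hasFDerivAt_const c p.1)
    rw [h2.fderiv]
    simp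
  rw [fderiv_frameField hΓ, fderiv_frameField hΓ]
  simp only [frameField_apply]
  refine Prod.ext ?_ ?_
  · simp only [map_sub, sub_apply, ContinuousLinearMap.comp_apply, Prod.fst_sub]
    rw [hsymm (p.2 w.1) (p.2 z.1)]
    abel
  · ext u
    have h := hRf u
    unfold curvature at h
    simp only [hd] at h
    simp only [map_sub, map_add, sub_apply, add_apply, ContinuousLinearMap.comp_apply,
      Prod.snd_sub, h]
    rw [hsymm (p.2 w.1) (p.2 z.1)]
    abel

namespace IsMetricOn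

variable {U : Set E} {G : E → E →L[ℝ] E →L[ℝ] ℝ}

lemma contDiffAt_chrCLM [FiniteDimensional ℝ E] (hG : IsMetricOn U G) {y : E} (hy : y ∈ U) :
    ContDiffAt ℝ ∞ (chrCLM G) y := by
  have h1 : ContDiffAt ℝ ∞ (fun y => (G y).inverse) y :=
    ((hG.isInvertible hy).contDiffAt_map_inverse (n := ∞)).comp y (hG.smooth y hy)
  have h2 : ContDiffAt ℝ ∞ (fun y => ContinuousLinearMap.compL ℝ E (E →L[ℝ] ℝ) E (G y).inverse)
      y := (ContinuousLinearMap.compL ℝ E (E →L[ℝ] ℝ) E).contDiff.contDiffAt.comp y h1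
  have h3 : ContDiffAt ℝ ∞ (fderiv ℝ G) y := contDiffAt_fderiv (hG.smooth y hy)
  have hflip : ContDiff ℝ ∞ (fun L : E →L[ℝ] E →L[ℝ] E →L[ℝ] ℝ => L.flip) :=
    (ContinuousLinearMap.flipₗᵢ ℝ E E (E →L[ℝ] ℝ)).toContinuousLinearEquiv.contDiff
  have h4 : ContDiffAt ℝ ∞ (fun y => (fderiv ℝ G y).flip) y := hflip.contDiffAt.comp y h3
  exact h2.clm_comp (((h3.add h4).sub (contDiffAt_const.clm_comp h4)).const_smul _)

/-- The curvature endomorphisms are skew with respect to the metric. -/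
theorem curvature_skew [FiniteDimensional ℝ E] (hU : IsOpen U) (hG : IsMetricOn U G) {y : E}
    (hy : y ∈ U) (a b w z : E) :
    G y (curvature (christoffel G) y a b w) z = - G y w (curvature (christoffel G) y a b z) := by
  have hΓ := hG.isConnectionOn hU
  have hd : HasFDerivAt G (fderiv ℝ G y) y :=
    ((hG.smooth y hy).differentiableAt (by simp)).hasFDerivAt
  have hd2 : HasFDerivAt (fderiv ℝ G) (fderiv ℝ (fderiv ℝ G) y) y :=
    ((contDiffAt_fderiv (hG.smooth y hy)).differentiableAt (by simp)).hasFDerivAt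
  have h2inf : minSmoothness ℝ 2 ≤ (∞ : WithTop ℕ∞) := by
    rw [minSmoothness_of_isRCLikeNormedField]
    exact WithTop.coe_le_coe.2 (le_top : (2 : ℕ∞) ≤ ⊤)
  have hsymm2 : fderiv ℝ (fderiv ℝ G) y a b = fderiv ℝ (fderiv ℝ G) y b a :=
    ((hG.smooth y hy).isSymmSndFDerivAt h2inf).eq a b
  have key : ∀ a b, fderiv ℝ (fderiv ℝ G) y a b w z =
      G y (christoffel G y a (christoffel G y b w)) z + G y (christoffel G y b w)
        (christoffel G y a z) + G y (fderiv ℝ (fun x => christoffel G x b w) y a) z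
      + (G y (christoffel G y a w) (christoffel G y b z)
        + G y w (christoffel G y a (christoffel G y b z))
        + G y w (fderiv ℝ (fun x => christoffel G x b z) y a)) := by
    intro a b
    have h1 := ((hd2.clm_apply (hasFDerivAt_const b y)).clm_apply
      (hasFDerivAt_const w y)).clm_apply (hasFDerivAt_const z y)
    have e1 := (hΓ.differentiableAt hy b w).hasFDerivAt
    have e2 := (hΓ.differentiableAt hy b z).hasFDerivAt
    have h2 := ((hd.clm_apply e1).clm_apply (hasFDerivAt_const z y)).add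
      ((hd.clm_apply (hasFDerivAt_const w y)).clm_apply e2)
    have heq : (fun x => fderiv ℝ G x b w z) =ᶠ[𝓝 y]
        (fun x => G x (christoffel G x b w) z) + fun x => G x w (christoffel G x b z) := by
      filter_upwards [hU.mem_nhds hy] with x hx
      exact hG.metric hU hx b w z
    have h3 := (h1.congr_of_eventuallyEq heq.symm).unique h2
    have h4 := congrArg (fun L => L a) h3
    simp at h4
    rw [h4, hG.metric hU hy, hG.metric hU hy]
    ring
  have k1 := key a b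
  have k2 := key b a
  rw [hsymm2] at k1
  unfold curvature
  simp only [map_add, map_sub, add_apply, sub_apply]
  linarith

end IsMetricOn

namespace PseudoMetric

variable {M : Type*} [TopologicalSpace M] [ChartedSpace E M] {φ ψ : OpenPartialHomeomorph M E}

/-- The vector fields on the frame bundle in the chart induced by `φ`. -/
def frameY (g : PseudoMetric E M) (φ : OpenPartialHomeomorph M E) :
    E × (E →L[ℝ] E) → (E × (E →L[ℝ] E)) →L[ℝ] (E × (E →L[ℝ] E)) :=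
  frameField (chrCLM (g.G φ))

lemma chrCLM_eq (g : PseudoMetric E M) (φ : OpenPartialHomeomorph M E) (y u v : E) :
    chrCLM (g.G φ) y u v = g.Γ φ y u v := chrCLM_apply _ _ _ _

lemma frameY_apply (g : PseudoMetric E M) (φ : OpenPartialHomeomorph M E)
    (p z : E × (E →L[ℝ] E)) :
    g.frameY φ p z = (p.2 z.1, p.2.comp z.2 - (chrCLM (g.G φ) p.1 (p.2 z.1)).comp p.2) := rfl

variable [FiniteDimensional ℝ E] (g : PseudoMetric E M)

lemma contDiffAt_chrCLM (hφ : φ ∈ atlas E M) {y : E} (hy : y ∈ φ.target) :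
    ContDiffAt ℝ ∞ (chrCLM (g.G φ)) y := (g.isMetricOn hφ).contDiffAt_chrCLM hy

lemma contDiffAt_frameY (hφ : φ ∈ atlas E M) {p : E × (E →L[ℝ] E)} (hp : p.1 ∈ φ.target) :
    ContDiffAt ℝ ∞ (g.frameY φ) p := contDiffAt_frameField (g.contDiffAt_chrCLM hφ hp)

/-- Chart independence of the vector fields on the frame bundle. -/
lemma frameY_natural [IsManifold 𝓘(ℝ, E) ∞ M] (hφ : φ ∈ atlas E M) (hψ : ψ ∈ atlas E M)
    {p : E × (E →L[ℝ] E)} (hp : p.1 ∈ overlap φ ψ) (z : E × (E →L[ℝ] E)) :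
    liftTDeriv (ψ ∘ φ.symm) p (g.frameY φ p z) = g.frameY ψ (liftT (ψ ∘ φ.symm) p) z := by
  apply frameField_natural
  intro u v
  simp only [g.chrCLM_eq]
  exact g.connRel hφ hψ p.1 hp u v

/-- The bracket relation. -/
lemma frameY_bracket (hφ : φ ∈ atlas E M) {p : E × (E →L[ℝ] E)} (hp : p.1 ∈ φ.target)
    (z w : E × (E →L[ℝ] E)) (Rf : E →L[ℝ] E)
    (hRf : ∀ u, p.2 (Rf u) = curvature (g.Γ φ) p.1 (p.2 z.1) (p.2 w.1) (p.2 u)) :
    g.frameY φ p (w.2 z.1 - z.2 w.1, w.2.comp z.2 - z.2.comp w.2 + Rf)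
      = fderiv ℝ (g.frameY φ) p (g.frameY φ p w) z
        - fderiv ℝ (g.frameY φ) p (g.frameY φ p z) w := by
  apply frameField_bracket (g.contDiffAt_chrCLM hφ hp)
  · intro u v
    simp only [g.chrCLM_eq]
    exact (g.isConnectionOn hφ).symm p.1 hp u v
  · intro u
    rw [hRf]
    simp only [g.chrCLM_eq]

lemma curvature_skew (hφ : φ ∈ atlas E M) {y : E} (hy : y ∈ φ.target) (a b w z : E) :
    g.G φ y (curvature (g.Γ φ) y a b w) z = - g.G φ y w (curvature (g.Γ φ) y a b z) :=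
  (g.isMetricOn hφ).curvature_skew φ.open_target hy a b w z

end PseudoMetric

end

end Pool.Agent.Lib.MP_611141_gt
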