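import Mathlib

set_option autoImplicit false
set_option maxSynthPendingDepth 3

/-!
# Continuous multilinear forms on a finite dimensional space
-/

namespace Pool.Agent.Lib.MP_611141_gt

open scoped Topology ContDiff
open Function Set

noncomputable section

variable {E : Type*} [NormedAddCommGroup E] [NormedSpace ℝ E]

/-- `m`-linear forms on `E`. -/
abbrev MT (E : Type*) [NormedAddCommGroup E] [NormedSpace ℝ E] (m : ℕ) : Type _ :=
  ContinuousMultilinearMap ℝ (fun _ : Fin m => E) ℝ

instance finiteDimensional_MT [FiniteDimensional ℝ E] (m : ℕ) : FiniteDimensional ℝ (MT E m) := by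
  refine FiniteDimensional.of_injective
    (ContinuousMultilinearMap.toMultilinearMapLinear (R' := ℝ) (A := ℝ)
      (M₁ := fun _ : Fin m => E) (M₂ := ℝ)) ?_
  intro f g h
  ext v
  exact congrArg (fun F => F v) h

/-- evaluation on the tuples of basis vectors -/
def evalBasis {n : ℕ} (b : Module.Basis (Fin n) ℝ E) (m : ℕ) :
    MT E m →ₗ[ℝ] ((Fin m → Fin n) → ℝ) where
  toFun c I := c (fun i => b (I i))
  map_add' _ _ := rfl
  map_smul' _ _ := rfl

lemma evalBasis_injective {n : ℕ} (b : Module.Basis (Fin n) ℝ E) (m : ℕ) :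
    Injective (evalBasis b m) := by
  intro f g h
  apply ContinuousMultilinearMap.toMultilinearMap_injective
  refine Module.Basis.ext_multilinear (fun _ => b) ?_
  intro I
  exact congrFun h I

/-- reconstruction of a form from its values on the basis vectors -/
lemma exists_reconstruct [FiniteDimensional ℝ E] (m : ℕ) :
    ∃ L : ((Fin m → Fin (Module.finrank ℝ E)) → ℝ) →L[ℝ] MT E m,
      ∀ c : MT E m, L (fun I => c (fun i => Module.finBasis ℝ E (I i))) = c := by
  obtain ⟨L, hL⟩ := (evalBasis (Module.finBasis ℝ E) m).exists_leftInverse_of_injective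
    (LinearMap.ker_eq_bot.2 (evalBasis_injective _ m))
  refine ⟨L.toContinuousLinearMap, fun c => ?_⟩
  exact congrArg (fun F => F c) hL

lemma hasDerivAt_MT [FiniteDimensional ℝ E] {m : ℕ} {c : ℝ → MT E m} {c' : MT E m} {t : ℝ}
    (h : ∀ v, HasDerivAt (fun s => c s v) (c' v) t) : HasDerivAt c c' t := by
  obtain ⟨L, hL⟩ := exists_reconstruct (E := E) m
  have h1 : HasDerivAt (fun s => (fun I => c s (fun i => Module.finBasis ℝ E (I i)) :
      (Fin m → Fin (Module.finrank ℝ E)) → ℝ))
      (fun I => c' (fun i => Module.finBasis ℝ E (I i))) t := by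
    rw [hasDerivAt_pi]
    intro I
    exact h _
  have h2 := L.hasFDerivAt.comp_hasDerivAt t h1
  rw [hL] at h2
  refine h2.congr_of_eventuallyEq (Filter.Eventually.of_forall fun s => ?_)
  exact (hL _).symm

lemma continuousAt_MT [FiniteDimensional ℝ E] {X : Type*} [TopologicalSpace X] {m : ℕ}
    {c : X → MT E m} {x : X} (h : ∀ v, ContinuousAt (fun s => c s v) x) : ContinuousAt c x := by
  obtain ⟨L, hL⟩ := exists_reconstruct (E := E) m
  have h1 : ContinuousAt (fun s => (fun I => c s (fun i => Module.finBasis ℝ E (I i)) :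
      (Fin m → Fin (Module.finrank ℝ E)) → ℝ)) x := by
    rw [continuousAt_pi]
    intro I
    exact h _
  have h2 := L.continuous.continuousAt.comp h1
  refine h2.congr (Filter.Eventually.of_forall fun s => ?_)
  exact hL _

/-- The continuous multilinear form given by a function, if it is one. -/
def toMT {m : ℕ} (F : (Fin m → E) → ℝ) : MT E m :=
  open Classical in if h : ∃ f : MT E m, ∀ v, f v = F v then h.choose else 0

lemma toMT_apply {m : ℕ} {F : (Fin m → E) → ℝ} (h : ∃ f : MT E m, ∀ v, f v = F v)
    (v : Fin m → E) : toMT F v = F v := by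
  unfold toMT
  rw [dif_pos h]
  exact h.choose_spec v

/-- The action of an endomorphism as a derivation. -/
def actFun {m : ℕ} (B : E →L[ℝ] E) (c : MT E m) : MT E m :=
  ∑ i, c.compContinuousLinearMap
    (fun j => if j = i then B else ContinuousLinearMap.id ℝ E)

lemma actFun_apply {m : ℕ} (B : E →L[ℝ] E) (c : MT E m) (v : Fin m → E) :
    actFun B c v = ∑ i, c (update v i (B (v i))) := by
  unfold actFun
  rw [sum_apply]
  refine Finset.sum_congr rfl fun i _ => ?_
  rw [ContinuousMultilinearMap.compContinuousLinearMap_apply]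
  congr 1
  ext j
  by_cases h : j = i
  · subst h; simp
  · simp [h]

/-- The derivative of the jet `c` along the control `z` (the last component has zero covariant
derivative). -/
def lamFun (r : ℕ) (z : E × (E →L[ℝ] E)) (c : (k : Fin r) → MT E (3 + k + 1)) :
    (k : Fin r) → MT E (3 + k + 1) := fun k =>
  (if h : k.1 + 1 < r then
    (ContinuousMultilinearMap.curryLeft (n := 3 + k.1 + 1) (c ⟨k.1 + 1, h⟩) z.1 : MT E (3 + k + 1))
    else 0) + actFun z.2 (c k)

lemma lamFun_apply (r : ℕ) (z : E × (E →L[ℝ] E)) (c : (k : Fin r) → MT E (3 + k + 1)) (k : Fin r)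
    (v : Fin (3 + k + 1) → E) :
    lamFun r z c k v = (if h : k.1 + 1 < r then c ⟨k.1 + 1, h⟩ (Fin.cons z.1 v) else 0)
      + ∑ i, c k (update v i (z.2 (v i))) := by
  unfold lamFun
  rw [add_apply, actFun_apply]
  congr 1
  split_ifs with h
  · rfl
  · rfl

variable [FiniteDimensional ℝ E]

/-- `lamFun` as a continuous bilinear map. -/
def lamCLM (r : ℕ) : (E × (E →L[ℝ] E)) →L[ℝ] ((k : Fin r) → MT E (3 + k + 1)) →L[ℝ]
    ((k : Fin r) → MT E (3 + k + 1)) :=
  LinearMap.toContinuousBilinearMap (LinearMap.mk₂ ℝ (lamFun r)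
    (by
      intro z z' c
      ext k v
      simp only [Pi.add_apply, add_apply, lamFun_apply, Prod.fst_add, Prod.snd_add,
        ContinuousMultilinearMap.map_update_add, Finset.sum_add_distrib]
      split_ifs with h
      · have := ContinuousMultilinearMap.cons_add (n := 3 + k.1 + 1) (c ⟨k.1 + 1, h⟩) v z.1 z'.1
        rw [this]
        abel
      · abel)
    (by
      intro a z c
      ext k v
      simp only [Pi.smul_apply, smul_apply, lamFun_apply, Prod.smul_fst, Prod.smul_snd,
        ContinuousMultilinearMap.map_update_smul, ← Finset.smul_sum]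
      split_ifs with h
      · have := ContinuousMultilinearMap.cons_smul (n := 3 + k.1 + 1) (c ⟨k.1 + 1, h⟩) v a z.1
        rw [this, smul_add]
      · rw [smul_add, smul_zero])
    (by
      intro z c c'
      ext k v
      simp only [Pi.add_apply, add_apply, lamFun_apply, Finset.sum_add_distrib]
      split_ifs with h
      · abel
      · abel)
    (by
      intro a z c
      ext k v
      simp only [Pi.smul_apply, smul_apply, lamFun_apply, ← Finset.smul_sum]
      split_ifs with h
      · rw [smul_add]
      · rw [smul_add, smul_zero]))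

lemma lamCLM_apply (r : ℕ) (z : E × (E →L[ℝ] E)) (c : (k : Fin r) → MT E (3 + k + 1)) :
    lamCLM (E := E) r z c = lamFun r z c := rfl

end

end Pool.Agent.Lib.MP_611141_gt
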