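import Mathlib
import Pool.Agent.Lib.MP_611141_gt.FrameField
import Pool.Agent.Lib.MP_611141_gt.Multi

set_option autoImplicit false
set_option maxSynthPendingDepth 3

/-!
# The jet of the curvature in a frame
-/

namespace Pool.Agent.Lib.MP_611141_gt

open scoped Topology ContDiff Manifold
open Function Set

noncomputable section

variable {E : Type*} [NormedAddCommGroup E] [NormedSpace ℝ E]

/-- Derivative of a tensor along a curve, the arguments being parallel up to `q`. -/
lemma hasDerivAt_tensor {U : Set E} {Γ : E → E → E → E} {k : ℕ}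
    {T : E → (Fin k → E) → E} (hT : IsTensorOn U T) {y : ℝ → E} {t : ℝ} {y' : E}
    (hy : y t ∈ U) (h1 : HasDerivAt y y' t) {v : ℝ → Fin k → E} {q : Fin k → E}
    (h2 : ∀ i, HasDerivAt (fun s => v s i) (q i - Γ (y t) y' (v t i)) t) :
    HasDerivAt (fun s => T (y s) (v s)) (covDeriv Γ T (y t) (Fin.cons y' (v t))
      - Γ (y t) y' (T (y t) (v t)) + ∑ i, T (y t) (update (v t) i (q i))) t := by
  have h3 : HasFDerivAt (fun p : E × (Fin k → E) => T p.1 p.2)
      (fderiv ℝ (fun p : E × (Fin k → E) => T p.1 p.2) (y t, v t)) (y t, v t) :=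
    ((hT.smooth _ hy _).differentiableAt (by simp)).hasFDerivAt
  have h4 : HasDerivAt (fun s => (y s, v s)) (y', fun i => q i - Γ (y t) y' (v t i)) t :=
    h1.prodMk (hasDerivAt_pi.2 h2)
  have h5 := h3.comp_hasDerivAt t h4
  rw [hT.fderiv_apply hy] at h5
  refine h5.congr_deriv ?_
  unfold covDeriv
  simp only [Fin.tail_cons, Fin.cons_zero, hT.update_sub hy, Finset.sum_sub_distrib]
  abel

/-- Derivative of a tensor with all its arguments lowered. -/
lemma hasDerivAt_lowered [FiniteDimensional ℝ E] {U : Set E} (hU : IsOpen U)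
    {G : E → E →L[ℝ] E →L[ℝ] ℝ} (hG : IsMetricOn U G) {k : ℕ}
    {T : E → (Fin k → E) → E} (hT : IsTensorOn U T) {y : ℝ → E} {t : ℝ} {y' : E}
    (hy : y t ∈ U) (h1 : HasDerivAt y y' t) {v : ℝ → Fin k → E} {q : Fin k → E}
    (h2 : ∀ i, HasDerivAt (fun s => v s i) (q i - christoffel G (y t) y' (v t i)) t)
    {w : ℝ → E} {r : E} (h3 : HasDerivAt w (r - christoffel G (y t) y' (w t)) t) :
    HasDerivAt (fun s => G (y s) (T (y s) (v s)) (w s))
      (G (y t) (covDeriv (christoffel G) T (y t) (Fin.cons y' (v t))) (w t)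
        + ∑ i, G (y t) (T (y t) (update (v t) i (q i))) (w t)
        + G (y t) (T (y t) (v t)) r) t := by
  have hd : HasDerivAt (fun s => G (y s)) (fderiv ℝ G (y t) y') t :=
    ((hG.smooth _ hy).differentiableAt (by simp)).hasFDerivAt.comp_hasDerivAt t h1
  have h4 := hasDerivAt_tensor (Γ := christoffel G) hT hy h1 h2
  have h5 := (hd.clm_apply h4).clm_apply h3
  refine h5.congr_deriv ?_
  simp only [add_apply, hG.metric hU hy, map_add, map_sub, sub_apply, map_sum, sum_apply]
  ring

/-- Derivative of the metric. -/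
lemma hasDerivAt_metric [FiniteDimensional ℝ E] {U : Set E} (hU : IsOpen U)
    {G : E → E →L[ℝ] E →L[ℝ] ℝ} (hG : IsMetricOn U G) {y : ℝ → E} {t : ℝ} {y' : E}
    (hy : y t ∈ U) (h1 : HasDerivAt y y' t) {v w : ℝ → E} {q r : E}
    (h2 : HasDerivAt v (q - christoffel G (y t) y' (v t)) t)
    (h3 : HasDerivAt w (r - christoffel G (y t) y' (w t)) t) :
    HasDerivAt (fun s => G (y s) (v s) (w s)) (G (y t) q (w t) + G (y t) (v t) r) t := by
  have hd : HasDerivAt (fun s => G (y s)) (fderiv ℝ G (y t) y') t :=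
    ((hG.smooth _ hy).differentiableAt (by simp)).hasFDerivAt.comp_hasDerivAt t h1
  have h5 := (hd.clm_apply h2).clm_apply h3
  refine h5.congr_deriv ?_
  simp only [add_apply, hG.metric hU hy, map_sub, sub_apply]
  ring

/-- The frame components of `∇^k R` (with the last argument lowered), at the frame `p`. -/
def lowR (G : E → E →L[ℝ] E →L[ℝ] ℝ) (k : ℕ) (p : E × (E →L[ℝ] E)) (u : Fin (3 + k + 1) → E) : ℝ :=
  G p.1 (nablaR (christoffel G) k p.1 (fun i => p.2 (u i.castSucc))) (p.2 (u (Fin.last _)))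

variable [FiniteDimensional ℝ E] {U : Set E} {G : E → E →L[ℝ] E →L[ℝ] ℝ}

omit [NormedAddCommGroup E] [NormedSpace ℝ E] [FiniteDimensional ℝ E] in
lemma update_castSucc_comp {n : ℕ} {F : Type*} (Φ : E → F) (u : Fin (n + 1) → E) (i : Fin n)
    (x : E) : (fun j : Fin n => Φ (update u i.castSucc x j.castSucc))
      = update (fun j : Fin n => Φ (u j.castSucc)) i (Φ x) := by
  ext j
  by_cases h : j = i
  · subst h; simp
  · have : j.castSucc ≠ i.castSucc := fun h' => h (Fin.castSucc_injective _ h')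
    simp [h]

omit [NormedAddCommGroup E] [NormedSpace ℝ E] [FiniteDimensional ℝ E] in
lemma update_castSucc_last {n : ℕ} (u : Fin (n + 1) → E) (i : Fin n) (x : E) :
    update u i.castSucc x (Fin.last _) = u (Fin.last _) := by
  rw [update_of_ne (Fin.castSucc_lt_last i).ne']

omit [NormedAddCommGroup E] [NormedSpace ℝ E] [FiniteDimensional ℝ E] in
lemma update_last_comp {n : ℕ} {F : Type*} (Φ : E → F) (u : Fin (n + 1) → E) (x : E) :
    (fun j : Fin n => Φ (update u (Fin.last _) x j.castSucc)) = fun j => Φ (u j.castSucc) := by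
  ext j
  rw [update_of_ne (Fin.castSucc_lt_last j).ne]

lemma lowR_isMT (hU : IsOpen U) (hG : IsMetricOn U G) (k : ℕ) {p : E × (E →L[ℝ] E)}
    (hp : p.1 ∈ U) : ∃ f : MT E (3 + k + 1), ∀ u, f u = lowR G k p u := by
  have hT := (hG.isConnectionOn hU).nablaR hU k
  have hcont : Continuous (lowR G k p) := by
    unfold lowR
    have h1 : Continuous fun u : Fin (3 + k + 1) → E =>
        nablaR (christoffel G) k p.1 (fun i => p.2 (u i.castSucc)) :=
      (hT.continuous hp).comp (by fun_prop)
    have h2 : Continuous fun u : Fin (3 + k + 1) → E => p.2 (u (Fin.last _)) := by fun_prop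
    exact ((G p.1).continuous.comp h1).clm_apply h2
  obtain ⟨f, hf⟩ := hT.multilinear p.1 hp
  have e : ∀ (u : Fin (3 + k + 1) → E) (i : Fin (3 + k + 1)) (x : E),
      lowR G k p (update u i x) = G p.1 (f (fun j => p.2 (update u i x j.castSucc)))
        (p.2 (update u i x (Fin.last _))) := by
    intro u i x
    unfold lowR
    rw [hf]
  refine ⟨⟨MultilinearMap.mk' (lowR G k p) ?_ ?_, hcont⟩, fun u => rfl⟩
  · intro u i a b
    rw [e, e, e]
    refine Fin.lastCases ?_ (fun j => ?_) i
    · simp only [update_last_comp, update_self, map_add]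
    · simp only [update_castSucc_comp, update_castSucc_last, map_add, f.map_update_add, add_apply]
  · intro u i a b
    rw [e, e]
    refine Fin.lastCases ?_ (fun j => ?_) i
    · simp only [update_last_comp, update_self, map_smul]
    · simp only [update_castSucc_comp, update_castSucc_last, map_smul, f.map_update_smul,
        smul_apply]

/-- The derivative of the frame components along the vector fields. -/
lemma hasDerivAt_lowR (hU : IsOpen U) (hG : IsMetricOn U G) (k : ℕ) {p : ℝ → E × (E →L[ℝ] E)}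
    {z : E × (E →L[ℝ] E)} {t : ℝ} (hp : (p t).1 ∈ U)
    (h : HasDerivAt p (frameField (chrCLM G) (p t) z) t) (u : Fin (3 + k + 1) → E) :
    HasDerivAt (fun s => lowR G k (p s) u)
      (lowR G (k + 1) (p t) (Fin.cons z.1 u) + ∑ i, lowR G k (p t) (update u i (z.2 (u i)))) t := by
  have hT := (hG.isConnectionOn hU).nablaR hU k
  rw [frameField_apply] at h
  have h1 : HasDerivAt (fun s => (p s).1) ((p t).2 z.1) t := by
    have := (hasFDerivAt_fst (𝕜 := ℝ) (p := p t)).comp_hasDerivAt t h
    exact this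
  have h2 : HasDerivAt (fun s => (p s).2)
      ((p t).2.comp z.2 - (chrCLM G (p t).1 ((p t).2 z.1)).comp (p t).2) t := by
    have := (hasFDerivAt_snd (𝕜 := ℝ) (p := p t)).comp_hasDerivAt t h
    exact this
  have h3 : ∀ x : E, HasDerivAt (fun s => (p s).2 x)
      ((p t).2 (z.2 x) - christoffel G (p t).1 ((p t).2 z.1) ((p t).2 x)) t := by
    intro x
    have := h2.clm_apply (hasDerivAt_const t x)
    refine this.congr_deriv ?_
    simp [chrCLM_apply]
  have h4 := hasDerivAt_lowered hU hG hT hp h1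
    (v := fun s i => (p s).2 (u i.castSucc)) (q := fun i => (p t).2 (z.2 (u i.castSucc)))
    (fun i => h3 _) (h3 (u (Fin.last _)))
  refine h4.congr_deriv ?_
  have e1 : lowR G (k + 1) (p t) (Fin.cons z.1 u)
      = G (p t).1 (covDeriv (christoffel G) (nablaR (christoffel G) k) (p t).1
        (Fin.cons ((p t).2 z.1) (fun i => (p t).2 (u i.castSucc)))) ((p t).2 (u (Fin.last _))) := by
    have a1 : (fun i : Fin (3 + k + 1) => (p t).2 ((Fin.cons z.1 u : Fin (3 + k + 1 + 1) → E)
        i.castSucc)) = (Fin.cons ((p t).2 z.1) (fun i => (p t).2 (u i.castSucc)) :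
          Fin (3 + k + 1) → E) := by
      ext i
      refine Fin.cases ?_ (fun j => ?_) i
      · simp
      · rw [← Fin.succ_castSucc, Fin.cons_succ, Fin.cons_succ]
    have a2 : (Fin.cons z.1 u : Fin (3 + k + 1 + 1) → E) (Fin.last _) = u (Fin.last _) := by
      rw [← Fin.succ_last, Fin.cons_succ]
    show G (p t).1 (nablaR (christoffel G) (k + 1) (p t).1 (fun i : Fin (3 + k + 1) =>
      (p t).2 ((Fin.cons z.1 u : Fin (3 + k + 1 + 1) → E) i.castSucc)))
      ((p t).2 ((Fin.cons z.1 u : Fin (3 + k + 1 + 1) → E) (Fin.last _))) = _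
    rw [a1, a2]
    rfl
  rw [e1, Fin.sum_univ_castSucc, ← add_assoc]
  congr 1
  · congr 1
    refine Finset.sum_congr rfl fun i _ => ?_
    unfold lowR
    simp only [update_castSucc_comp, update_castSucc_last]
  · unfold lowR
    simp only [update_last_comp, update_self]

/-- The derivative of the pulled back metric along the vector fields. -/
lemma hasDerivAt_pullForm (hU : IsOpen U) (hG : IsMetricOn U G) {p : ℝ → E × (E →L[ℝ] E)}
    {z : E × (E →L[ℝ] E)} {t : ℝ} (hp : (p t).1 ∈ U)
    (h : HasDerivAt p (frameField (chrCLM G) (p t) z) t) (u v : E) :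
    HasDerivAt (fun s => G (p s).1 ((p s).2 u) ((p s).2 v))
      (G (p t).1 ((p t).2 (z.2 u)) ((p t).2 v) + G (p t).1 ((p t).2 u) ((p t).2 (z.2 v))) t := by
  rw [frameField_apply] at h
  have h1 : HasDerivAt (fun s => (p s).1) ((p t).2 z.1) t :=
    (hasFDerivAt_fst (𝕜 := ℝ) (p := p t)).comp_hasDerivAt t h
  have h2 : HasDerivAt (fun s => (p s).2)
      ((p t).2.comp z.2 - (chrCLM G (p t).1 ((p t).2 z.1)).comp (p t).2) t :=
    (hasFDerivAt_snd (𝕜 := ℝ) (p := p t)).comp_hasDerivAt t h
  have h3 : ∀ x : E, HasDerivAt (fun s => (p s).2 x)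
      ((p t).2 (z.2 x) - christoffel G (p t).1 ((p t).2 z.1) ((p t).2 x)) t := by
    intro x
    have := h2.clm_apply (hasDerivAt_const t x)
    refine this.congr_deriv ?_
    simp [chrCLM_apply]
  exact hasDerivAt_metric hU hG hp h1 (h3 u) (h3 v)

omit [FiniteDimensional ℝ E] in
lemma covDeriv_zero (hU : IsOpen U) {Γ : E → E → E → E} (hΓ : IsConnectionOn U Γ) {k : ℕ}
    {T : E → (Fin k → E) → E} (h : ∀ y ∈ U, ∀ v, T y v = 0) {y : E} (hy : y ∈ U)
    (v : Fin (k + 1) → E) : covDeriv Γ T y v = 0 := by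
  have h0 : Γ y (v 0) 0 = 0 := by
    have := hΓ.smul_right hy 0 (v 0) 0
    simpa using this
  have h1 : fderiv ℝ (fun z => T z (Fin.tail v)) y = 0 := by
    have h2 : (fun z => T z (Fin.tail v)) =ᶠ[𝓝 y] fun _ => (0 : E) := by
      filter_upwards [hU.mem_nhds hy] with z hz
      exact h z hz _
    rw [h2.fderiv_eq]
    simp
  unfold covDeriv
  rw [h1]
  simp [h y hy, h0]

namespace PseudoMetric

variable {M : Type*} [TopologicalSpace M] [ChartedSpace E M] {φ ψ : OpenPartialHomeomorph M E}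
  (g : PseudoMetric E M)

lemma IsSymmetricOfOrder.succ {g : PseudoMetric E M} {r : ℕ} (h : g.IsSymmetricOfOrder r) :
    g.IsSymmetricOfOrder (r + 1) := by
  intro φ hφ y hy v
  exact covDeriv_zero φ.open_target (g.isConnectionOn hφ) (h φ hφ) hy v

/-- The components of the curvature and its first `r - 1` covariant derivatives in the frame `p`. -/
def jet (g : PseudoMetric E M) (φ : OpenPartialHomeomorph M E) (r : ℕ) (p : E × (E →L[ℝ] E)) :
    (k : Fin r) → MT E (3 + k + 1) := fun k => toMT (lowR (g.G φ) k p)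

lemma jet_apply (hφ : φ ∈ atlas E M) {r : ℕ} {p : E × (E →L[ℝ] E)} (hp : p.1 ∈ φ.target)
    (k : Fin r) (u : Fin (3 + k + 1) → E) : g.jet φ r p k u = lowR (g.G φ) k p u :=
  toMT_apply (lowR_isMT φ.open_target (g.isMetricOn hφ) k hp) u

/-- Chart independence of the jet. -/
lemma jet_natural [IsManifold 𝓘(ℝ, E) ∞ M] (hφ : φ ∈ atlas E M) (hψ : ψ ∈ atlas E M) (r : ℕ)
    {p : E × (E →L[ℝ] E)} (hp : p.1 ∈ overlap φ ψ) :
    g.jet ψ r (liftT (ψ ∘ φ.symm) p) = g.jet φ r p := by
  funext k
  have : lowR (g.G ψ) k (liftT (ψ ∘ φ.symm) p) = lowR (g.G φ) k p := by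
    funext u
    have h1 := g.tensorRel_nablaR hφ hψ k p.1 hp (fun i => p.2 (u i.castSucc))
    have h2 := g.metricRel hφ hψ p.1 hp
    unfold lowR liftT
    simp only [ContinuousLinearMap.comp_apply]
    have h3 : nablaR (christoffel (g.G ψ)) k ((ψ ∘ φ.symm) p.1)
        (fun i => fderiv ℝ (ψ ∘ φ.symm) p.1 (p.2 (u i.castSucc)))
        = fderiv ℝ (ψ ∘ φ.symm) p.1 (nablaR (christoffel (g.G φ)) k p.1
          (fun i => p.2 (u i.castSucc))) := h1
    rw [h3]
    exact h2 _ _
  unfold jet
  rw [this]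

/-- The derivative of the jet along the vector fields. -/
lemma hasDerivAt_jet (hφ : φ ∈ atlas E M) {r : ℕ} (hr : g.IsSymmetricOfOrder r)
    {p : ℝ → E × (E →L[ℝ] E)} {z : E × (E →L[ℝ] E)} {t : ℝ} (hp : (p t).1 ∈ φ.target)
    (h : HasDerivAt p (g.frameY φ (p t) z) t) :
    HasDerivAt (fun s => g.jet φ r (p s)) (lamCLM (E := E) r z (g.jet φ r (p t))) t := by
  rw [hasDerivAt_pi]
  intro k
  apply hasDerivAt_MT
  intro u
  have h1 := hasDerivAt_lowR φ.open_target (g.isMetricOn hφ) k hp h u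
  have hc : ContinuousAt (fun s => (p s).1) t := h.continuousAt.fst
  have h2 : (fun s => g.jet φ r (p s) k u) =ᶠ[𝓝 t] fun s => lowR (g.G φ) k (p s) u := by
    filter_upwards [hc.eventually (φ.open_target.mem_nhds hp)] with s hs
    exact g.jet_apply hφ hs k u
  refine (h1.congr_of_eventuallyEq h2).congr_deriv ?_
  rw [lamCLM_apply, lamFun_apply]
  congr 1
  · split_ifs with hk
    · exact (g.jet_apply hφ hp ⟨k.1 + 1, hk⟩ (Fin.cons z.1 u)).symm
    · have hk' : k.1 + 1 = r := le_antisymm k.2 (not_lt.1 hk)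
      unfold lowR
      have h3 : nablaR (christoffel (g.G φ)) (k.1 + 1) (p t).1 (fun i => (p t).2
          ((Fin.cons z.1 u : Fin (3 + (k.1 + 1) + 1) → E) i.castSucc)) = 0 := by
        have h4 : g.IsSymmetricOfOrder (k.1 + 1) := by rw [hk']; exact hr
        exact h4 φ hφ _ hp _
      rw [h3]
      simp
  · refine Finset.sum_congr rfl fun i _ => ?_
    rw [g.jet_apply hφ hp]

lemma continuousAt_jet (hφ : φ ∈ atlas E M) (r : ℕ) {p : E × (E →L[ℝ] E)}
    (hp : p.1 ∈ φ.target) : ContinuousAt (g.jet φ r) p := by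
  rw [continuousAt_pi]
  intro k
  apply continuousAt_MT
  intro u
  have hT := g.isTensorOn_nablaR hφ k
  have h1 : ContinuousAt (fun q : E × (E →L[ℝ] E) => lowR (g.G φ) k q u) p := by
    unfold lowR
    have h2 : ContinuousAt (fun q : E × (E →L[ℝ] E) => g.G φ q.1) p :=
      ContinuousAt.comp (g := g.G φ) (f := fun q : E × (E →L[ℝ] E) => q.1)
        (g.smooth φ hφ _ hp).continuousAt continuousAt_fst
    have h3 : ContinuousAt (fun q : E × (E →L[ℝ] E) =>
        (q.1, fun i : Fin (3 + k) => q.2 (u i.castSucc))) p := by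
      refine continuousAt_fst.prodMk (continuousAt_pi.2 fun i => ?_)
      exact (continuousAt_snd (p := p)).clm_apply continuousAt_const
    have h4 : ContinuousAt (fun q : E × (E →L[ℝ] E) =>
        nablaR (christoffel (g.G φ)) k q.1 (fun i => q.2 (u i.castSucc))) p :=
      ContinuousAt.comp (g := fun q : E × (Fin (3 + k) → E) => nablaR (christoffel (g.G φ)) k
        q.1 q.2) (f := fun q : E × (E →L[ℝ] E) =>
          (q.1, fun i : Fin (3 + (k : ℕ)) => q.2 (u i.castSucc)))
        (hT.smooth _ hp _).continuousAt h3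
    exact (h2.clm_apply h4).clm_apply ((continuousAt_snd (p := p)).clm_apply continuousAt_const)
  refine h1.congr ?_
  have hc : ContinuousAt (fun q : E × (E →L[ℝ] E) => q.1) p := continuousAt_fst
  filter_upwards [hc.eventually (φ.open_target.mem_nhds hp)] with q hq
  exact (g.jet_apply hφ hq k u).symm

end PseudoMetric

end

end Pool.Agent.Lib.MP_611141_gt
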