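import Mathlib
import Pool.Agent.Lib.MP_611141_gt.Jets

set_option autoImplicit false
set_option maxSynthPendingDepth 3

/-!
# The structure functions of the vector fields on the frame bundle
-/

namespace Pool.Agent.Lib.MP_611141_gt

open scoped Topology ContDiff Manifold
open Function Set

noncomputable section

variable {E : Type*} [NormedAddCommGroup E] [NormedSpace ℝ E]

/-- currying the first variable -/
def curMT (E : Type*) [NormedAddCommGroup E] [NormedSpace ℝ E] (n : ℕ) :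
    MT E (n + 1) →L[ℝ] (E →L[ℝ] MT E n) :=
  (continuousMultilinearCurryLeftEquiv ℝ (fun _ : Fin (n + 1) => E) ℝ).toContinuousLinearEquiv

lemma curMT_apply (n : ℕ) (c : MT E (n + 1)) (a : E) (v : Fin n → E) :
    curMT E n c a v = c (Fin.cons a v) := rfl

/-- a form in two variables as a bilinear form -/
def formMT (E : Type*) [NormedAddCommGroup E] [NormedSpace ℝ E] :
    MT E 2 →L[ℝ] E →L[ℝ] E →L[ℝ] ℝ :=
  (ContinuousLinearMap.compL ℝ E (MT E 1) (E →L[ℝ] ℝ)
    ((continuousMultilinearCurryFin1 ℝ E ℝ).toContinuousLinearEquiv.toContinuousLinearMap)).comp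
    (curMT E 1)

lemma formMT_apply (c : MT E 2) (x v : E) : formMT E c x v = c (Fin.cons x (fun _ => v)) := by
  have : formMT E c x v = c (Fin.cons x (Fin.snoc 0 v)) := rfl
  rw [this]
  congr 1

/-- raising the last index -/
def raiseMT (η : E →L[ℝ] E →L[ℝ] ℝ) : MT E 2 →L[ℝ] (E →L[ℝ] E) :=
  (ContinuousLinearMap.compL ℝ E (E →L[ℝ] ℝ) E η.inverse).comp (formMT E)

lemma raiseMT_apply (η : E →L[ℝ] E →L[ℝ] ℝ) (c : MT E 2) (x : E) :
    raiseMT η c x = η.inverse (formMT E c x) := rfl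

/-- the curvature operator from its components -/
def rhat (η : E →L[ℝ] E →L[ℝ] ℝ) : MT E 4 →L[ℝ] E →L[ℝ] E →L[ℝ] (E →L[ℝ] E) :=
  (ContinuousLinearMap.compL ℝ E (MT E 3) (E →L[ℝ] (E →L[ℝ] E))
    ((ContinuousLinearMap.compL ℝ E (MT E 2) (E →L[ℝ] E) (raiseMT η)).comp (curMT E 2))).comp
    (curMT E 3)

lemma rhat_apply (η : E →L[ℝ] E →L[ℝ] ℝ) (c : MT E 4) (a b x : E) :
    rhat η c a b x = η.inverse (formMT E (curMT E 2 (curMT E 3 c a) b) x) := rfl

/-- The form of the structure functions which does not depend on the curvature. -/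
def brack₀ (E : Type*) [NormedAddCommGroup E] [NormedSpace ℝ E] [FiniteDimensional ℝ E] :
    (E × (E →L[ℝ] E)) →L[ℝ] (E × (E →L[ℝ] E)) →L[ℝ] (E × (E →L[ℝ] E)) :=
  LinearMap.toContinuousBilinearMap (LinearMap.mk₂ ℝ
    (fun z u => (z.2 u.1 - u.2 z.1, z.2.comp u.2 - u.2.comp z.2))
    (by
      intro z z' u
      refine Prod.ext ?_ ?_
      · simp; abel
      · ext x; simp; abel)
    (by
      intro a z u
      refine Prod.ext ?_ ?_
      · simp [smul_sub]
      · ext x; simp [smul_sub])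
    (by
      intro z u u'
      refine Prod.ext ?_ ?_
      · simp; abel
      · ext x; simp; abel)
    (by
      intro a z u
      refine Prod.ext ?_ ?_
      · simp [smul_sub]
      · ext x; simp [smul_sub]))

lemma brack₀_apply [FiniteDimensional ℝ E] (z u : E × (E →L[ℝ] E)) :
    brack₀ E z u = (z.2 u.1 - u.2 z.1, z.2.comp u.2 - u.2.comp z.2) := rfl

/-- The curvature part, as a bilinear map. -/
def brack₁ [FiniteDimensional ℝ E] (K : E →L[ℝ] E →L[ℝ] (E →L[ℝ] E)) :
    (E × (E →L[ℝ] E)) →L[ℝ] (E × (E →L[ℝ] E)) →L[ℝ] (E × (E →L[ℝ] E)) :=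
  LinearMap.toContinuousBilinearMap (LinearMap.mk₂ ℝ (fun z u => (0, K u.1 z.1))
    (by intro z z' u; simp)
    (by intro a z u; simp)
    (by intro z u u'; simp)
    (by intro a z u; simp))

lemma brack₁_apply [FiniteDimensional ℝ E] (K : E →L[ℝ] E →L[ℝ] (E →L[ℝ] E))
    (z u : E × (E →L[ℝ] E)) : brack₁ K z u = (0, K u.1 z.1) := rfl

variable [FiniteDimensional ℝ E]

/-- The curvature part of the structure functions as a linear function of the jet. -/
def structRho (η : E →L[ℝ] E →L[ℝ] ℝ) (r : ℕ) :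
    ((k : Fin (r + 1)) → MT E (3 + k + 1)) →L[ℝ]
    (E × (E →L[ℝ] E)) →L[ℝ] (E × (E →L[ℝ] E)) →L[ℝ] (E × (E →L[ℝ] E)) :=
  LinearMap.toContinuousLinearMap
    { toFun := fun c => brack₁ (rhat η (c ⟨0, Nat.succ_pos r⟩))
      map_add' := by
        intro c c'
        have e : rhat η ((c + c') ⟨0, Nat.succ_pos r⟩)
            = rhat η (c ⟨0, Nat.succ_pos r⟩) + rhat η (c' ⟨0, Nat.succ_pos r⟩) :=
          (rhat η).map_add _ _
        refine ContinuousLinearMap.ext fun z => ContinuousLinearMap.ext fun u => ?_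
        simp only [brack₁_apply, add_apply, e, Prod.mk_add_mk, add_zero]
      map_smul' := by
        intro a c
        have e : rhat η ((a • c) ⟨0, Nat.succ_pos r⟩) = a • rhat η (c ⟨0, Nat.succ_pos r⟩) :=
          (rhat η).map_smul _ _
        refine ContinuousLinearMap.ext fun z => ContinuousLinearMap.ext fun u => ?_
        simp only [brack₁_apply, smul_apply, e, Prod.smul_mk, smul_zero, RingHom.id_apply] }

lemma structRho_apply (η : E →L[ℝ] E →L[ℝ] ℝ) (r : ℕ)
    (c : (k : Fin (r + 1)) → MT E (3 + k + 1)) (z u : E × (E →L[ℝ] E)) :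
    structRho η r c z u = (0, rhat η (c ⟨0, Nat.succ_pos r⟩) u.1 z.1) := rfl

/-- The Lie algebra of the orthogonal group of `η`. -/
def soS (η : E →L[ℝ] E →L[ℝ] ℝ) : Submodule ℝ (E →L[ℝ] E) where
  carrier := {B | ∀ u v, η (B u) v + η u (B v) = 0}
  add_mem' := by
    intro A B hA hB u v
    have h1 := hA u v
    have h2 := hB u v
    simp only [add_apply, map_add]
    linarith
  zero_mem' := by intro u v; simp
  smul_mem' := by
    intro a B hB u v
    have h1 := hB u v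
    simp only [smul_apply, map_smul, smul_eq_mul]
    rw [← mul_add, h1, mul_zero]

omit [FiniteDimensional ℝ E] in
lemma mem_soS {η : E →L[ℝ] E →L[ℝ] ℝ} {B : E →L[ℝ] E} :
    B ∈ soS η ↔ ∀ u v, η (B u) v + η u (B v) = 0 := Iff.rfl

lemma apply_inverse_const {η : E →L[ℝ] E →L[ℝ] ℝ} (hη : ∀ u, (∀ v, η u v = 0) → u = 0)
    (hs : ∀ u v, η u v = η v u) (f : E →L[ℝ] ℝ) : η (η.inverse f) = f := by
  have h : IsMetricOn univ (fun _ : E => η) :=
    ⟨fun _ _ => contDiffAt_const, fun _ _ => hs, fun _ _ => hη⟩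
  exact h.apply_inverse (y := 0) (mem_univ _) f

namespace PseudoMetric

variable {M : Type*} [TopologicalSpace M] [ChartedSpace E M] {φ ψ : OpenPartialHomeomorph M E}
  (g : PseudoMetric E M)

/-- The curvature operator in a frame. -/
lemma rhat_jet (hφ : φ ∈ atlas E M) (r : ℕ) {p : E × (E →L[ℝ] E)} (hp : p.1 ∈ φ.target)
    {η : E →L[ℝ] E →L[ℝ] ℝ} (hη : ∀ u, (∀ v, η u v = 0) → u = 0)
    (hs : ∀ u v, η u v = η v u) (h : ∀ u v, g.G φ p.1 (p.2 u) (p.2 v) = η u v) (a b x : E) :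
    p.2 (rhat η (g.jet φ (r + 1) p ⟨0, Nat.succ_pos r⟩) a b x)
      = curvature (g.Γ φ) p.1 (p.2 a) (p.2 b) (p.2 x) := by
  have hinj : Function.Injective (p.2 : E →ₗ[ℝ] E) := by
    rw [← LinearMap.ker_eq_bot, LinearMap.ker_eq_bot']
    intro u hu
    apply hη u
    intro v
    rw [← h]
    have : p.2 u = 0 := hu
    rw [this]
    simp
  have hsurj : Function.Surjective (p.2 : E →ₗ[ℝ] E) :=
    LinearMap.injective_iff_surjective.1 hinj
  have hm := g.isMetricOn hφ
  apply hm.eq_of_forall hp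
  intro w
  obtain ⟨v, rfl⟩ := hsurj w
  have h1 : g.G φ p.1 (p.2 (rhat η (g.jet φ (r + 1) p ⟨0, Nat.succ_pos r⟩) a b x)) (p.2 v)
      = η (rhat η (g.jet φ (r + 1) p ⟨0, Nat.succ_pos r⟩) a b x) v := h _ _
  have h2 : η (rhat η (g.jet φ (r + 1) p ⟨0, Nat.succ_pos r⟩) a b x) v
      = g.jet φ (r + 1) p ⟨0, Nat.succ_pos r⟩
        (Fin.cons a (Fin.cons b (Fin.cons x (fun _ : Fin 1 => v)))) := by
    rw [rhat_apply, apply_inverse_const hη hs, formMT_apply]
    rfl
  refine (h1.trans h2).trans ?_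
  rw [g.jet_apply hφ hp]
  rfl

/-- The bracket relation with explicit structure functions. -/
lemma bracket_struct (hφ : φ ∈ atlas E M) (r : ℕ) {p : E × (E →L[ℝ] E)} (hp : p.1 ∈ φ.target)
    {η : E →L[ℝ] E →L[ℝ] ℝ} (hη : ∀ u, (∀ v, η u v = 0) → u = 0)
    (hs : ∀ u v, η u v = η v u) (h : ∀ u v, g.G φ p.1 (p.2 u) (p.2 v) = η u v)
    (z u : E × (E →L[ℝ] E)) :
    fderiv ℝ (g.frameY φ) p (g.frameY φ p z) u - fderiv ℝ (g.frameY φ) p (g.frameY φ p u) z
      = g.frameY φ p ((brack₀ E + structRho η r (g.jet φ (r + 1) p)) z u) := by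
  rw [← g.frameY_bracket hφ hp u z (rhat η (g.jet φ (r + 1) p ⟨0, Nat.succ_pos r⟩) u.1 z.1)
    (fun x => g.rhat_jet hφ r hp hη hs h u.1 z.1 x)]
  congr 1
  simp only [add_apply, brack₀_apply, structRho_apply, Prod.mk_add_mk, add_zero]

end PseudoMetric

end

end Pool.Agent.Lib.MP_611141_gt
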