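import Pool.Agent.Lib.MP_611141_gt.FrameGauge
import Pool.Agent.Lib.MP_611141_gt.Struct

/-!
Completeness of the constant controls on the space of frames of an `r`-th symmetric manifold.
-/

set_option autoImplicit false
set_option maxSynthPendingDepth 3

open Set Filter Metric Asymptotics Function
open scoped Topology NNReal ContDiff Manifold

noncomputable section

namespace Pool.Agent.Lib.MP_611141_gt

namespace FrameSpec

variable {E M : Type} [NormedAddCommGroup E] [NormedSpace ℝ E] [FiniteDimensional ℝ E]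
  [TopologicalSpace M] [ChartedSpace E M] [IsManifold 𝓘(ℝ, E) ∞ M]
  {g : PseudoMetric E M} {P : Type} [TopologicalSpace P] (F : FrameSpec g P)

/-- The jet data of the space of frames. -/
def jetData {r : ℕ} (hr : g.IsSymmetricOfOrder (r + 1)) {η : E →L[ℝ] E →L[ℝ] ℝ}
    (hη : ∀ u, (∀ v, η u v = 0) → u = 0) (hs : ∀ u v, η u v = η v u)
    (hspan : skew η ≤ Submodule.span ℝ
      {u | ∃ Φ : P → ℝ → P, ParSpace.IsFlow F.S (F.Q η) u Φ}) :
    ParSpace.JetData F.S (F.Q η) ((k : Fin (r + 1)) → MT E (3 + k + 1)) where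
  closed := F.isClosed_Q η
  c := F.jetP (r + 1)
  c_cont := (F.continuous_jetP (r + 1)).continuousOn
  N := lamCLM (E := E) (r + 1)
  deriv _ _ _ _ hf := F.hasDerivAt_jetP hr hf
  S₀ := brack₀ E
  ρ := structRho η r
  bracket := by
    intro p hp j hj z u
    have hpt := F.mem_target j hj
    beta_reduce
    rw [(F.Y_eventuallyEq j hpt).fderiv_eq, F.Y_eq j hpt, F.jetP_eq (r + 1) j hj]
    refine g.bracket_struct j.2 r hpt hη hs ?_ z u
    intro u v
    have h1 : F.form p = η := hp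
    rw [← h1, F.form_apply j hj]
  H := skew η
  ctl_mem f z t hQ hf := F.ctl_mem_skew f z t hQ hf
  span := hspan

/-- If the complete controls span the space of all admissible controls, then all admissible
controls are complete. -/
theorem exists_isFlow [T2Space P] {r : ℕ} (hr : g.IsSymmetricOfOrder r)
    {η : E →L[ℝ] E →L[ℝ] ℝ} (hη : ∀ u, (∀ v, η u v = 0) → u = 0) (hs : ∀ u v, η u v = η v u)
    (hspan : skew η ≤ Submodule.span ℝ
      {u | ∃ Φ : P → ℝ → P, ParSpace.IsFlow F.S (F.Q η) u Φ}) {z : E × (E →L[ℝ] E)}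
    (hz : z ∈ skew η) : ∃ Φ : P → ℝ → P, ParSpace.IsFlow F.S (F.Q η) z Φ := by
  have : CompleteSpace E := FiniteDimensional.complete ℝ E
  exact (F.jetData hr.succ hη hs hspan).exists_isFlow (F.preserves hz)

theorem exists_global [T2Space P] {r : ℕ} (hr : g.IsSymmetricOfOrder r)
    {η : E →L[ℝ] E →L[ℝ] ℝ} (hη : ∀ u, (∀ v, η u v = 0) → u = 0) (hs : ∀ u v, η u v = η v u)
    (hspan : skew η ≤ Submodule.span ℝ
      {u | ∃ Φ : P → ℝ → P, ParSpace.IsFlow F.S (F.Q η) u Φ}) {z : E × (E →L[ℝ] E)}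
    (hz : z ∈ skew η) {p : P} (hp : p ∈ F.Q η) :
    ∃ f : ℝ → P, f 0 = p ∧ ∀ t, f t ∈ F.Q η ∧ F.S.Ctl f z t := by
  obtain ⟨Φ, hΦ⟩ := F.exists_isFlow hr hη hs hspan hz
  exact ⟨Φ p, hΦ.zero p hp, fun t => ⟨hΦ.mem p hp t, hΦ.ctl p hp t⟩⟩

end FrameSpec

end Pool.Agent.Lib.MP_611141_gt
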