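import Mathlib

/-!
Spaces with charts and a family of vector fields depending linearly on a control parameter:
controlled paths, uniqueness, local flows, joint continuity of complete flows.
-/

open Set Filter Metric
open scoped Topology

noncomputable section

namespace Pool.Agent.Lib.MP_611141_gt

/-- A topological space with charts to `V` and vector fields `Y z`, `z ∈ 𝔤`. -/
structure ParSpace (P J V 𝔤 : Type*) [TopologicalSpace P] [NormedAddCommGroup V] [NormedSpace ℝ V]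
    [NormedAddCommGroup 𝔤] [NormedSpace ℝ 𝔤] where
  κ : J → OpenPartialHomeomorph P V
  cover : ∀ p, ∃ j, p ∈ (κ j).source
  Y : J → V → 𝔤 →L[ℝ] V
  smooth : ∀ j, ContDiffOn ℝ 2 (Y j) (κ j).target
  compat : ∀ i j p, p ∈ (κ i).source → p ∈ (κ j).source →
    ∃ D : V →L[ℝ] V, HasFDerivAt (κ j ∘ (κ i).symm) D (κ i p) ∧
      ∀ z, D (Y i (κ i p) z) = Y j (κ j p) z

variable {P J V 𝔤 : Type*} [TopologicalSpace P] [NormedAddCommGroup V] [NormedSpace ℝ V]
    [NormedAddCommGroup 𝔤] [NormedSpace ℝ 𝔤]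

/-- induction on preconnected sets for locally constant properties -/
theorem preconnected_induction {I : Set ℝ} (hI : IsPreconnected I) (Q : ℝ → Prop)
    (h : ∀ t ∈ I, ∀ᶠ s in 𝓝[I] t, (Q t ↔ Q s)) {t₀ t₁ : ℝ} (h₀ : t₀ ∈ I) (h₁ : t₁ ∈ I)
    (hQ : Q t₀) : Q t₁ := by
  have := hI.induction₂ (fun a b => (Q a ↔ Q b)) (fun x hx => h x hx)
    (fun _ _ _ _ _ _ h1 h2 => h1.trans h2) (fun _ _ _ _ h1 => h1.symm) h₀ h₁
  exact this.1 hQ

namespace ParSpace

variable (S : ParSpace P J V 𝔤)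

/-- The path `f` has control `z` at time `t`. -/
def Ctl (f : ℝ → P) (z : 𝔤) (t : ℝ) : Prop :=
  ContinuousAt f t ∧ ∀ j, f t ∈ (S.κ j).source →
    HasDerivAt (fun s => S.κ j (f s)) (S.Y j (S.κ j (f t)) z) t

variable {S}

theorem Ctl.of_chart {f : ℝ → P} {z : 𝔤} {t : ℝ} (hc : ContinuousAt f t) {i : J}
    (hi : f t ∈ (S.κ i).source)
    (hd : HasDerivAt (fun s => S.κ i (f s)) (S.Y i (S.κ i (f t)) z) t) : S.Ctl f z t := by
  refine ⟨hc, fun j hj => ?_⟩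
  obtain ⟨D, hD, hY⟩ := S.compat i j (f t) hi hj
  have h1 : HasDerivAt ((S.κ j ∘ (S.κ i).symm) ∘ fun s => S.κ i (f s))
      (D (S.Y i (S.κ i (f t)) z)) t := hD.comp_hasDerivAt t hd
  rw [hY] at h1
  refine h1.congr_of_eventuallyEq ?_
  have h2 : ∀ᶠ s in 𝓝 t, f s ∈ (S.κ i).source :=
    hc.eventually ((S.κ i).open_source.mem_nhds hi)
  filter_upwards [h2] with s hs
  simp only [Function.comp_apply, (S.κ i).left_inv hs]

theorem Ctl.congr {f g : ℝ → P} {z : 𝔤} {t : ℝ} (h : S.Ctl f z t) (hfg : f =ᶠ[𝓝 t] g) :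
    S.Ctl g z t := by
  have ht : f t = g t := hfg.eq_of_nhds
  refine ⟨h.1.congr hfg, fun j hj => ?_⟩
  rw [← ht] at hj ⊢
  refine (h.2 j hj).congr_of_eventuallyEq ?_
  filter_upwards [hfg] with s hs
  rw [hs]

theorem Ctl.comp {f : ℝ → P} {z : 𝔤} {a : ℝ → ℝ} {a' s : ℝ} (h : S.Ctl f z (a s))
    (ha : HasDerivAt a a' s) : S.Ctl (f ∘ a) (a' • z) s := by
  refine ⟨ContinuousAt.comp h.1 ha.continuousAt, fun j hj => ?_⟩
  have h1 := (h.2 j hj).scomp s ha
  rw [map_smul]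
  exact h1

theorem Ctl.comp_add {f : ℝ → P} {z : 𝔤} {c s : ℝ} (h : S.Ctl f z (s + c)) :
    S.Ctl (fun s => f (s + c)) z s := by
  have := h.comp (a := fun s => s + c) (a' := 1) (s := s) ((hasDerivAt_id s).add_const c)
  rw [one_smul] at this
  exact this

theorem Ctl.comp_neg {f : ℝ → P} {z : 𝔤} {s : ℝ} (h : S.Ctl f z (-s)) :
    S.Ctl (fun s => f (-s)) (-z) s := by
  have := h.comp (a := fun s => -s) (a' := -1) (s := s) (hasDerivAt_neg s)
  simpa [Function.comp_def] using this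

theorem Ctl.comp_mul {f : ℝ → P} {z : 𝔤} {c s : ℝ} (h : S.Ctl f z (c * s)) :
    S.Ctl (fun s => f (c * s)) (c • z) s := by
  have := h.comp (a := fun s => c * s) (a' := c) (s := s)
    (by simpa using (hasDerivAt_id s).const_mul c)
  simpa [Function.comp_def] using this

theorem ctl_const (p : P) (t : ℝ) : S.Ctl (fun _ => p) 0 t := by
  refine ⟨continuousAt_const, fun j hj => ?_⟩
  rw [map_zero]
  exact hasDerivAt_const _ _

/-- the vector field in a chart is `C²` -/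
theorem contDiffAt_Y (j : J) {x : V} (hx : x ∈ (S.κ j).target) (u : 𝔤) :
    ContDiffAt ℝ 2 (fun y => S.Y j y u) x := by
  have h := (S.smooth j).contDiffAt ((S.κ j).open_target.mem_nhds hx)
  exact h.clm_apply contDiffAt_const

theorem contDiffAt_Y_one (j : J) {x : V} (hx : x ∈ (S.κ j).target) (u : 𝔤) :
    ContDiffAt ℝ 1 (fun y => S.Y j y u) x := (contDiffAt_Y j hx u).of_le (by norm_num)

/-- Local uniqueness of constant control paths. -/
theorem eventually_eq_of_ctl {f g : ℝ → P} {u : 𝔤} {t : ℝ}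
    (hf : ∀ᶠ s in 𝓝 t, S.Ctl f u s) (hg : ∀ᶠ s in 𝓝 t, S.Ctl g u s) (h : f t = g t) :
    f =ᶠ[𝓝 t] g := by
  obtain ⟨j, hj⟩ := S.cover (f t)
  obtain ⟨K, U, hU, hK⟩ :=
    (contDiffAt_Y_one (S := S) j ((S.κ j).map_source hj) u).exists_lipschitzOnWith
  have hgj : g t ∈ (S.κ j).source := h ▸ hj
  have hfc : ∀ᶠ s in 𝓝 t, f s ∈ (S.κ j).source :=
    hf.self_of_nhds.1.eventually ((S.κ j).open_source.mem_nhds hj)
  have hgc : ∀ᶠ s in 𝓝 t, g s ∈ (S.κ j).source :=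
    hg.self_of_nhds.1.eventually ((S.κ j).open_source.mem_nhds hgj)
  have hfU : ∀ᶠ s in 𝓝 t, S.κ j (f s) ∈ U :=
    ((hf.self_of_nhds.2 j hj).continuousAt).eventually hU
  have hgU : ∀ᶠ s in 𝓝 t, S.κ j (g s) ∈ U := by
    refine ((hg.self_of_nhds.2 j hgj).continuousAt).eventually ?_
    simp only [← h]
    exact hU
  have key : (fun s => S.κ j (f s)) =ᶠ[𝓝 t] fun s => S.κ j (g s) := by
    refine ODE_solution_unique_of_eventually (v := fun _ y => S.Y j y u) (s := fun _ => U) (K := K)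
      (Eventually.of_forall fun _ => hK) ?_ ?_ (by simp only [h])
    · filter_upwards [hf, hfc, hfU] with s h1 h2 h3
      exact ⟨h1.2 j h2, h3⟩
    · filter_upwards [hg, hgc, hgU] with s h1 h2 h3
      exact ⟨h1.2 j h2, h3⟩
  filter_upwards [key, hfc, hgc] with s h1 h2 h3
  exact (S.κ j).injOn h2 h3 h1

/-- Uniqueness of constant control paths on open intervals. -/
theorem ctl_unique [T2Space P] {f g : ℝ → P} {u : 𝔤} {I : Set ℝ} (hI : IsPreconnected I)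
    (hIo : IsOpen I) (hf : ∀ t ∈ I, S.Ctl f u t) (hg : ∀ t ∈ I, S.Ctl g u t) {t₀ : ℝ}
    (h₀ : t₀ ∈ I) (h : f t₀ = g t₀) : EqOn f g I := by
  intro t ht
  refine preconnected_induction hI (fun t => f t = g t) ?_ h₀ ht h
  intro s hs
  have hmem : ∀ᶠ r in 𝓝 s, r ∈ I := hIo.mem_nhds hs
  refine Filter.Eventually.filter_mono nhdsWithin_le_nhds ?_
  by_cases he : f s = g s
  · have := eventually_eq_of_ctl (S := S) (hmem.mono fun r hr => hf r hr)
      (hmem.mono fun r hr => hg r hr) he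
    filter_upwards [this] with r hr
    simp [he, hr]
  · have h1 : ∀ᶠ r in 𝓝 s, f r ≠ g r := by
      have hopen : IsOpen {pq : P × P | pq.1 ≠ pq.2} := isOpen_ne_fun continuous_fst continuous_snd
      have hc : ContinuousAt (fun r => (f r, g r)) s := (hf s hs).1.prodMk (hg s hs).1
      exact hc.eventually (hopen.mem_nhds he)
    filter_upwards [h1] with r hr
    simp [he, hr]

/-- Local flow in a Banach space, with values in a prescribed neighbourhood. -/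
theorem local_flow_vec [CompleteSpace V] {X : V → V} {x₀ : V} (hX : ContDiffAt ℝ 1 X x₀)
    {U : Set V} (hU : U ∈ 𝓝 x₀) :
    ∃ N ∈ 𝓝 x₀, ∃ δ > (0 : ℝ), ∃ α : V × ℝ → V, ContinuousOn α (N ×ˢ Ioo (-δ) δ) ∧
      ∀ x ∈ N, α (x, 0) = x ∧ ∀ t ∈ Ioo (-δ) δ,
        HasDerivAt (fun s => α (x, s)) (X (α (x, t))) t ∧ α (x, t) ∈ U := by
  obtain ⟨ε, hε, a, r, L, K, hr, hpl⟩ := IsPicardLindelof.of_contDiffAt_one hX
  obtain ⟨α, hα1, hα2⟩ := (hpl 0).exists_forall_mem_closedBall_eq_hasDerivWithinAt_continuousOn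
  have hmem : (closedBall x₀ (r : ℝ)) ×ˢ Icc (0 - ε) (0 + ε) ∈ 𝓝 (x₀, (0 : ℝ)) := by
    refine prod_mem_nhds (closedBall_mem_nhds x₀ hr) (Icc_mem_nhds (by linarith) (by linarith))
  have hcont : ContinuousAt α (x₀, 0) := hα2.continuousAt hmem
  have hval : α (x₀, 0) = x₀ := (hα1 x₀ (mem_closedBall_self r.2)).1
  have hpre : α ⁻¹' U ∈ 𝓝 (x₀, (0 : ℝ)) := by
    apply hcont
    rw [hval]
    exact hU
  have hboth := Filter.inter_mem hmem hpre
  rw [nhds_prod_eq, Filter.mem_prod_iff] at hboth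
  obtain ⟨N, hN, T, hT, hNT⟩ := hboth
  obtain ⟨δ, hδ, hδT⟩ := Metric.mem_nhds_iff.1 hT
  rw [Real.ball_eq_Ioo, zero_sub, zero_add] at hδT
  refine ⟨N, hN, δ, hδ, α, hα2.mono ?_, ?_⟩
  · rintro ⟨x, t⟩ ⟨hx, ht⟩
    exact (hNT (mk_mem_prod hx (hδT ht))).1
  · intro x hx
    have h0 : (0 : ℝ) ∈ Ioo (-δ) δ := ⟨by linarith, hδ⟩
    have hx' : x ∈ closedBall x₀ (r : ℝ) := (hNT (mk_mem_prod hx (hδT h0))).1.1
    refine ⟨(hα1 x hx').1, fun t ht => ⟨?_, (hNT (mk_mem_prod hx (hδT ht))).2⟩⟩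
    have ht2 : t ∈ Icc (0 - ε) (0 + ε) := (hNT (mk_mem_prod hx (hδT ht))).1.2
    refine ((hα1 x hx').2 t ht2).hasDerivAt ?_
    have hsub : Ioo (-δ) δ ⊆ Icc (0 - ε) (0 + ε) := fun s hs =>
      (hNT (mk_mem_prod hx (hδT hs))).1.2
    exact Filter.mem_of_superset (Ioo_mem_nhds ht.1 ht.2) hsub

/-- Local flow on `P`. -/
theorem local_flow [CompleteSpace V] (S : ParSpace P J V 𝔤) (p : P) (u : 𝔤) :
    ∃ N ∈ 𝓝 p, ∃ δ > (0 : ℝ), ∃ Ψ : P × ℝ → P, ContinuousOn Ψ (N ×ˢ Ioo (-δ) δ) ∧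
      ∀ g ∈ N, Ψ (g, 0) = g ∧ ∀ t ∈ Ioo (-δ) δ, S.Ctl (fun s => Ψ (g, s)) u t := by
  obtain ⟨j, hj⟩ := S.cover p
  have hx := (S.κ j).map_source hj
  obtain ⟨N, hN, δ, hδ, α, hα, hα'⟩ := local_flow_vec (contDiffAt_Y_one (S := S) j hx u)
    ((S.κ j).open_target.mem_nhds hx)
  refine ⟨(S.κ j).source ∩ (S.κ j) ⁻¹' N, ?_, δ, hδ, fun q => (S.κ j).symm (α (S.κ j q.1, q.2)),
    ?_, ?_⟩
  · exact Filter.inter_mem ((S.κ j).open_source.mem_nhds hj) ((S.κ j).continuousAt hj hN)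
  · refine ContinuousOn.comp (t := (S.κ j).target) (S.κ j).continuousOn_symm ?_ ?_
    · refine ContinuousOn.comp (t := N ×ˢ Ioo (-δ) δ) hα ?_ ?_
      · refine ContinuousOn.prodMk ?_ continuousOn_snd
        exact (S.κ j).continuousOn.comp continuousOn_fst fun q hq => hq.1.1
      · rintro ⟨g, t⟩ ⟨⟨_, hg⟩, ht⟩
        exact ⟨hg, ht⟩
    · rintro ⟨g, t⟩ ⟨⟨_, hg⟩, ht⟩
      exact ((hα' _ hg).2 t ht).2
  · rintro g ⟨hg1, hg2⟩
    refine ⟨?_, fun t ht => ?_⟩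
    · simp only [(hα' _ hg2).1, (S.κ j).left_inv hg1]
    · have htar := ((hα' _ hg2).2 t ht).2
      have hder := ((hα' _ hg2).2 t ht).1
      have hsrc : (S.κ j).symm (α (S.κ j g, t)) ∈ (S.κ j).source := (S.κ j).map_target htar
      refine Ctl.of_chart (i := j) ?_ hsrc ?_
      · exact ((S.κ j).continuousAt_symm htar).comp (f := fun s => α (S.κ j g, s))
          hder.continuousAt
      · have hev : ∀ᶠ s in 𝓝 t, S.κ j ((S.κ j).symm (α (S.κ j g, s))) = α (S.κ j g, s) := by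
          filter_upwards [Ioo_mem_nhds ht.1 ht.2] with s hs
          exact (S.κ j).right_inv ((hα' _ hg2).2 s hs).2
        have h1 : S.κ j ((S.κ j).symm (α (S.κ j g, t))) = α (S.κ j g, t) :=
          (S.κ j).right_inv htar
        rw [h1]
        exact hder.congr_of_eventuallyEq hev

end ParSpace

end Pool.Agent.Lib.MP_611141_gt
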