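import Mathlib
import Pool.Agent.Lib.MP_611141_gt.Defs
import Pool.Agent.Lib.MP_611141_gt.ParSpace

/-!
# Specification of the space of frames

`P` is the space of pairs `(x, A)`, `x : M`, `A : E →L T_x M`, with the standard fields
`Y (w, B) (x, A) = (A w, A B - Γ (A w) A)` in every chart of `M`.
-/

set_option autoImplicit false

open Set Topology Filter

namespace Pool.Agent.Lib.MP_611141_gt

/-- What is needed of the space of frames of `(M, g)`. -/
structure FrameSpec {E M : Type} [NormedAddCommGroup E] [NormedSpace ℝ E] [TopologicalSpace M]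
    [ChartedSpace E M] (g : PseudoMetric E M) (P : Type) [TopologicalSpace P] where
  S : ParSpace P (atlas E M) (E × (E →L[ℝ] E)) (E × (E →L[ℝ] E))
  π : P → M
  π_cont : Continuous π
  src : ∀ j p, p ∈ (S.κ j).source ↔ π p ∈ j.1.source
  tgt : ∀ j y, y ∈ (S.κ j).target ↔ y.1 ∈ j.1.target
  fst : ∀ j p, p ∈ (S.κ j).source → (S.κ j p).1 = j.1 (π p)
  snd : ∀ i j p, p ∈ (S.κ i).source → p ∈ (S.κ j).source →
    (S.κ j p).2 = (fderiv ℝ (j.1 ∘ i.1.symm) (i.1 (π p))).comp (S.κ i p).2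
  Y_fst : ∀ j (y : E × (E →L[ℝ] E)) w B, y.1 ∈ j.1.target → (S.Y j y (w, B)).1 = y.2 w
  Y_snd : ∀ j (y : E × (E →L[ℝ] E)) w B u, y.1 ∈ j.1.target →
    (S.Y j y (w, B)).2 u = y.2 (B u) - g.Γ j.1 y.1 (y.2 w) (y.2 u)

end Pool.Agent.Lib.MP_611141_gt
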