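import Pool.Agent.Lib.MP_611141_gt.Jet
import Pool.Agent.Lib.MP_611141_gt.Jets
import Pool.Agent.Lib.MP_611141_gt.FrameSpec

/-!
The pulled back metric and the jet of the curvature as functions on the space of frames.
-/

set_option autoImplicit false
set_option maxSynthPendingDepth 3

open Set Filter Metric Asymptotics Function
open scoped Topology NNReal ContDiff Manifold

noncomputable section

namespace Pool.Agent.Lib.MP_611141_gt

section general

variable {E : Type*} [NormedAddCommGroup E] [NormedSpace ℝ E]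

/-- Differentiability of a family of linear maps from pointwise differentiability. -/
theorem hasDerivAt_clm_of_apply [FiniteDimensional ℝ E] {F : Type*} [NormedAddCommGroup F]
    [NormedSpace ℝ F] {L : ℝ → E →L[ℝ] F} {L' : E →L[ℝ] F} {t : ℝ}
    (h : ∀ v, HasDerivAt (fun s => L s v) (L' v) t) : HasDerivAt L L' t := by
  set b := Module.finBasis ℝ E with hb
  have key : ∀ T : E →L[ℝ] F, T = ∑ i, (ContinuousLinearMap.smulRightL ℝ E F
      (LinearMap.toContinuousLinearMap (b.coord i))) (T (b i)) := by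
    intro T
    ext x
    conv_lhs => rw [← b.sum_repr x, map_sum]
    rw [sum_apply]
    refine Finset.sum_congr rfl fun i _ => ?_
    rw [map_smul]
    rfl
  have h1 : HasDerivAt (fun s => ∑ i, (ContinuousLinearMap.smulRightL ℝ E F
      (LinearMap.toContinuousLinearMap (b.coord i))) (L s (b i)))
      (∑ i, (ContinuousLinearMap.smulRightL ℝ E F
      (LinearMap.toContinuousLinearMap (b.coord i))) (L' (b i))) t := by
    refine HasDerivAt.fun_sum fun i _ => ?_
    exact (ContinuousLinearMap.hasFDerivAt _).comp_hasDerivAt t (h (b i))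
  rw [← key] at h1
  refine h1.congr_of_eventuallyEq (Eventually.of_forall fun s => ?_)
  exact key (L s)

/-- The pull back of a bilinear form. -/
def pullForm (G : E → E →L[ℝ] E →L[ℝ] ℝ) (q : E × (E →L[ℝ] E)) : E →L[ℝ] E →L[ℝ] ℝ :=
  flipCLM ((flipCLM ((G q.1).comp q.2)).comp q.2)

theorem pullForm_apply (G : E → E →L[ℝ] E →L[ℝ] ℝ) (q : E × (E →L[ℝ] E)) (u v : E) :
    pullForm G q u v = G q.1 (q.2 u) (q.2 v) := rfl

theorem continuousAt_pullForm {G : E → E →L[ℝ] E →L[ℝ] ℝ} {q : E × (E →L[ℝ] E)}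
    (hG : ContinuousAt G q.1) : ContinuousAt (pullForm G) q := by
  have h1 : ContinuousAt (fun q : E × (E →L[ℝ] E) => G q.1) q :=
    ContinuousAt.comp (f := fun q : E × (E →L[ℝ] E) => q.1) hG continuousAt_fst
  have h2 : ContinuousAt (fun q : E × (E →L[ℝ] E) => (G q.1).comp q.2) q :=
    h1.clm_comp continuousAt_snd
  have h3 : ContinuousAt (fun q : E × (E →L[ℝ] E) => flipCLM ((G q.1).comp q.2)) q :=
    flipCLM.continuous.continuousAt.comp h2
  exact flipCLM.continuous.continuousAt.comp (h3.clm_comp continuousAt_snd)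

/-- The action of an endomorphism on bilinear forms. -/
def adForm (B : E →L[ℝ] E) : (E →L[ℝ] E →L[ℝ] ℝ) →L[ℝ] (E →L[ℝ] E →L[ℝ] ℝ) :=
  (ContinuousLinearMap.compL ℝ E E (E →L[ℝ] ℝ)).flip B
    + (flipCLM.comp ((ContinuousLinearMap.compL ℝ E E (E →L[ℝ] ℝ)).flip B)).comp flipCLM

theorem adForm_apply (B : E →L[ℝ] E) (η : E →L[ℝ] E →L[ℝ] ℝ) (u v : E) :
    adForm B η u v = η (B u) v + η u (B v) := rfl

/-- The controls with skew second component. -/
def skew (η : E →L[ℝ] E →L[ℝ] ℝ) : Submodule ℝ (E × (E →L[ℝ] E)) where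
  carrier := {z | adForm z.2 η = 0}
  add_mem' := by
    intro a b ha hb
    rw [mem_ofPred_eq] at *
    ext u v
    have h1 := congrArg (fun T => T u v) ha
    have h2 := congrArg (fun T => T u v) hb
    simp only [adForm_apply] at h1 h2 ⊢
    simp only [Prod.snd_add, add_apply, map_add, zero_apply] at h1 h2 ⊢
    linarith
  zero_mem' := by
    rw [mem_ofPred_eq]
    ext u v
    simp [adForm_apply]
  smul_mem' := by
    intro c a ha
    rw [mem_ofPred_eq] at *
    ext u v
    have h1 := congrArg (fun T => T u v) ha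
    simp only [adForm_apply] at h1 ⊢
    simp only [Prod.smul_snd, smul_apply, map_smul, smul_eq_mul,
      zero_apply] at h1 ⊢
    linear_combination c * h1

theorem mem_skew {η : E →L[ℝ] E →L[ℝ] ℝ} {z : E × (E →L[ℝ] E)} :
    z ∈ skew η ↔ ∀ u v, η (z.2 u) v + η u (z.2 v) = 0 := by
  constructor
  · intro h u v
    exact congrArg (fun T => T u v) (show adForm z.2 η = 0 from h)
  · intro h
    change adForm z.2 η = 0
    ext u v
    exact h u v

end general

namespace FrameSpec

variable {E M : Type} [NormedAddCommGroup E] [NormedSpace ℝ E]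
  [TopologicalSpace M] [ChartedSpace E M] {g : PseudoMetric E M} {P : Type} [TopologicalSpace P]
  (F : FrameSpec g P)

theorem mem_target (j : atlas E M) {p : P} (hp : p ∈ (F.S.κ j).source) :
    (F.S.κ j p).1 ∈ j.1.target := (F.tgt j _).1 ((F.S.κ j).map_source hp)

theorem Y_eq (j : atlas E M) {y : E × (E →L[ℝ] E)} (hy : y.1 ∈ j.1.target) :
    F.S.Y j y = g.frameY j.1 y := by
  refine ContinuousLinearMap.ext fun z => ?_
  obtain ⟨w, B⟩ := z
  rw [g.frameY_apply]
  refine Prod.ext (F.Y_fst j y w B hy) (ContinuousLinearMap.ext fun u => ?_)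
  rw [F.Y_snd j y w B u hy]
  simp only [sub_apply, ContinuousLinearMap.comp_apply, g.chrCLM_eq]

theorem Y_eventuallyEq (j : atlas E M) {y : E × (E →L[ℝ] E)} (hy : y.1 ∈ j.1.target) :
    F.S.Y j =ᶠ[𝓝 y] g.frameY j.1 := by
  have h1 : ∀ᶠ q : E × (E →L[ℝ] E) in 𝓝 y, q.1 ∈ j.1.target :=
    (continuousAt_fst (p := y)).eventually (j.1.open_target.mem_nhds hy)
  filter_upwards [h1] with q hq
  exact F.Y_eq j hq

theorem fst_mem_overlap (i j : atlas E M) {p : P} (hi : p ∈ (F.S.κ i).source)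
    (hj : p ∈ (F.S.κ j).source) : (F.S.κ i p).1 ∈ overlap i.1 j.1 := by
  rw [F.fst i p hi]
  exact mem_overlap ((F.src i p).1 hi) ((F.src j p).1 hj)

theorem κ_eq (i j : atlas E M) {p : P} (hi : p ∈ (F.S.κ i).source)
    (hj : p ∈ (F.S.κ j).source) : F.S.κ j p = liftT (j.1 ∘ i.1.symm) (F.S.κ i p) := by
  refine Prod.ext ?_ ?_
  · rw [F.fst j p hj]
    simp only [liftT, comp_apply]
    rw [F.fst i p hi, i.1.left_inv ((F.src i p).1 hi)]
  · rw [F.snd i j p hi hj]
    simp only [liftT]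
    rw [F.fst i p hi]

/-- A chart around `p`. -/
def chartOf (p : P) : atlas E M := (F.S.cover p).choose

theorem mem_chartOf (p : P) : p ∈ (F.S.κ (F.chartOf p)).source := (F.S.cover p).choose_spec

/-- The pulled back metric. -/
def form (p : P) : E →L[ℝ] E →L[ℝ] ℝ :=
  pullForm (g.G (F.chartOf p).1) (F.S.κ (F.chartOf p) p)

theorem form_eq (j : atlas E M) {p : P} (hp : p ∈ (F.S.κ j).source) :
    F.form p = pullForm (g.G j.1) (F.S.κ j p) := by
  rw [F.κ_eq (F.chartOf p) j (F.mem_chartOf p) hp]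
  ext u v
  have h := g.metricRel (F.chartOf p).2 j.2 _ (F.fst_mem_overlap _ j (F.mem_chartOf p) hp)
  simp only [form, pullForm_apply, liftT, ContinuousLinearMap.comp_apply]
  exact (h _ _).symm

theorem form_apply (j : atlas E M) {p : P} (hp : p ∈ (F.S.κ j).source) (u v : E) :
    F.form p u v = g.G j.1 (F.S.κ j p).1 ((F.S.κ j p).2 u) ((F.S.κ j p).2 v) := by
  rw [F.form_eq j hp, pullForm_apply]

theorem continuous_form : Continuous F.form := by
  rw [continuous_iff_continuousAt]
  intro p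
  have hp := F.mem_chartOf p
  have h1 : ContinuousAt (fun q => pullForm (g.G (F.chartOf p).1) (F.S.κ (F.chartOf p) q)) p := by
    refine ContinuousAt.comp (g := pullForm (g.G (F.chartOf p).1)) ?_
      ((F.S.κ (F.chartOf p)).continuousAt hp)
    exact continuousAt_pullForm
      ((g.smooth _ (F.chartOf p).2 _ (F.mem_target _ hp)).continuousAt)
  refine h1.congr ?_
  filter_upwards [(F.S.κ (F.chartOf p)).open_source.mem_nhds hp] with q hq
  exact (F.form_eq _ hq).symm

/-- The path in a chart. -/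
theorem hasDerivAt_κ {f : ℝ → P} {z : E × (E →L[ℝ] E)} {t : ℝ} (hf : F.S.Ctl f z t)
    (j : atlas E M) (hj : f t ∈ (F.S.κ j).source) :
    HasDerivAt (fun s => F.S.κ j (f s)) (g.frameY j.1 (F.S.κ j (f t)) z) t := by
  have := hf.2 j hj
  rwa [F.Y_eq j (F.mem_target j hj)] at this

/-- Frames with a given pulled back metric. -/
def Q (η : E →L[ℝ] E →L[ℝ] ℝ) : Set P := {p | F.form p = η}

theorem isClosed_Q (η : E →L[ℝ] E →L[ℝ] ℝ) : IsClosed (F.Q η) :=
  isClosed_eq F.continuous_form continuous_const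

variable [FiniteDimensional ℝ E]

theorem hasDerivAt_form {f : ℝ → P} {z : E × (E →L[ℝ] E)} {t : ℝ} (hf : F.S.Ctl f z t) :
    HasDerivAt (fun s => F.form (f s)) (adForm z.2 (F.form (f t))) t := by
  obtain ⟨j, hj⟩ := F.S.cover (f t)
  refine hasDerivAt_clm_of_apply fun u => hasDerivAt_clm_of_apply fun v => ?_
  have h1 := hasDerivAt_pullForm j.1.open_target (g.isMetricOn j.2)
    (p := fun s => F.S.κ j (f s)) (F.mem_target j hj) (F.hasDerivAt_κ hf j hj) u v
  rw [adForm_apply, F.form_apply j hj, F.form_apply j hj]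
  refine h1.congr_of_eventuallyEq ?_
  have h2 : ∀ᶠ s in 𝓝 t, f s ∈ (F.S.κ j).source :=
    hf.1.eventually ((F.S.κ j).open_source.mem_nhds hj)
  filter_upwards [h2] with s hs
  exact F.form_apply j hs u v

theorem ctl_mem_skew {η : E →L[ℝ] E →L[ℝ] ℝ} (f : ℝ → P) (z : E × (E →L[ℝ] E)) (t : ℝ)
    (hQ : ∀ᶠ s in 𝓝 t, f s ∈ F.Q η) (hf : F.S.Ctl f z t) : z ∈ skew η := by
  have h1 := F.hasDerivAt_form hf
  have h2 : HasDerivAt (fun s => F.form (f s)) 0 t := by
    refine (hasDerivAt_const t η).congr_of_eventuallyEq ?_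
    filter_upwards [hQ] with s hs
    exact hs
  have h3 := h1.unique h2
  have h4 : F.form (f t) = η := hQ.self_of_nhds
  rw [h4] at h3
  exact h3

/-- Constant controls with skew second component preserve `Q η`. -/
theorem preserves {η : E →L[ℝ] E →L[ℝ] ℝ} {z : E × (E →L[ℝ] E)} (hz : z ∈ skew η) :
    ParSpace.Preserves F.S (F.Q η) z := by
  intro f a b hf s hs hsQ t ht
  have hz' : adForm z.2 η = 0 := hz
  have h1 := ParSpace.gronwall_two_sided (f := fun r => F.form (f r) - η)
    (f' := fun r => adForm z.2 (F.form (f r) - η)) (K := ‖adForm (E := E) z.2‖) (a := a) (b := b)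
    (fun r hr => by
      rw [map_sub, hz', sub_zero]
      exact (F.hasDerivAt_form (hf r hr)).sub_const η)
    (fun r _ => (adForm z.2).le_opNorm _) s hs t ht
  have h2 : F.form (f s) - η = 0 := by
    rw [sub_eq_zero]
    exact hsQ
  rw [h2, norm_zero, mul_zero] at h1
  have h3 : F.form (f t) - η = 0 := norm_le_zero_iff.1 h1
  exact sub_eq_zero.1 h3

variable [IsManifold 𝓘(ℝ, E) ∞ M]

/-- The jet of the curvature as a function on the space of frames. -/
def jetP (r : ℕ) (p : P) : (k : Fin r) → MT E (3 + k + 1) :=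
  g.jet (F.chartOf p).1 r (F.S.κ (F.chartOf p) p)

theorem jetP_eq (r : ℕ) (j : atlas E M) {p : P} (hp : p ∈ (F.S.κ j).source) :
    F.jetP r p = g.jet j.1 r (F.S.κ j p) := by
  rw [F.κ_eq (F.chartOf p) j (F.mem_chartOf p) hp]
  exact (g.jet_natural (F.chartOf p).2 j.2 r
    (F.fst_mem_overlap _ j (F.mem_chartOf p) hp)).symm

theorem continuous_jetP (r : ℕ) : Continuous (F.jetP r) := by
  rw [continuous_iff_continuousAt]
  intro p
  have hp := F.mem_chartOf p
  have h1 : ContinuousAt (fun q => g.jet (F.chartOf p).1 r (F.S.κ (F.chartOf p) q)) p := by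
    refine ContinuousAt.comp (g := g.jet (F.chartOf p).1 r) ?_
      ((F.S.κ (F.chartOf p)).continuousAt hp)
    exact g.continuousAt_jet (F.chartOf p).2 r (F.mem_target _ hp)
  refine h1.congr ?_
  filter_upwards [(F.S.κ (F.chartOf p)).open_source.mem_nhds hp] with q hq
  exact (F.jetP_eq r _ hq).symm

theorem hasDerivAt_jetP {r : ℕ} (hr : g.IsSymmetricOfOrder r) {f : ℝ → P}
    {z : E × (E →L[ℝ] E)} {t : ℝ} (hf : F.S.Ctl f z t) :
    HasDerivAt (fun s => F.jetP r (f s)) (lamCLM (E := E) r z (F.jetP r (f t))) t := by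
  obtain ⟨j, hj⟩ := F.S.cover (f t)
  have h1 := g.hasDerivAt_jet j.2 hr (p := fun s => F.S.κ j (f s)) (F.mem_target j hj)
    (F.hasDerivAt_κ hf j hj)
  rw [F.jetP_eq r j hj]
  refine h1.congr_of_eventuallyEq ?_
  have h2 : ∀ᶠ s in 𝓝 t, f s ∈ (F.S.κ j).source :=
    hf.1.eventually ((F.S.κ j).open_source.mem_nhds hj)
  filter_upwards [h2] with s hs
  exact F.jetP_eq r j hs

omit [FiniteDimensional ℝ E] [IsManifold 𝓘(ℝ, E) ∞ M] in
/-- The frames in `Q η` are injective if `η` is nondegenerate. -/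
theorem injective_of_mem_Q {η : E →L[ℝ] E →L[ℝ] ℝ} (hη : ∀ u, (∀ v, η u v = 0) → u = 0) {p : P}
    (hp : p ∈ F.Q η) (j : atlas E M) (hj : p ∈ (F.S.κ j).source) :
    Injective (F.S.κ j p).2 := by
  rw [injective_iff_map_eq_zero]
  intro u hu
  refine hη u fun v => ?_
  have h1 : F.form p = η := hp
  rw [← h1, F.form_apply j hj, hu, map_zero]
  rfl

omit [IsManifold 𝓘(ℝ, E) ∞ M] in
theorem surjective_of_mem_Q {η : E →L[ℝ] E →L[ℝ] ℝ} (hη : ∀ u, (∀ v, η u v = 0) → u = 0) {p : P}
    (hp : p ∈ F.Q η) (j : atlas E M) (hj : p ∈ (F.S.κ j).source) :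
    Surjective (F.S.κ j p).2 := by
  have h := F.injective_of_mem_Q hη hp j hj
  exact (LinearMap.injective_iff_surjective (f := ((F.S.κ j p).2 : E →ₗ[ℝ] E))).1 h

end FrameSpec

end Pool.Agent.Lib.MP_611141_gt
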