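import Mathlib

/-!
Linear ordinary differential equations on `[0, 1]` with small coefficient, and a convergence lemma.
-/

open Set Filter Metric Asymptotics
open scoped Topology NNReal

noncomputable section

namespace Pool.Agent.Lib.MP_611141_gt

variable {W : Type*} [NormedAddCommGroup W] [NormedSpace ℝ W]

theorem exp_half_le : Real.exp (1 / 2) ≤ 2 := by
  have h1 : Real.exp (1 / 2) ^ 2 ≤ 2 ^ 2 := by
    rw [← Real.exp_nat_mul]
    have : ((2 : ℕ) : ℝ) * (1 / 2) = 1 := by norm_num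
    rw [this]
    have := Real.exp_one_lt_d9
    linarith
  exact le_of_sq_le_sq h1 (by norm_num)

theorem lin_exists [CompleteSpace W] {B : ℝ → W →L[ℝ] W} (hB : ContinuousOn B (Icc 0 1))
    (hB' : ∀ s ∈ Icc (0 : ℝ) 1, ‖B s‖ ≤ 1 / 2) (z : W) :
    ∃ Z : ℝ → W, Z 0 = z ∧
      ∀ s ∈ Icc (0 : ℝ) 1, HasDerivWithinAt Z (B s (Z s)) (Icc 0 1) s := by
  have hpl : IsPicardLindelof (fun s x => B s x) (tmin := 0) (tmax := 1)
      ⟨0, by simp⟩ z (.mk (‖z‖ + 1) (by positivity)) 0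
      (.mk ((2 * ‖z‖ + 1) / 2) (by positivity)) (.mk (1 / 2) (by norm_num)) := by
    refine ⟨?_, ?_, ?_, ?_⟩
    · intro t ht
      refine LipschitzWith.lipschitzOnWith ?_
      refine ((B t).lipschitz).weaken ?_
      exact hB' t ht
    · intro x _
      exact hB.clm_apply continuousOn_const
    · intro t ht x hx
      refine ((B t).le_opNorm x).trans ?_
      have h1 : ‖x‖ ≤ 2 * ‖z‖ + 1 := by
        have h2 : ‖x - z‖ ≤ ‖z‖ + 1 := by
          rw [← dist_eq_norm]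
          exact mem_closedBall.1 hx
        have h3 : ‖x‖ ≤ ‖x - z‖ + ‖z‖ := norm_le_norm_sub_add x z
        linarith
      have h4 := hB' t ht
      change ‖B t‖ * ‖x‖ ≤ (2 * ‖z‖ + 1) / 2
      nlinarith [norm_nonneg x, norm_nonneg (B t)]
    · change (2 * ‖z‖ + 1) / 2 * max (1 - 0) (0 - 0) ≤ ‖z‖ + 1 - 0
      simp only [sub_zero]
      rw [max_eq_left (by norm_num)]
      nlinarith [norm_nonneg z]
  exact hpl.exists_eq_forall_mem_Icc_hasDerivWithinAt₀

theorem hasDerivWithinAt_Ici_of_Icc {f : ℝ → W} {f' : W} {s : ℝ} (hs : s ∈ Ico (0 : ℝ) 1)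
    (h : HasDerivWithinAt f f' (Icc 0 1) s) : HasDerivWithinAt f f' (Ici s) s := by
  refine h.mono_of_mem_nhdsWithin ?_
  exact Filter.mem_of_superset (Ico_mem_nhdsGE hs.2) fun y hy => ⟨hs.1.trans hy.1, hy.2.le⟩

theorem gronwall_half {δ ε x : ℝ} (hδ : 0 ≤ δ) (hε : 0 ≤ ε) (hx1 : x ≤ 1) :
    gronwallBound δ (1 / 2) ε x ≤ 2 * δ + 2 * ε := by
  rw [gronwallBound_of_K_ne_0 (by norm_num)]
  have h1 : Real.exp (1 / 2 * x) ≤ 2 :=
    (Real.exp_le_exp.2 (by linarith)).trans exp_half_le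
  have h2 : ε / (1 / 2) = 2 * ε := by ring
  rw [h2]
  nlinarith [Real.exp_pos (1 / 2 * x)]

theorem lin_bound {B : ℝ → W →L[ℝ] W} {K : ℝ} (hK : K ≤ 1 / 2)
    (hB' : ∀ s ∈ Icc (0 : ℝ) 1, ‖B s‖ ≤ K) {Z : ℝ → W}
    (hZ : ∀ s ∈ Icc (0 : ℝ) 1, HasDerivWithinAt Z (B s (Z s)) (Icc 0 1) s) :
    ‖Z 1 - Z 0‖ ≤ 2 * (K * ‖Z 0‖) := by
  have hK0 : 0 ≤ K := (norm_nonneg _).trans (hB' 0 (by simp))
  have h1 := norm_le_gronwallBound_of_norm_deriv_right_le (f := fun s => Z s - Z 0)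
    (f' := fun s => B s (Z s)) (δ := 0) (K := 1 / 2) (ε := K * ‖Z 0‖) (a := 0) (b := 1)
    (fun s hs => (hZ s hs).continuousWithinAt.sub continuousWithinAt_const)
    (fun s hs => hasDerivWithinAt_Ici_of_Icc hs
      ((hZ s (Ico_subset_Icc_self hs)).sub_const _)) (by simp)
    (fun s hs => by
      have e1 : B s (Z s) = B s (Z s - Z 0) + B s (Z 0) := by rw [← map_add, sub_add_cancel]
      rw [e1]
      refine (norm_add_le _ _).trans (add_le_add ?_ ?_)
      · refine ((B s).le_opNorm _).trans ?_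
        gcongr
        exact (hB' s (Ico_subset_Icc_self hs)).trans hK
      · refine ((B s).le_opNorm _).trans ?_
        gcongr
        exact hB' s (Ico_subset_Icc_self hs)) 1 (by simp)
  refine h1.trans ?_
  have := gronwall_half (δ := 0) (ε := K * ‖Z 0‖) (x := 1 - 0) le_rfl (by positivity)
    (by norm_num)
  linarith

/-- continuity of the solution in a parameter -/
theorem lin_continuous {B : ℝ → ℝ → W →L[ℝ] W} {t₁ : ℝ}
    (hB : ∀ s ∈ Icc (0 : ℝ) 1, ContinuousAt (fun q : ℝ × ℝ => B q.1 q.2) (t₁, s))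
    (hB' : ∀ᶠ t in 𝓝 t₁, ∀ s ∈ Icc (0 : ℝ) 1, ‖B t s‖ ≤ 1 / 2) {Z : ℝ → ℝ → W}
    (hZ : ∀ᶠ t in 𝓝 t₁, ∀ s ∈ Icc (0 : ℝ) 1,
      HasDerivWithinAt (Z t) (B t s (Z t s)) (Icc 0 1) s)
    (hZ0 : ContinuousAt (fun t => Z t 0) t₁) : ContinuousAt (fun t => Z t 1) t₁ := by
  have hZ1 := hZ.self_of_nhds
  have hcomp : IsCompact (Icc (0 : ℝ) 1) := isCompact_Icc
  -- bound of `Z t₁`
  obtain ⟨M, hM⟩ := hcomp.exists_bound_of_continuousOn
    (fun s hs => (hZ1 s hs).continuousWithinAt : ContinuousOn (Z t₁) (Icc 0 1))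
  have hM0 : 0 ≤ M := (norm_nonneg _).trans (hM 0 (by simp))
  rw [Metric.continuousAt_iff']
  intro ε hε
  have hη : 0 < ε / (4 * (M + 1)) := by positivity
  have hunif : ∀ᶠ t in 𝓝 t₁, ∀ s ∈ Icc (0 : ℝ) 1, ‖B t s - B t₁ s‖ ≤ ε / (4 * (M + 1)) := by
    refine hcomp.eventually_forall_of_forall_eventually fun s hs => ?_
    have h1 : ContinuousAt (fun q : ℝ × ℝ => B q.1 q.2 - B t₁ q.2) (t₁, s) := by
      refine (hB s hs).sub ?_
      have : ContinuousAt (fun q : ℝ × ℝ => (t₁, q.2)) (t₁, s) :=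
        (continuous_const.prodMk continuous_snd).continuousAt
      exact ContinuousAt.comp (f := fun q : ℝ × ℝ => (t₁, q.2))
        (g := fun q : ℝ × ℝ => B q.1 q.2) (hB s hs) this
    have h2 := Metric.continuousAt_iff'.1 h1 _ hη
    filter_upwards [h2] with q hq
    simp only [sub_self, dist_zero_right] at hq
    exact hq.le
  have hinit : ∀ᶠ t in 𝓝 t₁, ‖Z t 0 - Z t₁ 0‖ < ε / 4 := by
    have := Metric.continuousAt_iff'.1 hZ0 (ε / 4) (by positivity)
    filter_upwards [this] with t ht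
    rwa [dist_eq_norm] at ht
  filter_upwards [hB', hZ, hunif, hinit] with t h1 h2 h3 h4
  have h5 := norm_le_gronwallBound_of_norm_deriv_right_le (f := fun s => Z t s - Z t₁ s)
    (f' := fun s => B t s (Z t s) - B t₁ s (Z t₁ s)) (δ := ‖Z t 0 - Z t₁ 0‖) (K := 1 / 2)
    (ε := ε / (4 * (M + 1)) * M) (a := 0) (b := 1)
    (fun s hs => (h2 s hs).continuousWithinAt.sub (hZ1 s hs).continuousWithinAt)
    (fun s hs => hasDerivWithinAt_Ici_of_Icc hs
      ((h2 s (Ico_subset_Icc_self hs)).sub (hZ1 s (Ico_subset_Icc_self hs)))) le_rfl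
    (fun s hs => by
      have hs' := Ico_subset_Icc_self hs
      have e1 : B t s (Z t s) - B t₁ s (Z t₁ s)
          = B t s (Z t s - Z t₁ s) + (B t s - B t₁ s) (Z t₁ s) := by
        rw [map_sub, _root_.sub_apply]
        abel
      rw [e1]
      refine (norm_add_le _ _).trans (add_le_add ?_ ?_)
      · refine ((B t s).le_opNorm _).trans ?_
        gcongr
        exact h1 s hs'
      · refine ((B t s - B t₁ s).le_opNorm _).trans ?_
        gcongr
        · exact h3 s hs'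
        · exact hM s hs') 1 (by simp)
  have h6 := gronwall_half (δ := ‖Z t 0 - Z t₁ 0‖) (ε := ε / (4 * (M + 1)) * M) (x := 1 - 0)
    (norm_nonneg _) (by positivity) (by norm_num)
  rw [dist_eq_norm]
  have h7 : ε / (4 * (M + 1)) * M ≤ ε / 4 := by
    rw [div_mul_eq_mul_div, div_le_div_iff₀ (by positivity) (by norm_num)]
    nlinarith
  have h8 : ε / (4 * (M + 1)) * M < ε / 4 := by
    rw [div_mul_eq_mul_div, div_lt_div_iff₀ (by positivity) (by norm_num)]
    nlinarith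
  linarith

omit [NormedSpace ℝ W] in
/-- A Lipschitz map on `(a, b)` converges at `b`. -/
theorem tendsto_of_lipschitz [CompleteSpace W] {g : ℝ → W} {a b : ℝ} (hab : a < b) {K : ℝ≥0}
    (h : LipschitzOnWith K g (Ioo a b)) : ∃ x, Tendsto g (𝓝[<] b) (𝓝 x) := by
  have hc : Cauchy (map g (𝓝[<] b)) := by
    have h1 : Cauchy (𝓝[<] b) := cauchy_nhds.mono nhdsWithin_le_nhds
    have hmem : Ioo a b ∈ 𝓝[<] b := Ioo_mem_nhdsLT hab
    have h2 := h.uniformContinuousOn
    exact h1.map_of_le h2 (Filter.le_principal_iff.2 hmem)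
  exact CompleteSpace.complete hc

end Pool.Agent.Lib.MP_611141_gt
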