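import Pool.Agent.Lib.MP_611141_gt.FlowDeriv
import Pool.Agent.Lib.MP_611141_gt.Linear

/-!
The gauge argument: bounded control paths converge when enough flows are complete.
-/

open Set Filter Metric Asymptotics
open scoped Topology NNReal

noncomputable section

namespace Pool.Agent.Lib.MP_611141_gt

namespace ParSpace

variable {P J V 𝔤 : Type*} [TopologicalSpace P] [NormedAddCommGroup V] [NormedSpace ℝ V]
    [NormedAddCommGroup 𝔤] [NormedSpace ℝ 𝔤] {S : ParSpace P J V 𝔤}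

/-- Path on `(-1, 1)` in `Q` with continuous control bounded by `l`. -/
structure IsPath (S : ParSpace P J V 𝔤) (Q : Set P) (f : ℝ → P) (z : ℝ → 𝔤) (l : ℝ) : Prop where
  mem : ∀ t ∈ Ioo (-1 : ℝ) 1, f t ∈ Q
  ctl : ∀ t ∈ Ioo (-1 : ℝ) 1, S.Ctl f (z t) t
  cont : ContinuousOn z (Ioo (-1 : ℝ) 1)
  bound : ∀ t ∈ Ioo (-1 : ℝ) 1, ‖z t‖ ≤ l

/-- The data for the gauge argument. -/
structure GaugeData (S : ParSpace P J V 𝔤) (Q : Set P) where
  closed : IsClosed Q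
  Sb : P → 𝔤 →L[ℝ] 𝔤 →L[ℝ] 𝔤
  Sb_cont : ContinuousOn Sb Q
  bracket : Bracket S Q Sb
  h : P → ℝ
  h_nonneg : ∀ p, 0 ≤ h p
  C : ℝ
  C_nonneg : 0 ≤ C
  growth : ∀ (f : ℝ → P) (z : ℝ → 𝔤) (a b l : ℝ),
    (∀ t ∈ Ioo a b, f t ∈ Q ∧ S.Ctl f (z t) t ∧ ‖z t‖ ≤ l) →
    ∀ s ∈ Ioo a b, ∀ t ∈ Ioo a b, h (f t) ≤ Real.exp (C * l * |t - s|) * h (f s)
  C₀ : ℝ
  Sb_le : ∀ p ∈ Q, ‖Sb p‖ ≤ C₀ * (1 + h p)
  H : Submodule ℝ 𝔤
  ctl_mem : ∀ (f : ℝ → P) (z : 𝔤) (t : ℝ), (∀ᶠ s in 𝓝 t, f s ∈ Q) → S.Ctl f z t → z ∈ H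
  n : ℕ
  u : Fin n → 𝔤
  lam : Fin n → 𝔤 →L[ℝ] ℝ
  span : ∀ z ∈ H, z = ∑ i, lam i z • u i
  complete : ∀ i, ∃ Φ : P → ℝ → P, IsFlow S Q (u i) Φ

/-- One gauge step. -/
theorem gauge_step [CompleteSpace V] [CompleteSpace 𝔤] [T2Space P] {Q : Set P}
    {Sb : P → 𝔤 →L[ℝ] 𝔤 →L[ℝ] 𝔤} (hSbc : ContinuousOn Sb Q)
    (hb : Bracket S Q Sb) {u : 𝔤} {Φ : P → ℝ → P} (h : IsFlow S Q u Φ)
    {f : ℝ → P} {z : ℝ → 𝔤} {l : ℝ} (hf : IsPath S Q f z l)
    {β : ℝ → ℝ} {m : ℝ} (hβ : ContinuousOn β (Ioo (-1 : ℝ) 1))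
    (hβ' : ∀ t ∈ Ioo (-1 : ℝ) 1, |β t| ≤ m) {K : ℝ}
    (hK : ∀ t ∈ Ioo (-1 : ℝ) 1, ∀ s : ℝ, |s| ≤ m → ‖Sb (Φ (f t) s)‖ * ‖u‖ ≤ K)
    (hKm : m * K ≤ 1 / 2) :
    ∃ f' : ℝ → P, ∃ z' : ℝ → 𝔤, (∃ l', IsPath S Q f' z' l') ∧ f' 0 = f 0 ∧
      (∀ t ∈ Ioo (-1 : ℝ) 1, ‖z' t - (z t - β t • u)‖ ≤ 2 * (m * K * l)) ∧
      (∀ t ∈ Ioo (-1 : ℝ) 1, ∃ s : ℝ, |s| ≤ m ∧ f' t = Φ (f t) s) ∧
      ((∃ q ∈ Q, Tendsto f' (𝓝[<] 1) (𝓝 q)) → ∃ q ∈ Q, Tendsto f (𝓝[<] 1) (𝓝 q)) := by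
  have h0mem : (0 : ℝ) ∈ Ioo (-1 : ℝ) 1 := by norm_num
  have hm : 0 ≤ m := (abs_nonneg _).trans (hβ' 0 h0mem)
  have hK0 : 0 ≤ K := le_trans (by positivity) (hK 0 h0mem 0 (by simpa using hm))
  have hl : 0 ≤ l := (norm_nonneg _).trans (hf.bound 0 h0mem)
  set a : ℝ → ℝ := fun t => -∫ s in (0 : ℝ)..t, β s with ha
  have hsub : ∀ t ∈ Ioo (-1 : ℝ) 1, uIcc 0 t ⊆ Ioo (-1 : ℝ) 1 := by
    intro t ht
    exact (ordConnected_Ioo).uIcc_subset h0mem ht
  have haderiv : ∀ t ∈ Ioo (-1 : ℝ) 1, HasDerivAt a (-β t) t := by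
    intro t ht
    refine HasDerivAt.neg ?_
    refine intervalIntegral.integral_hasDerivAt_right ?_ ?_ ?_
    · exact (hβ.mono (hsub t ht)).intervalIntegrable
    · exact hβ.stronglyMeasurableAtFilter isOpen_Ioo t ht
    · exact hβ.continuousAt (isOpen_Ioo.mem_nhds ht)
  have ha0 : a 0 = 0 := by simp [ha]
  have habs : ∀ t ∈ Ioo (-1 : ℝ) 1, |a t| ≤ m := by
    intro t ht
    have h1 : ‖∫ s in (0 : ℝ)..t, β s‖ ≤ m * |t - 0| := by
      refine intervalIntegral.norm_integral_le_of_norm_le_const fun s hs => ?_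
      exact hβ' s (hsub t ht (uIoc_subset_uIcc hs))
    have h2 : |t - 0| ≤ 1 := by
      rw [sub_zero, abs_le]
      exact ⟨ht.1.le, ht.2.le⟩
    simp only [ha, abs_neg]
    rw [← Real.norm_eq_abs]
    calc _ ≤ m * |t - 0| := h1
      _ ≤ m * 1 := by gcongr
      _ = m := mul_one m
  have hs01 : ∀ t ∈ Ioo (-1 : ℝ) 1, ∀ s ∈ Icc (0 : ℝ) 1, |a t * s| ≤ m := by
    intro t ht s hs
    rw [abs_mul, abs_of_nonneg hs.1]
    calc |a t| * s ≤ |a t| * 1 := by gcongr; exact hs.2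
      _ ≤ m := by rw [mul_one]; exact habs t ht
  -- the linear equation
  set B : ℝ → ℝ → 𝔤 →L[ℝ] 𝔤 := fun t s => (Sb (Φ (f t) (a t * s))).flip (a t • u) with hB
  have hBnorm : ∀ t ∈ Ioo (-1 : ℝ) 1, ∀ s ∈ Icc (0 : ℝ) 1, ‖B t s‖ ≤ m * K := by
    intro t ht s hs
    have h1 : ‖B t s‖ ≤ ‖Sb (Φ (f t) (a t * s))‖ * ‖a t • u‖ := by
      refine ContinuousLinearMap.opNorm_le_bound _ (by positivity) fun y => ?_
      simp only [hB, ContinuousLinearMap.flip_apply]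
      refine ((Sb _ y).le_opNorm _).trans ?_
      have := (Sb (Φ (f t) (a t * s))).le_opNorm y
      calc ‖Sb (Φ (f t) (a t * s)) y‖ * ‖a t • u‖
          ≤ (‖Sb (Φ (f t) (a t * s))‖ * ‖y‖) * ‖a t • u‖ := by gcongr
        _ = ‖Sb (Φ (f t) (a t * s))‖ * ‖a t • u‖ * ‖y‖ := by ring
    refine h1.trans ?_
    rw [norm_smul, Real.norm_eq_abs]
    calc ‖Sb (Φ (f t) (a t * s))‖ * (|a t| * ‖u‖)
        = |a t| * (‖Sb (Φ (f t) (a t * s))‖ * ‖u‖) := by ring
      _ ≤ m * K := by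
          gcongr
          · exact habs t ht
          · exact hK t ht _ (hs01 t ht s hs)
  have hSbcont : ∀ t ∈ Ioo (-1 : ℝ) 1, ∀ s : ℝ,
      ContinuousAt (fun q : ℝ × ℝ => B q.1 q.2) (t, s) := by
    intro t ht s
    have hfQ : ∀ᶠ r in 𝓝 t, f r ∈ Q := by
      filter_upwards [isOpen_Ioo.mem_nhds ht] with r hr
      exact hf.mem r hr
    have h1 := tendsto_flow_path h (hf.ctl t ht).1 hfQ (a t * s)
    have hac : ContinuousAt a t := (haderiv t ht).continuousAt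
    have hac' : ContinuousAt (fun q : ℝ × ℝ => a q.1) (t, s) :=
      ContinuousAt.comp (f := fun q : ℝ × ℝ => q.1) (g := a) hac continuousAt_fst
    have h2 : ContinuousAt (fun q : ℝ × ℝ => (q.1, a q.1 * q.2)) (t, s) :=
      continuousAt_fst.prodMk (hac'.mul continuousAt_snd)
    have h3 : ContinuousAt (fun q : ℝ × ℝ => Φ (f q.1) (a q.1 * q.2)) (t, s) :=
      ContinuousAt.comp (f := fun q : ℝ × ℝ => (q.1, a q.1 * q.2))
        (g := fun q : ℝ × ℝ => Φ (f q.1) q.2) h1 h2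
    have h4 : ContinuousAt (fun q : ℝ × ℝ => Sb (Φ (f q.1) (a q.1 * q.2))) (t, s) := by
      have h5 : ContinuousWithinAt Sb Q (Φ (f t) (a t * s)) :=
        hSbc _ (h.mem _ (hf.mem t ht) _)
      have h6 : Tendsto (fun q : ℝ × ℝ => Φ (f q.1) (a q.1 * q.2)) (𝓝 (t, s))
          (𝓝[Q] (Φ (f t) (a t * s))) := by
        refine tendsto_nhdsWithin_iff.2 ⟨h3, ?_⟩
        have h7 : ∀ᶠ q : ℝ × ℝ in 𝓝 (t, s), f q.1 ∈ Q :=
          (continuousAt_fst (p := ((t, s) : ℝ × ℝ))).eventually hfQ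
        filter_upwards [h7] with q hq
        exact h.mem _ hq _
      exact h5.tendsto.comp h6
    have h8 : ContinuousAt (fun q : ℝ × ℝ => (Sb (Φ (f q.1) (a q.1 * q.2))).flip) (t, s) := by
      exact (ContinuousLinearMap.flipₗᵢ ℝ 𝔤 𝔤 𝔤).continuous.continuousAt.comp h4
    exact h8.clm_apply (hac'.smul continuousAt_const)
  have hex : ∀ t, ∃ Z : ℝ → 𝔤, t ∈ Ioo (-1 : ℝ) 1 → (Z 0 = z t ∧
      ∀ s ∈ Icc (0 : ℝ) 1, HasDerivWithinAt Z (B t s (Z s)) (Icc 0 1) s) := by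
    intro t
    by_cases ht : t ∈ Ioo (-1 : ℝ) 1
    · have hBc : ContinuousOn (B t) (Icc 0 1) := by
        intro s hs
        have h1 : ContinuousAt (fun s : ℝ => ((t, s) : ℝ × ℝ)) s :=
          (continuous_const.prodMk continuous_id).continuousAt
        have h2 : ContinuousAt (fun s => B t s) s :=
          ContinuousAt.comp (f := fun s : ℝ => ((t, s) : ℝ × ℝ))
            (g := fun q : ℝ × ℝ => B q.1 q.2) (hSbcont t ht s) h1
        exact h2.continuousWithinAt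
      obtain ⟨Z, hZ0, hZ⟩ := lin_exists hBc (fun s hs => (hBnorm t ht s hs).trans hKm) (z t)
      exact ⟨Z, fun _ => ⟨hZ0, hZ⟩⟩
    · exact ⟨0, fun h => absurd h ht⟩
  choose Z hZ using hex
  refine ⟨fun t => Φ (f t) (a t), fun t => Z t 1 - β t • u, ?_, ?_, ?_, ?_, ?_⟩
  · -- the new path
    have hbd : ∀ t ∈ Ioo (-1 : ℝ) 1, ‖Z t 1 - z t‖ ≤ 2 * (m * K * l) := by
      intro t ht
      have h1 := lin_bound hKm (hBnorm t ht) (hZ t ht).2
      rw [(hZ t ht).1] at h1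
      refine h1.trans ?_
      gcongr
      exact hf.bound t ht
    refine ⟨2 * (m * K * l) + l + m * ‖u‖, ?_, ?_, ?_, ?_⟩
    · intro t ht
      exact h.mem _ (hf.mem t ht) _
    · intro t ht
      have hfQ : ∀ᶠ r in 𝓝 t, f r ∈ Q := by
        filter_upwards [isOpen_Ioo.mem_nhds ht] with r hr
        exact hf.mem r hr
      -- constant duration
      have h1 : S.Ctl (fun r => Φ (f r) (a t)) (Z t 1) t := by
        have h2 := ctl_flow_one (h.smul (a t)) hb (hf.ctl t ht) hfQ (hZ t ht).1 (hZ t ht).2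
        simpa using h2
      have h3 := ctl_flow_var_zero h h1 (hfQ.mono fun r hr => h.mem _ hr _)
        (b := fun r => a r - a t) (b' := -β t) (sub_self _) ((haderiv t ht).sub_const _)
      have h4 : (fun r => Φ (Φ (f r) (a t)) (a r - a t)) =ᶠ[𝓝 t] fun r => Φ (f r) (a r) := by
        filter_upwards [hfQ] with r hr
        rw [h.add hr]
        congr 1
        ring
      have h5 := h3.congr h4
      rw [neg_smul, ← sub_eq_add_neg] at h5
      exact h5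
    · intro t ht
      refine ContinuousWithinAt.sub ?_ ((hβ t ht).smul continuousWithinAt_const)
      refine ContinuousAt.continuousWithinAt ?_
      refine lin_continuous (B := B) (Z := Z) (fun s _ => hSbcont t ht s) ?_ ?_ ?_
      · filter_upwards [isOpen_Ioo.mem_nhds ht] with r hr s hs
        exact (hBnorm r hr s hs).trans hKm
      · filter_upwards [isOpen_Ioo.mem_nhds ht] with r hr
        exact (hZ r hr).2
      · have h1 : ContinuousAt z t := hf.cont.continuousAt (isOpen_Ioo.mem_nhds ht)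
        refine h1.congr ?_
        filter_upwards [isOpen_Ioo.mem_nhds ht] with r hr
        exact ((hZ r hr).1).symm
    · intro t ht
      have e1 : Z t 1 - β t • u = (Z t 1 - z t) + z t - β t • u := by abel
      rw [e1]
      refine (norm_sub_le _ _).trans ?_
      refine add_le_add ((norm_add_le _ _).trans (add_le_add (hbd t ht) (hf.bound t ht))) ?_
      rw [norm_smul, Real.norm_eq_abs]
      gcongr
      exact hβ' t ht
  · simp only [ha0, h.zero _ (hf.mem 0 h0mem)]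
  · intro t ht
    have h1 := lin_bound hKm (hBnorm t ht) (hZ t ht).2
    rw [(hZ t ht).1] at h1
    have e1 : Z t 1 - β t • u - (z t - β t • u) = Z t 1 - z t := by abel
    rw [e1]
    refine h1.trans ?_
    gcongr
    exact hf.bound t ht
  · intro t ht
    exact ⟨a t, habs t ht, rfl⟩
  · rintro ⟨q, hq, hqt⟩
    -- `a` converges
    have hLip : LipschitzOnWith (Real.toNNReal m) a (Ioo (-1 : ℝ) 1) := by
      refine (convex_Ioo (-1 : ℝ) 1).lipschitzOnWith_of_nnnorm_hasDerivWithin_le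
        (fun t ht => (haderiv t ht).hasDerivWithinAt) fun t ht => ?_
      rw [← NNReal.coe_le_coe, coe_nnnorm, Real.coe_toNNReal _ hm, norm_neg]
      exact hβ' t ht
    obtain ⟨a₁, ha₁⟩ := tendsto_of_lipschitz (by norm_num) hLip
    refine ⟨Φ q (-a₁), h.mem _ hq _, ?_⟩
    have h1 := h.continuousOn (q, -a₁) ⟨hq, mem_univ _⟩
    have hev : ∀ᶠ t in 𝓝[<] (1 : ℝ), t ∈ Ioo (-1 : ℝ) 1 := Ioo_mem_nhdsLT (by norm_num)
    have h2 : Tendsto (fun t => ((Φ (f t) (a t), -a t) : P × ℝ)) (𝓝[<] 1)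
        (𝓝[Q ×ˢ univ] (q, -a₁)) := by
      refine tendsto_nhdsWithin_iff.2 ⟨hqt.prodMk_nhds ha₁.neg, ?_⟩
      filter_upwards [hev] with t ht
      exact ⟨h.mem _ (hf.mem t ht) _, mem_univ _⟩
    have h3 := h1.tendsto.comp h2
    refine h3.congr' ?_
    filter_upwards [hev] with t ht
    simp only [Function.comp_apply]
    rw [h.add (hf.mem t ht), add_neg_cancel, h.zero _ (hf.mem t ht)]

/-- Every path from `p` with control bounded by `l` converges. -/
def Conv (S : ParSpace P J V 𝔤) (Q : Set P) (p : P) (l : ℝ) : Prop :=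
  ∀ f z, IsPath S Q f z l → f 0 = p → ∃ q ∈ Q, Tendsto f (𝓝[<] 1) (𝓝 q)

theorem IsPath.mono {Q : Set P} {f : ℝ → P} {z : ℝ → 𝔤} {l l' : ℝ} (h : IsPath S Q f z l)
    (hl : l ≤ l') : IsPath S Q f z l' :=
  ⟨h.mem, h.ctl, h.cont, fun t ht => (h.bound t ht).trans hl⟩

theorem Conv.anti {Q : Set P} {p : P} {l l' : ℝ} (h : Conv S Q p l') (hl : l ≤ l') :
    Conv S Q p l := fun f z hf h0 => h f z (hf.mono hl) h0

/-- A full round of gauge steps. -/
theorem GaugeData.round [CompleteSpace V] [CompleteSpace 𝔤] [T2Space P] {Q : Set P}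
    (D : GaugeData S Q) {M : ℝ} (hM : 0 ≤ M) (s : Finset (Fin D.n)) :
    ∃ A : ℝ, 1 ≤ A ∧ ∀ (f : ℝ → P) (z : ℝ → 𝔤) (l : ℝ), IsPath S Q f z l → 0 ≤ l → A * l ≤ 1 →
      D.h (f 0) ≤ M → ∃ f' z', IsPath S Q f' z' (A * l) ∧ f' 0 = f 0 ∧
        (∀ t ∈ Ioo (-1 : ℝ) 1, ‖z' t - (z t - ∑ i ∈ s, D.lam i (z t) • D.u i)‖ ≤ A * l ^ 2) ∧
        ((∃ q ∈ Q, Tendsto f' (𝓝[<] 1) (𝓝 q)) → ∃ q ∈ Q, Tendsto f (𝓝[<] 1) (𝓝 q)) := by
  classical
  induction s using Finset.induction_on with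
  | empty =>
    refine ⟨1, le_rfl, fun f z l hf hl _ _ => ⟨f, z, by simpa using hf, rfl, fun t _ => ?_, id⟩⟩
    simp only [Finset.sum_empty, sub_zero, sub_self, norm_zero]
    positivity
  | insert i s hi ih =>
    obtain ⟨A, hA1, hA⟩ := ih
    obtain ⟨Φ, hΦ⟩ := D.complete i
    set U := ‖D.u i‖ with hU
    set Λ := ‖D.lam i‖ with hΛ
    have hU0 : 0 ≤ U := norm_nonneg _
    have hΛ0 : 0 ≤ Λ := norm_nonneg _
    have hC₀ : 0 ≤ D.C₀ ∨ ¬ 0 ≤ D.C₀ := em _
    set K := |D.C₀| * (1 + Real.exp (D.C * U * Λ) * (Real.exp D.C * M)) * U with hK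
    have hK0 : 0 ≤ K := by positivity
    set A' := A + 2 * (Λ * K * A) + (1 + ∑ j ∈ insert i s, ‖D.lam j‖ * ‖D.u j‖) + 2 * (Λ * K)
      with hA'
    have hsum0 : 0 ≤ ∑ j ∈ insert i s, ‖D.lam j‖ * ‖D.u j‖ :=
      Finset.sum_nonneg fun j _ => by positivity
    have hAA' : A ≤ A' := by
      have : 0 ≤ 2 * (Λ * K * A) := by positivity
      have : 0 ≤ 2 * (Λ * K) := by positivity
      linarith
    refine ⟨A', hA1.trans hAA', fun f z l hf hl hAl hfM => ?_⟩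
    have hl1 : l ≤ 1 := by nlinarith
    obtain ⟨f₁, z₁, hf₁, hf₁0, hz₁, hconv₁⟩ := hA f z l hf hl (by nlinarith) hfM
    have hAl1 : A * l ≤ 1 := by nlinarith
    have h0mem : (0 : ℝ) ∈ Ioo (-1 : ℝ) 1 := by norm_num
    -- bound of `h` along the path
    have hgr : ∀ t ∈ Ioo (-1 : ℝ) 1, D.h (f₁ t) ≤ Real.exp D.C * M := by
      intro t ht
      have h1 := D.growth f₁ z₁ (-1) 1 (A * l)
        (fun t ht => ⟨hf₁.mem t ht, hf₁.ctl t ht, hf₁.bound t ht⟩) 0 h0mem t ht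
      refine h1.trans ?_
      have hCn := D.C_nonneg
      have ht1 : |t - 0| ≤ 1 := by
        rw [sub_zero, abs_le]; exact ⟨ht.1.le, ht.2.le⟩
      have h2 : D.C * (A * l) * |t - 0| ≤ D.C := by
        have : (A * l) * |t - 0| ≤ 1 := by
          have := abs_nonneg (t - 0)
          have : 0 ≤ A * l := by positivity
          nlinarith
        calc D.C * (A * l) * |t - 0| = D.C * ((A * l) * |t - 0|) := by ring
          _ ≤ D.C * 1 := by gcongr
          _ = D.C := mul_one _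
      have h3 : D.h (f₁ 0) ≤ M := by rw [hf₁0]; exact hfM
      have := D.h_nonneg (f₁ 0)
      gcongr
    have hgr2 : ∀ t ∈ Ioo (-1 : ℝ) 1, ∀ r : ℝ, |r| ≤ Λ * l →
        D.h (Φ (f₁ t) r) ≤ Real.exp (D.C * U * Λ) * (Real.exp D.C * M) := by
      intro t ht r hr
      have h1 := D.growth (Φ (f₁ t)) (fun _ => D.u i) (-(|r| + 1)) (|r| + 1) U
        (fun s _ => ⟨hΦ.mem _ (hf₁.mem t ht) s, hΦ.ctl _ (hf₁.mem t ht) s, le_rfl⟩) 0
        ⟨by linarith [abs_nonneg r], by linarith [abs_nonneg r]⟩ r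
        ⟨by linarith [neg_abs_le r], by linarith [le_abs_self r]⟩
      rw [hΦ.zero _ (hf₁.mem t ht), sub_zero] at h1
      refine h1.trans ?_
      have hCn := D.C_nonneg
      have h2 : D.C * U * |r| ≤ D.C * U * Λ := by
        gcongr
        calc |r| ≤ Λ * l := hr
          _ ≤ Λ * 1 := by gcongr
          _ = Λ := mul_one _
      have := hgr t ht
      have := D.h_nonneg (f₁ t)
      gcongr
    have hβb : ∀ t ∈ Ioo (-1 : ℝ) 1, |D.lam i (z t)| ≤ Λ * l := by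
      intro t ht
      rw [← Real.norm_eq_abs]
      refine ((D.lam i).le_opNorm _).trans ?_
      gcongr
      exact hf.bound t ht
    have hKb : ∀ t ∈ Ioo (-1 : ℝ) 1, ∀ r : ℝ, |r| ≤ Λ * l →
        ‖D.Sb (Φ (f₁ t) r)‖ * ‖D.u i‖ ≤ K := by
      intro t ht r hr
      have h1 := D.Sb_le _ (hΦ.mem _ (hf₁.mem t ht) r)
      have h2 := hgr2 t ht r hr
      have h3 := D.h_nonneg (Φ (f₁ t) r)
      rw [hK]
      gcongr
      refine h1.trans ?_
      calc D.C₀ * (1 + D.h (Φ (f₁ t) r)) ≤ |D.C₀| * (1 + D.h (Φ (f₁ t) r)) := by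
            gcongr; exact le_abs_self _
        _ ≤ |D.C₀| * (1 + Real.exp (D.C * U * Λ) * (Real.exp D.C * M)) := by gcongr
    have hsmall : Λ * l * K ≤ 1 / 2 := by
      have h1 : 2 * (Λ * K) ≤ A' := by
        have : 0 ≤ 2 * (Λ * K * A) := by positivity
        linarith
      have h2 : 2 * (Λ * K) * l ≤ 1 := le_trans (by gcongr) hAl
      linarith
    obtain ⟨f₂, z₂, ⟨l₂, hf₂⟩, hf₂0, hz₂, -, hconv₂⟩ := gauge_step D.Sb_cont D.bracket hΦ hf₁
      (β := fun t => D.lam i (z t)) (m := Λ * l)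
      ((D.lam i).continuous.comp_continuousOn hf.cont) hβb hKb hsmall
    have hdiff : ∀ t ∈ Ioo (-1 : ℝ) 1,
        ‖z₂ t - (z t - ∑ j ∈ insert i s, D.lam j (z t) • D.u j)‖ ≤ (A + 2 * (Λ * K * A)) * l ^ 2 := by
      intro t ht
      rw [Finset.sum_insert hi]
      have e1 : z₂ t - (z t - (D.lam i (z t) • D.u i + ∑ j ∈ s, D.lam j (z t) • D.u j))
          = (z₂ t - (z₁ t - D.lam i (z t) • D.u i))
            + (z₁ t - (z t - ∑ j ∈ s, D.lam j (z t) • D.u j)) := by abel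
      rw [e1]
      refine (norm_add_le _ _).trans ?_
      calc _ ≤ 2 * (Λ * l * K * (A * l)) + A * l ^ 2 := add_le_add (hz₂ t ht) (hz₁ t ht)
        _ = (A + 2 * (Λ * K * A)) * l ^ 2 := by ring
    refine ⟨f₂, z₂, ⟨hf₂.mem, hf₂.ctl, hf₂.cont, ?_⟩, hf₂0.trans hf₁0, ?_,
      fun hc => hconv₁ (hconv₂ hc)⟩
    · intro t ht
      have e1 : z₂ t = (z₂ t - (z t - ∑ j ∈ insert i s, D.lam j (z t) • D.u j))
          + (z t - ∑ j ∈ insert i s, D.lam j (z t) • D.u j) := by abel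
      rw [e1]
      have h1 : ‖z t - ∑ j ∈ insert i s, D.lam j (z t) • D.u j‖
          ≤ (1 + ∑ j ∈ insert i s, ‖D.lam j‖ * ‖D.u j‖) * l := by
        refine (norm_sub_le _ _).trans ?_
        rw [add_mul, one_mul]
        refine add_le_add (hf.bound t ht) ?_
        refine (norm_sum_le _ _).trans ?_
        rw [Finset.sum_mul]
        refine Finset.sum_le_sum fun j _ => ?_
        rw [norm_smul]
        calc ‖D.lam j (z t)‖ * ‖D.u j‖ ≤ (‖D.lam j‖ * l) * ‖D.u j‖ := by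
              gcongr
              refine ((D.lam j).le_opNorm _).trans ?_
              gcongr
              exact hf.bound t ht
          _ = ‖D.lam j‖ * ‖D.u j‖ * l := by ring
      have h2 : l ^ 2 ≤ l := by nlinarith
      have h3 : 0 ≤ A + 2 * (Λ * K * A) := by positivity
      calc _ ≤ (A + 2 * (Λ * K * A)) * l ^ 2
            + (1 + ∑ j ∈ insert i s, ‖D.lam j‖ * ‖D.u j‖) * l :=
            (norm_add_le _ _).trans (add_le_add (hdiff t ht) h1)
        _ ≤ (A + 2 * (Λ * K * A)) * l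
            + (1 + ∑ j ∈ insert i s, ‖D.lam j‖ * ‖D.u j‖) * l := by gcongr
        _ ≤ A' * l := by
          rw [hA']
          have : 0 ≤ 2 * (Λ * K) * l := by positivity
          nlinarith
    · intro t ht
      refine (hdiff t ht).trans ?_
      gcongr
      rw [hA']
      have : 0 ≤ 2 * (Λ * K) := by positivity
      linarith

/-- The improvement step. -/
theorem GaugeData.improve [CompleteSpace V] [CompleteSpace 𝔤] [T2Space P] {Q : Set P}
    (D : GaugeData S Q) {M : ℝ} (hM : 0 ≤ M) :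
    ∃ A : ℝ, 1 ≤ A ∧ ∀ p, D.h p ≤ M → ∀ l, 0 ≤ l → A * l ≤ 1 → Conv S Q p (A * l ^ 2) →
      Conv S Q p l := by
  obtain ⟨A, hA1, hA⟩ := D.round hM Finset.univ
  refine ⟨A, hA1, fun p hp l hl hAl hc f z hf h0 => ?_⟩
  obtain ⟨f', z', hf', hf'0, hz', hconv⟩ := hA f z l hf hl hAl (by rw [h0]; exact hp)
  refine hconv (hc f' z' ⟨hf'.mem, hf'.ctl, hf'.cont, fun t ht => ?_⟩ (hf'0.trans h0))
  have h1 := hz' t ht
  have h2 : z t ∈ D.H := by
    refine D.ctl_mem f (z t) t ?_ (hf.ctl t ht)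
    filter_upwards [isOpen_Ioo.mem_nhds ht] with r hr
    exact hf.mem r hr
  rw [← D.span _ h2, sub_self, sub_zero] at h1
  exact h1

/-- Local convergence. -/
theorem exists_conv [CompleteSpace V] [T2Space P] {Q : Set P} (hQ : IsClosed Q) (p : P) :
    ∃ l > (0 : ℝ), Conv S Q p l := by
  obtain ⟨j, hj⟩ := S.cover p
  set x₀ := S.κ j p with hx₀
  have hx := (S.κ j).map_source hj
  have hYc : ContinuousAt (S.Y j) x₀ :=
    ((S.smooth j).continuousOn).continuousAt ((S.κ j).open_target.mem_nhds hx)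
  have hYb : ∀ᶠ y in 𝓝 x₀, ‖S.Y j y‖ < ‖S.Y j x₀‖ + 1 :=
    hYc.norm.eventually (gt_mem_nhds (by linarith))
  obtain ⟨ρ, hρ, hball⟩ := Metric.mem_nhds_iff.1
    (Filter.inter_mem hYb ((S.κ j).open_target.mem_nhds hx))
  set K := ‖S.Y j x₀‖ + 1 with hK
  have hK0 : 0 < K := by positivity
  set l := ρ / (2 * K) with hl
  have hl0 : 0 < l := by positivity
  have hKl : K * l = ρ / 2 := by rw [hl]; field_simp
  refine ⟨l, hl0, fun f z hf h0 => ?_⟩
  set W : Set P := (S.κ j).source ∩ (S.κ j) ⁻¹' (ball x₀ ρ) with hW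
  have hWo : IsOpen W := (S.κ j).isOpen_inter_preimage isOpen_ball
  have hpW : f 0 ∈ W := by rw [h0]; exact ⟨hj, mem_ball_self hρ⟩
  have hsub01 : Ico (0 : ℝ) 1 ⊆ Ioo (-1 : ℝ) 1 := fun t ht => ⟨by linarith [ht.1], ht.2⟩
  -- the key local statement
  have key : ∀ t, 0 < t → t ≤ 1 → (∀ s ∈ Ico 0 t, f s ∈ W) →
      ∃ x₁ ∈ closedBall x₀ (ρ / 2), Tendsto f (𝓝[<] t) (𝓝 ((S.κ j).symm x₁)) := by
    intro t ht0 ht1 hWt
    have hder : ∀ s ∈ Ico 0 t, HasDerivAt (fun s => S.κ j (f s))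
        (S.Y j (S.κ j (f s)) (z s)) s := fun s hs =>
      (hf.ctl s (hsub01 ⟨hs.1, hs.2.trans_le ht1⟩)).2 j (hWt s hs).1
    have hbd : ∀ s ∈ Ico 0 t, ‖S.Y j (S.κ j (f s)) (z s)‖ ≤ ρ / 2 := by
      intro s hs
      refine ((S.Y j (S.κ j (f s))).le_opNorm _).trans ?_
      rw [← hKl]
      have h1 := (hball (hWt s hs).2).1
      simp only [mem_ofPred_eq] at h1
      gcongr
      exact hf.bound s (hsub01 ⟨hs.1, hs.2.trans_le ht1⟩)
    have hLip : LipschitzOnWith (Real.toNNReal (ρ / 2)) (fun s => S.κ j (f s)) (Ico 0 t) := by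
      refine (convex_Ico 0 t).lipschitzOnWith_of_nnnorm_hasDerivWithin_le
        (fun s hs => (hder s hs).hasDerivWithinAt) fun s hs => ?_
      rw [← NNReal.coe_le_coe, coe_nnnorm, Real.coe_toNNReal _ (by positivity)]
      exact hbd s hs
    obtain ⟨x₁, hx₁⟩ := tendsto_of_lipschitz ht0 (hLip.mono Ioo_subset_Ico_self)
    have hin : ∀ s ∈ Ico 0 t, S.κ j (f s) ∈ closedBall x₀ (ρ / 2) := by
      intro s hs
      have h1 := hLip.dist_le_mul s hs 0 ⟨le_rfl, ht0⟩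
      rw [h0, Real.coe_toNNReal _ (by positivity), Real.dist_eq, sub_zero] at h1
      rw [mem_closedBall]
      refine h1.trans ?_
      have : |s| ≤ 1 := by
        rw [abs_of_nonneg hs.1]
        linarith [hs.2]
      nlinarith
    have hx₁mem : x₁ ∈ closedBall x₀ (ρ / 2) := by
      refine isClosed_closedBall.mem_of_tendsto hx₁ ?_
      filter_upwards [Ioo_mem_nhdsLT ht0] with s hs
      exact hin s ⟨hs.1.le, hs.2⟩
    refine ⟨x₁, hx₁mem, ?_⟩
    have hx₁t : x₁ ∈ (S.κ j).target :=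
      (hball (closedBall_subset_ball (by linarith) hx₁mem)).2
    have h2 := ((S.κ j).continuousAt_symm hx₁t).tendsto.comp hx₁
    refine h2.congr' ?_
    filter_upwards [Ioo_mem_nhdsLT ht0] with s hs
    exact (S.κ j).left_inv (hWt s ⟨hs.1.le, hs.2⟩).1
  have hall : ∀ t ∈ Ico (0 : ℝ) 1, ∀ s ∈ Icc 0 t, f s ∈ W := by
    intro t ht
    refine preconnected_induction (isPreconnected_Ico) (fun t => ∀ s ∈ Icc 0 t, f s ∈ W) ?_
      (⟨le_rfl, zero_lt_one⟩ : (0 : ℝ) ∈ Ico (0 : ℝ) 1) ht ?_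
    · intro t ht
      by_cases hgood : ∀ s ∈ Icc 0 t, f s ∈ W
      · have hft : ∀ᶠ s in 𝓝 t, f s ∈ W :=
          (hf.ctl t (hsub01 ht)).1.eventually
            (hWo.mem_nhds (hgood t ⟨ht.1, le_rfl⟩))
        obtain ⟨δ, hδ, hδ'⟩ := Metric.eventually_nhds_iff.1 hft
        have hnear : ∀ᶠ s in 𝓝[Ico 0 1] t, |s - t| < δ := by
          refine Filter.Eventually.filter_mono nhdsWithin_le_nhds ?_
          have : ∀ᶠ s in 𝓝 t, s ∈ ball t δ := ball_mem_nhds t hδ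
          filter_upwards [this] with s hs
          rwa [mem_ball, Real.dist_eq] at hs
        filter_upwards [hnear] with s hs
        have : ∀ r ∈ Icc 0 s, f r ∈ W := by
          intro r hr
          by_cases hrt : r ≤ t
          · exact hgood r ⟨hr.1, hrt⟩
          · refine hδ' ?_
            rw [Real.dist_eq]
            rw [abs_lt] at hs ⊢
            push Not at hrt
            constructor <;> linarith [hr.2, hs.2]
        exact ⟨fun _ => this, fun _ => hgood⟩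
      · have hbad : ∃ s ∈ Ico 0 t, f s ∉ W := by
          by_contra hcon
          push Not at hcon
          apply hgood
          intro s hs
          rcases lt_or_eq_of_le hs.2 with h1 | h1
          · exact hcon s ⟨hs.1, h1⟩
          · subst h1
            rcases lt_or_eq_of_le hs.1 with h2 | h2
            · obtain ⟨x₁, hx₁, hlim⟩ := key s h2 ht.2.le hcon
              have h3 : Tendsto f (𝓝[<] s) (𝓝 (f s)) :=
                ((hf.ctl s (hsub01 ht)).1.tendsto).mono_left nhdsWithin_le_nhds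
              have h4 := tendsto_nhds_unique h3 hlim
              have hx₁b : x₁ ∈ ball x₀ ρ := closedBall_subset_ball (by linarith) hx₁
              have hx₁t : x₁ ∈ (S.κ j).target := (hball hx₁b).2
              rw [h4]
              refine ⟨(S.κ j).map_target hx₁t, ?_⟩
              rw [mem_preimage, (S.κ j).right_inv hx₁t]
              exact hx₁b
            · rw [← h2]; exact hpW
        obtain ⟨s₀, hs₀, hs₀W⟩ := hbad
        have hnear : ∀ᶠ s in 𝓝[Ico 0 1] t, s₀ < s :=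
          Filter.Eventually.filter_mono nhdsWithin_le_nhds (lt_mem_nhds hs₀.2)
        filter_upwards [hnear] with s hs
        have : ¬ ∀ r ∈ Icc 0 s, f r ∈ W := fun hcon => hs₀W (hcon s₀ ⟨hs₀.1, hs.le⟩)
        simp only [hgood, this]
    · intro s hs
      have : s = 0 := le_antisymm hs.2 hs.1
      rw [this]; exact hpW
  obtain ⟨x₁, hx₁, hlim⟩ := key 1 one_pos le_rfl fun s hs => hall s hs s ⟨hs.1, le_rfl⟩
  refine ⟨_, ?_, hlim⟩
  refine hQ.mem_of_tendsto hlim ?_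
  filter_upwards [Ioo_mem_nhdsLT (show (-1 : ℝ) < 1 by norm_num)] with s hs
  exact hf.mem s hs

/-- Uniform convergence radius. -/
theorem GaugeData.conv [CompleteSpace V] [CompleteSpace 𝔤] [T2Space P] {Q : Set P}
    (D : GaugeData S Q) {M : ℝ} (hM : 0 ≤ M) :
    ∃ l > (0 : ℝ), ∀ p, D.h p ≤ M → Conv S Q p l := by
  obtain ⟨A, hA1, hA⟩ := D.improve hM
  refine ⟨1 / (2 * A), by positivity, fun p hp => ?_⟩
  obtain ⟨l₀, hl₀, hconv⟩ := exists_conv (S := S) D.closed p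
  have hind : ∀ k : ℕ, ∀ l : ℝ, 0 ≤ l → A * l ≤ 1 / 2 → l ≤ 2 ^ k * l₀ → Conv S Q p l := by
    intro k
    induction k with
    | zero =>
      intro l _ _ hl
      exact hconv.anti (by simpa using hl)
    | succ k ih =>
      intro l hl0 hAl hl
      refine hA p hp l hl0 (by linarith) (ih (A * l ^ 2) (by positivity) ?_ ?_)
      · have : A * (A * l ^ 2) = (A * l) * (A * l) := by ring
        rw [this]
        have : 0 ≤ A * l := by positivity
        nlinarith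
      · have h1 : A * l ^ 2 = (A * l) * l := by ring
        rw [h1]
        have h2 : (A * l) * l ≤ 1 / 2 * l := by gcongr
        rw [pow_succ] at hl
        linarith
  obtain ⟨k, hk⟩ := pow_unbounded_of_one_lt (1 / (2 * A) / l₀) (one_lt_two)
  refine hind k _ (by positivity) (le_of_eq (by field_simp)) ?_
  rw [div_lt_iff₀ hl₀] at hk
  exact hk.le

end ParSpace

end Pool.Agent.Lib.MP_611141_gt
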