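import Pool.Agent.Lib.MP_611141_gt.FrameGauge
import Pool.Agent.Lib.MP_611141_gt.Extend

/-!
# Frames and geodesics
-/

set_option autoImplicit false
set_option maxSynthPendingDepth 3

open Set Topology Filter
open scoped ContDiff Manifold

namespace Pool.Agent.Lib.MP_611141_gt

noncomputable section

/-- The chart at a point, as an element of the atlas. -/
def idx (E : Type) {M : Type} [NormedAddCommGroup E] [TopologicalSpace M]
    [ChartedSpace E M] (x : M) : atlas E M := ⟨chartAt E x, chart_mem_atlas E x⟩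

lemma mem_idx (E : Type) {M : Type} [NormedAddCommGroup E] [TopologicalSpace M]
    [ChartedSpace E M] (x : M) : x ∈ (idx E x).1.source := mem_chart_source E x

namespace FrameSpec

variable {E M : Type} [NormedAddCommGroup E] [NormedSpace ℝ E] [TopologicalSpace M]
  [ChartedSpace E M] {g : PseudoMetric E M} {P : Type} [TopologicalSpace P] (F : FrameSpec g P)

lemma mem_src_idx (p : P) : p ∈ (F.S.κ (idx E (F.π p))).source :=
  (F.src _ _).2 (mem_idx E _)

lemma mem_tgt {j : atlas E M} {p : P} (hj : p ∈ (F.S.κ j).source) :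
    (F.S.κ j p).1 ∈ j.1.target := (F.tgt j _).1 ((F.S.κ j).map_source hj)

lemma pull_apply {j : atlas E M} {p : P} (hj : p ∈ (F.S.κ j).source) (u v : E) :
    F.form p u v = g.G j.1 (F.S.κ j p).1 ((F.S.κ j p).2 u) ((F.S.κ j p).2 v) :=
  F.form_apply j hj u v

lemma mem_Q {g₀ : E →L[ℝ] E →L[ℝ] ℝ} {p : P} : p ∈ F.Q g₀ ↔ F.form p = g₀ := Iff.rfl

variable [FiniteDimensional ℝ E]

lemma pull_eq_of_ctl {f : ℝ → P} {w : E} {I : Set ℝ} (hIo : IsOpen I) (hI : IsPreconnected I)
    (hf : ∀ t ∈ I, F.S.Ctl f (w, 0) t) {s t : ℝ} (hs : s ∈ I) (ht : t ∈ I) :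
    F.form (f s) = F.form (f t) := by
  ext u v
  have h1 : ∀ r ∈ I, HasDerivAt (fun s => F.form (f s) u v) 0 r := by
    intro r hr
    have h2 := F.hasDerivAt_form (hf r hr)
    have h3 := (h2.clm_apply (hasDerivAt_const r u)).clm_apply (hasDerivAt_const r v)
    simpa [adForm_apply] using h3
  exact hIo.is_const_of_deriv_eq_zero hI (f := fun s => F.form (f s) u v)
    (fun r hr => (h1 r hr).differentiableAt.differentiableWithinAt)
    (fun r hr => (h1 r hr).deriv) hs ht

/-- The frame obtained by composition with an endomorphism. -/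
def act (p : P) (C : E →L[ℝ] E) : P :=
  (F.S.κ (idx E (F.π p))).symm ((F.S.κ (idx E (F.π p)) p).1,
    (F.S.κ (idx E (F.π p)) p).2.comp C)

omit [FiniteDimensional ℝ E] in
lemma act_tgt (p : P) (C : E →L[ℝ] E) : ((F.S.κ (idx E (F.π p)) p).1,
    (F.S.κ (idx E (F.π p)) p).2.comp C) ∈ (F.S.κ (idx E (F.π p))).target :=
  (F.tgt _ _).2 (F.mem_tgt (F.mem_src_idx p))

omit [FiniteDimensional ℝ E] in
lemma act_src (p : P) (C : E →L[ℝ] E) : F.act p C ∈ (F.S.κ (idx E (F.π p))).source :=
  (F.S.κ (idx E (F.π p))).map_target (F.act_tgt p C)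

omit [FiniteDimensional ℝ E] in
lemma act_chart (p : P) (C : E →L[ℝ] E) :
    F.S.κ (idx E (F.π p)) (F.act p C) = ((F.S.κ (idx E (F.π p)) p).1,
    (F.S.κ (idx E (F.π p)) p).2.comp C) :=
  (F.S.κ (idx E (F.π p))).right_inv (F.act_tgt p C)

omit [FiniteDimensional ℝ E] in
lemma pull_act (p : P) (C : E →L[ℝ] E) (u v : E) :
    F.form (F.act p C) u v = F.form p (C u) (C v) := by
  rw [F.pull_apply (F.act_src p C), F.pull_apply (F.mem_src_idx p), F.act_chart]
  rfl

/-- The vertical flows. -/
lemma isFlow_vert {g₀ : E →L[ℝ] E →L[ℝ] ℝ} {B : E →L[ℝ] E}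
    (hB : ∀ u v, g₀ (B u) v + g₀ u (B v) = 0) :
    ∃ Φ, ParSpace.IsFlow F.S (F.Q g₀) (0, B) Φ := by
  have hexp : ∀ t : ℝ, HasDerivAt (fun s : ℝ => NormedSpace.exp (s • B))
      (NormedSpace.exp (t • B) * B) t := fun t => hasDerivAt_exp_smul_const B t
  have hexp' : ∀ t : ℝ, HasDerivAt (fun s : ℝ => NormedSpace.exp (s • B))
      (B * NormedSpace.exp (t • B)) t := fun t => hasDerivAt_exp_smul_const' B t
  have hinv : ∀ (t : ℝ) (u v : E),
      g₀ (NormedSpace.exp (t • B) u) (NormedSpace.exp (t • B) v) = g₀ u v := by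
    intro t u v
    have h1 : ∀ t : ℝ, HasDerivAt
        (fun s : ℝ => g₀ (NormedSpace.exp (s • B) u) (NormedSpace.exp (s • B) v)) 0 t := by
      intro t
      have hu := (hexp' t).clm_apply (hasDerivAt_const t u)
      have hv := (hexp' t).clm_apply (hasDerivAt_const t v)
      have h2 := (g₀.hasFDerivAt (x := NormedSpace.exp (t • B) u)).comp_hasDerivAt t hu
      have h3 := h2.clm_apply hv
      refine h3.congr_deriv ?_
      have := hB (NormedSpace.exp (t • B) u) (NormedSpace.exp (t • B) v)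
      simp only [map_zero, add_zero, mul_apply_eq_comp, Function.comp_apply]
      exact this
    have h4 := is_const_of_deriv_eq_zero
      (f := fun s : ℝ => g₀ (NormedSpace.exp (s • B) u) (NormedSpace.exp (s • B) v))
      (fun t => (h1 t).differentiableAt) (fun t => (h1 t).deriv) t 0
    simpa using h4
  refine ⟨fun p t => F.act p (NormedSpace.exp (t • B)), ?_, ?_, ?_⟩
  · intro p _
    apply (F.S.κ (idx E (F.π p))).injOn (F.act_src p _) (F.mem_src_idx p)
    rw [F.act_chart]
    refine Prod.ext rfl ?_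
    ext u
    simp
  · intro p hp t
    rw [mem_Q] at hp ⊢
    ext u v
    rw [F.pull_act, hp, hinv]
  · intro p _ t
    have hd : HasDerivAt (fun s => F.S.κ (idx E (F.π p)) (F.act p (NormedSpace.exp (s • B))))
        ((0 : E), (F.S.κ (idx E (F.π p)) p).2.comp (NormedSpace.exp (t • B) * B)) t := by
      have h1 : HasDerivAt (fun s : ℝ => ((F.S.κ (idx E (F.π p)) p).1,
          (F.S.κ (idx E (F.π p)) p).2.comp (NormedSpace.exp (s • B))))
          ((0 : E), (F.S.κ (idx E (F.π p)) p).2.comp (NormedSpace.exp (t • B) * B)) t := by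
        refine (hasDerivAt_const t _).prodMk ?_
        have h2 := (ContinuousLinearMap.compL ℝ E E E
          (F.S.κ (idx E (F.π p)) p).2).hasFDerivAt.comp_hasDerivAt t (hexp t)
        exact h2
      refine h1.congr_of_eventuallyEq (Eventually.of_forall fun s => ?_)
      exact F.act_chart p _
    refine ParSpace.Ctl.of_chart ?_ (F.act_src p _) ?_
    · have h1 : ContinuousAt (fun s : ℝ => ((F.S.κ (idx E (F.π p)) p).1,
          (F.S.κ (idx E (F.π p)) p).2.comp (NormedSpace.exp (s • B)))) t := by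
        have h2 := hd.continuousAt
        refine h2.congr (Eventually.of_forall fun s => ?_)
        exact F.act_chart p _
      exact ContinuousAt.comp (g := (F.S.κ (idx E (F.π p))).symm)
        ((F.S.κ (idx E (F.π p))).continuousAt_symm (F.act_tgt p _)) h1
    · refine hd.congr_deriv ?_
      have hy : (F.S.κ (idx E (F.π p)) (F.act p (NormedSpace.exp (t • B)))).1
          ∈ (idx E (F.π p)).1.target := F.mem_tgt (F.act_src p _)
      refine Prod.ext ?_ ?_
      · rw [F.Y_fst _ _ _ _ hy, map_zero]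
      · ext u
        rw [F.Y_snd _ _ _ _ _ hy, map_zero]
        have h0 : g.Γ (idx E (F.π p)).1
            (F.S.κ (idx E (F.π p)) (F.act p (NormedSpace.exp (t • B)))).1 0
            ((F.S.κ (idx E (F.π p)) (F.act p (NormedSpace.exp (t • B)))).2 u) = 0 := by
          rw [← g.chrCLM_eq]
          simp
        rw [h0, F.act_chart]
        simp

end FrameSpec

end

end Pool.Agent.Lib.MP_611141_gt
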