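import Pool.Agent.Lib.MP_611141_gt.Extend

/-!
Gauge data from jets: a function `c : P → W` satisfying a linear differential equation along every
path in `Q`, from which the bracket on `Q` is computed.
-/

open Set Filter Metric Asymptotics
open scoped Topology NNReal

set_option maxSynthPendingDepth 3

noncomputable section

namespace Pool.Agent.Lib.MP_611141_gt

namespace ParSpace

variable {P J V 𝔤 : Type*} [TopologicalSpace P] [NormedAddCommGroup V] [NormedSpace ℝ V]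
    [NormedAddCommGroup 𝔤] [NormedSpace ℝ 𝔤] {S : ParSpace P J V 𝔤}

/-- Jets `c : P → W` satisfying a linear equation along the paths in `Q`, which determine the
bracket. -/
structure JetData (S : ParSpace P J V 𝔤) (Q : Set P) (W : Type*) [NormedAddCommGroup W]
    [NormedSpace ℝ W] where
  closed : IsClosed Q
  c : P → W
  c_cont : ContinuousOn c Q
  N : 𝔤 →L[ℝ] W →L[ℝ] W
  deriv : ∀ (f : ℝ → P) (z : 𝔤) (t : ℝ), (∀ᶠ s in 𝓝 t, f s ∈ Q) → S.Ctl f z t →
    HasDerivAt (fun s => c (f s)) (N z (c (f t))) t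
  S₀ : 𝔤 →L[ℝ] 𝔤 →L[ℝ] 𝔤
  ρ : W →L[ℝ] 𝔤 →L[ℝ] 𝔤 →L[ℝ] 𝔤
  bracket : Bracket S Q (fun p => S₀ + ρ (c p))
  H : Submodule ℝ 𝔤
  ctl_mem : ∀ (f : ℝ → P) (z : 𝔤) (t : ℝ), (∀ᶠ s in 𝓝 t, f s ∈ Q) → S.Ctl f z t → z ∈ H
  span : H ≤ Submodule.span ℝ {u | ∃ Φ : P → ℝ → P, IsFlow S Q u Φ}

/-- Gronwall, two-sided. -/
theorem gronwall_two_sided {W : Type*} [NormedAddCommGroup W] [NormedSpace ℝ W] {f f' : ℝ → W}
    {K a b : ℝ} (hf : ∀ t ∈ Ioo a b, HasDerivAt f (f' t) t)
    (hb : ∀ t ∈ Ioo a b, ‖f' t‖ ≤ K * ‖f t‖) :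
    ∀ s ∈ Ioo a b, ∀ t ∈ Ioo a b, ‖f t‖ ≤ Real.exp (K * |t - s|) * ‖f s‖ := by
  -- one sided
  have key : ∀ (g g' : ℝ → W) (a b : ℝ), (∀ t ∈ Ioo a b, HasDerivAt g (g' t) t) →
      (∀ t ∈ Ioo a b, ‖g' t‖ ≤ K * ‖g t‖) → ∀ s ∈ Ioo a b, ∀ t ∈ Ioo a b, s ≤ t →
      ‖g t‖ ≤ Real.exp (K * (t - s)) * ‖g s‖ := by
    intro g g' a b hg hgb s hs t ht hst
    have hsub : Icc s t ⊆ Ioo a b := fun r hr => ⟨hs.1.trans_le hr.1, hr.2.trans_lt ht.2⟩
    have h1 := norm_le_gronwallBound_of_norm_deriv_right_le (f := g) (f' := g') (δ := ‖g s‖)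
      (K := K) (ε := 0) (a := s) (b := t)
      (fun r hr => (hg r (hsub hr)).continuousAt.continuousWithinAt)
      (fun r hr => (hg r (hsub (Ico_subset_Icc_self hr))).hasDerivWithinAt) le_rfl
      (fun r hr => by rw [add_zero]; exact hgb r (hsub (Ico_subset_Icc_self hr))) t
      ⟨hst, le_rfl⟩
    rw [gronwallBound_ε0] at h1
    linarith
  intro s hs t ht
  rcases le_total s t with hst | hst
  · rw [abs_of_nonneg (by linarith)]
    exact key f f' a b hf hb s hs t ht hst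
  · rw [abs_of_nonpos (by linarith)]
    have h1 := key (fun r => f (-r)) (fun r => -f' (-r)) (-b) (-a) (fun r hr => ?_) (fun r hr => ?_)
      (-s) ⟨by linarith [hs.2], by linarith [hs.1]⟩ (-t) ⟨by linarith [ht.2], by linarith [ht.1]⟩
      (by linarith)
    · simp only [neg_neg] at h1
      have e1 : -t - -s = -(t - s) := by ring
      rwa [e1] at h1
    · have h2 := (hf (-r) ⟨by linarith [hr.2], by linarith [hr.1]⟩).scomp r (hasDerivAt_neg r)
      simpa [Function.comp_def] using h2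
    · rw [norm_neg]
      exact hb (-r) ⟨by linarith [hr.2], by linarith [hr.1]⟩

/-- Coordinates for a subspace spanned by a set. -/
theorem exists_coordinates [FiniteDimensional ℝ 𝔤] {H : Submodule ℝ 𝔤} {T : Set 𝔤}
    (h0 : (0 : 𝔤) ∈ T) (hT : H ≤ Submodule.span ℝ T) :
    ∃ (n : ℕ) (u : Fin n → 𝔤) (lam : Fin n → 𝔤 →L[ℝ] ℝ), (∀ i, u i ∈ T) ∧
      ∀ z ∈ H, z = ∑ i, lam i z • u i := by
  classical
  obtain ⟨b, hbT, hspan, hli'⟩ := exists_linearIndependent ℝ T
  have hli : LinearIndepOn ℝ id b := hli'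
  set B := Module.Basis.extend hli with hB
  have : Fintype (hli.extend (subset_univ b)) := FiniteDimensional.fintypeBasisIndex B
  let e := Fintype.equivFin (hli.extend (subset_univ b))
  refine ⟨Fintype.card (hli.extend (subset_univ b)),
    fun i => if ((e.symm i : hli.extend (subset_univ b)) : 𝔤) ∈ b then (e.symm i : 𝔤) else 0,
    fun i => LinearMap.toContinuousLinearMap (B.coord (e.symm i)), ?_, ?_⟩
  · intro i
    dsimp only
    split_ifs with h
    · exact hbT h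
    · exact h0
  · intro z hz
    have hz' : z ∈ Submodule.span ℝ b := by rw [hspan]; exact hT hz
    have h1 : z ∈ Submodule.span ℝ (B '' {i | (i : 𝔤) ∈ b}) := by
      refine Submodule.span_mono ?_ hz'
      intro x hx
      have hx' : x ∈ hli.extend (subset_univ b) := hli.subset_extend _ hx
      exact ⟨⟨x, hx'⟩, hx, by rw [hB, Module.Basis.extend_apply_self]⟩
    rw [B.mem_span_image] at h1
    rw [← e.sum_comp]
    simp only [Equiv.symm_apply_apply, LinearMap.coe_toContinuousLinearMap', Module.Basis.coord_apply]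
    conv_lhs => rw [← B.sum_repr z]
    refine Finset.sum_congr rfl fun i _ => ?_
    by_cases hi : (i : 𝔤) ∈ b
    · rw [if_pos hi, hB, Module.Basis.extend_apply_self]
    · rw [if_neg hi, smul_zero]
      have : B.repr z i = 0 := by
        by_contra hne
        exact hi (h1 (Finsupp.mem_support_iff.2 hne))
      rw [this, zero_smul]

theorem isFlow_zero (Q : Set P) : IsFlow S Q 0 (fun p _ => p) where
  zero _ _ := rfl
  mem _ hp _ := hp
  ctl p _ s := ctl_const p s

variable {Q : Set P} {W : Type*} [NormedAddCommGroup W] [NormedSpace ℝ W]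

namespace JetData

/-- Gauge data from jet data. -/
theorem nonempty_gaugeData [FiniteDimensional ℝ 𝔤] (D : JetData S Q W) :
    Nonempty (GaugeData S Q) := by
  obtain ⟨n, u, lam, hu, hlam⟩ := exists_coordinates
    (T := {u | ∃ Φ : P → ℝ → P, IsFlow S Q u Φ}) ⟨_, isFlow_zero (S := S) Q⟩ D.span
  refine ⟨{
    closed := D.closed
    Sb := fun p => D.S₀ + D.ρ (D.c p)
    Sb_cont := continuousOn_const.add (D.ρ.continuous.comp_continuousOn D.c_cont)
    bracket := D.bracket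
    h := fun p => ‖D.c p‖
    h_nonneg := fun p => norm_nonneg _
    C := ‖D.N‖
    C_nonneg := norm_nonneg _
    growth := ?_
    C₀ := max ‖D.S₀‖ ‖D.ρ‖
    Sb_le := ?_
    H := D.H
    ctl_mem := D.ctl_mem
    n := n
    u := u
    lam := lam
    span := hlam
    complete := hu }⟩
  · intro f z a b l hf
    refine gronwall_two_sided (f' := fun t => D.N (z t) (D.c (f t))) (fun t ht => ?_)
      (fun t ht => ?_)
    · refine D.deriv f (z t) t ?_ (hf t ht).2.1
      filter_upwards [isOpen_Ioo.mem_nhds ht] with r hr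
      exact (hf r hr).1
    · refine ((D.N (z t)).le_opNorm _).trans ?_
      gcongr
      refine (D.N.le_opNorm _).trans ?_
      gcongr
      exact (hf t ht).2.2
  · intro p _
    have h1 : ‖D.ρ (D.c p)‖ ≤ ‖D.ρ‖ * ‖D.c p‖ := D.ρ.le_opNorm _
    calc ‖D.S₀ + D.ρ (D.c p)‖ ≤ ‖D.S₀‖ + ‖D.ρ‖ * ‖D.c p‖ := (norm_add_le _ _).trans (by gcongr)
      _ ≤ max ‖D.S₀‖ ‖D.ρ‖ + max ‖D.S₀‖ ‖D.ρ‖ * ‖D.c p‖ := by
          gcongr
          · exact le_max_left _ _
          · exact le_max_right _ _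
      _ = max ‖D.S₀‖ ‖D.ρ‖ * (1 + ‖D.c p‖) := by ring

/-- Constant controls preserving `Q` are complete. -/
theorem exists_isFlow [CompleteSpace V] [FiniteDimensional ℝ 𝔤] [T2Space P]
    (D : JetData S Q W) {u : 𝔤} (hQ : Preserves S Q u) : ∃ Φ : P → ℝ → P, IsFlow S Q u Φ := by
  have : CompleteSpace 𝔤 := FiniteDimensional.complete ℝ 𝔤
  obtain ⟨G⟩ := D.nonempty_gaugeData
  exact G.exists_isFlow hQ

theorem exists_global [CompleteSpace V] [FiniteDimensional ℝ 𝔤] [T2Space P]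
    (D : JetData S Q W) {u : 𝔤} (hQ : Preserves S Q u) {p : P} (hp : p ∈ Q) :
    ∃ f : ℝ → P, f 0 = p ∧ ∀ t, f t ∈ Q ∧ S.Ctl f u t := by
  have : CompleteSpace 𝔤 := FiniteDimensional.complete ℝ 𝔤
  obtain ⟨G⟩ := D.nonempty_gaugeData
  exact G.exists_global hQ hp

end JetData

end ParSpace

end Pool.Agent.Lib.MP_611141_gt
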