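import Pool.Agent.Lib.MP_611141_gt.Geod

/-!
# Geodesics and paths in the frame space
-/

set_option autoImplicit false
set_option maxSynthPendingDepth 3

open Set Topology Filter
open scoped ContDiff Manifold

namespace Pool.Agent.Lib.MP_611141_gt

noncomputable section

namespace FrameSpec

variable {E M : Type} [NormedAddCommGroup E] [NormedSpace ℝ E] [TopologicalSpace M]
  [ChartedSpace E M] {g : PseudoMetric E M} {P : Type} [TopologicalSpace P] (F : FrameSpec g P)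

/-- The base curve of a path. -/
lemma hasDerivAt_base {f : ℝ → P} {z : E × (E →L[ℝ] E)} {t : ℝ} (h : F.S.Ctl f z t)
    {j : atlas E M} (hj : f t ∈ (F.S.κ j).source) :
    HasDerivAt (j.1 ∘ F.π ∘ f) ((F.S.κ j (f t)).2 z.1) t := by
  have h1 : HasDerivAt (fun s => (F.S.κ j (f s)).1) (F.S.Y j (F.S.κ j (f t)) z).1 t :=
    (h.2 j hj).fst
  obtain ⟨w, B⟩ := z
  rw [F.Y_fst j _ w B (F.mem_tgt hj)] at h1
  refine h1.congr_of_eventuallyEq ?_
  have hev : ∀ᶠ s in 𝓝 t, f s ∈ (F.S.κ j).source :=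
    h.1.eventually ((F.S.κ j).open_source.mem_nhds hj)
  filter_upwards [hev] with s hs
  simp only [Function.comp_apply]
  exact (F.fst j _ hs).symm

/-- The base curve of a path with constant control `(w, 0)` is a geodesic. -/
lemma isGeodesicOn_of_ctl {f : ℝ → P} {w : E} {I : Set ℝ} (hI : IsOpen I)
    (hf : ∀ t ∈ I, F.S.Ctl f (w, 0) t) : g.IsGeodesicOn (F.π ∘ f) I := by
  intro t ht
  refine ⟨F.π_cont.continuousAt.comp (hf t ht).1, fun φ hφ hφt => ?_⟩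
  have hj : f t ∈ (F.S.κ ⟨φ, hφ⟩).source := (F.src _ _).2 hφt
  have hev : ∀ᶠ s in 𝓝 t, HasDerivAt (φ ∘ F.π ∘ f) ((F.S.κ ⟨φ, hφ⟩ (f s)).2 w) s := by
    have h1 : ∀ᶠ s in 𝓝 t, f s ∈ (F.S.κ ⟨φ, hφ⟩).source :=
      (hf t ht).1.eventually ((F.S.κ ⟨φ, hφ⟩).open_source.mem_nhds hj)
    filter_upwards [h1, hI.mem_nhds ht] with s hs hsI
    exact F.hasDerivAt_base (hf s hsI) hs
  refine ⟨hev.mono fun s hs => hs.differentiableAt, ?_⟩
  have h2 : HasDerivAt (fun s => (F.S.κ ⟨φ, hφ⟩ (f s)).2) _ t := ((hf t ht).2 _ hj).snd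
  have h3 := h2.clm_apply (hasDerivAt_const t w)
  have h4 : HasDerivAt (deriv (φ ∘ F.π ∘ f)) _ t := h3.congr_of_eventuallyEq (by
    filter_upwards [hev] with s hs
    exact hs.deriv)
  refine h4.congr_deriv ?_
  rw [F.Y_snd _ _ _ _ _ (F.mem_tgt hj), hev.self_of_nhds.deriv]
  have h5 := F.fst _ _ hj
  simp only [zero_apply, map_zero, add_zero, zero_sub, Function.comp_apply] at h5 ⊢
  rw [h5]

variable (γ : ℝ → M) (lam : E →L[ℝ] ℝ)

/-- The lift `γ' ⊗ λ` of a curve to the frame space. -/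
def lift (t : ℝ) : P :=
  (F.S.κ (idx E (γ t))).symm ((idx E (γ t)).1 (γ t),
    lam.smulRight (deriv ((idx E (γ t)).1 ∘ γ) t))

lemma lift_tgt (t : ℝ) : ((idx E (γ t)).1 (γ t),
    lam.smulRight (deriv ((idx E (γ t)).1 ∘ γ) t)) ∈ (F.S.κ (idx E (γ t))).target :=
  (F.tgt _ _).2 ((idx E (γ t)).1.map_source (mem_idx E _))

lemma lift_src (t : ℝ) : F.lift γ lam t ∈ (F.S.κ (idx E (γ t))).source :=
  (F.S.κ (idx E (γ t))).map_target (F.lift_tgt γ lam t)

lemma π_lift (t : ℝ) : F.π (F.lift γ lam t) = γ t := by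
  have h1 := F.lift_src γ lam t
  have h2 := F.fst _ _ h1
  have h3 : F.S.κ (idx E (γ t)) (F.lift γ lam t) = _ :=
    (F.S.κ (idx E (γ t))).right_inv (F.lift_tgt γ lam t)
  rw [h3] at h2
  exact (idx E (γ t)).1.injOn ((F.src _ _).1 h1) (mem_idx E _) h2.symm

variable {γ}

lemma lift_chart [IsManifold 𝓘(ℝ, E) ∞ M] {t : ℝ} (hc : ContinuousAt γ t)
    (hd : DifferentiableAt ℝ ((idx E (γ t)).1 ∘ γ) t) {j : atlas E M} (hj : γ t ∈ j.1.source) :
    F.S.κ j (F.lift γ lam t) = (j.1 (γ t), lam.smulRight (deriv (j.1 ∘ γ) t)) := by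
  have h1 := F.lift_src γ lam t
  have hπ := F.π_lift γ lam t
  have hj' : F.lift γ lam t ∈ (F.S.κ j).source := (F.src _ _).2 (by rw [hπ]; exact hj)
  have h3 : F.S.κ (idx E (γ t)) (F.lift γ lam t) = _ :=
    (F.S.κ (idx E (γ t))).right_inv (F.lift_tgt γ lam t)
  refine Prod.ext ?_ ?_
  · rw [F.fst _ _ hj', hπ]
  · rw [F.snd _ _ _ h1 hj', h3, hπ]
    have h4 : HasFDerivAt (j.1 ∘ (idx E (γ t)).1.symm)
        (fderiv ℝ (j.1 ∘ (idx E (γ t)).1.symm) ((idx E (γ t)).1 (γ t)))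
        ((idx E (γ t)).1 (γ t)) :=
      ((contDiffAt_transition (idx E (γ t)).2 j.2
        (mem_overlap (mem_idx E _) hj)).differentiableAt (by simp)).hasFDerivAt
    have h5 := h4.comp_hasDerivAt t hd.hasDerivAt
    have h6 : HasDerivAt (j.1 ∘ γ) _ t := h5.congr_of_eventuallyEq (by
      have hev : ∀ᶠ s in 𝓝 t, γ s ∈ (idx E (γ t)).1.source :=
        hc.eventually ((idx E (γ t)).1.open_source.mem_nhds (mem_idx E _))
      filter_upwards [hev] with s hs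
      simp only [Function.comp_apply, (idx E (γ t)).1.left_inv hs])
    rw [h6.deriv]
    ext u
    simp

lemma ctl_lift [FiniteDimensional ℝ E] [IsManifold 𝓘(ℝ, E) ∞ M] {I : Set ℝ} (hI : IsOpen I)
    (hγ : g.IsGeodesicOn γ I)
    {w : E} (hw : lam w = 1) {t : ℝ} (ht : t ∈ I) : F.S.Ctl (F.lift γ lam) (w, 0) t := by
  have hjt : γ t ∈ (idx E (γ t)).1.source := mem_idx E _
  have hev : ∀ᶠ s in 𝓝 t, F.S.κ (idx E (γ t)) (F.lift γ lam s) =
      ((idx E (γ t)).1 (γ s), lam.smulRight (deriv ((idx E (γ t)).1 ∘ γ) s)) := by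
    have h1 : ∀ᶠ s in 𝓝 t, γ s ∈ (idx E (γ t)).1.source :=
      (hγ t ht).1.eventually ((idx E (γ t)).1.open_source.mem_nhds hjt)
    filter_upwards [h1, hI.mem_nhds ht] with s hs hsI
    exact F.lift_chart lam (hγ s hsI).1
      ((hγ s hsI).2 _ (idx E (γ s)).2 (mem_idx E _)).1.self_of_nhds hs
  have hev' : ∀ᶠ s in 𝓝 t, F.lift γ lam s ∈ (F.S.κ (idx E (γ t))).source := by
    have h1 : ∀ᶠ s in 𝓝 t, γ s ∈ (idx E (γ t)).1.source :=
      (hγ t ht).1.eventually ((idx E (γ t)).1.open_source.mem_nhds hjt)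
    filter_upwards [h1] with s hs
    exact (F.src _ _).2 (by rw [F.π_lift]; exact hs)
  obtain ⟨hd1, hd2⟩ := (hγ t ht).2 _ (idx E (γ t)).2 hjt
  have hder : HasDerivAt (fun s => ((idx E (γ t)).1 (γ s),
      lam.smulRight (deriv ((idx E (γ t)).1 ∘ γ) s)))
      (deriv ((idx E (γ t)).1 ∘ γ) t, lam.smulRight
      (-g.Γ (idx E (γ t)).1 ((idx E (γ t)).1 (γ t)) (deriv ((idx E (γ t)).1 ∘ γ) t)
        (deriv ((idx E (γ t)).1 ∘ γ) t))) t := by
    refine hd1.self_of_nhds.hasDerivAt.prodMk ?_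
    exact (ContinuousLinearMap.smulRightL ℝ E E lam).hasFDerivAt.comp_hasDerivAt t hd2
  have hder' := hder.congr_of_eventuallyEq hev
  refine ParSpace.Ctl.of_chart ?_ hev'.self_of_nhds ?_
  · have h1 : ContinuousAt (fun s => (F.S.κ (idx E (γ t))).symm
        (F.S.κ (idx E (γ t)) (F.lift γ lam s))) t :=
      ContinuousAt.comp (g := (F.S.κ (idx E (γ t))).symm)
        (f := fun s => F.S.κ (idx E (γ t)) (F.lift γ lam s))
        ((F.S.κ (idx E (γ t))).continuousAt_symm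
          ((F.S.κ (idx E (γ t))).map_source hev'.self_of_nhds)) hder'.continuousAt
    refine h1.congr ?_
    filter_upwards [hev'] with s hs
    exact (F.S.κ (idx E (γ t))).left_inv hs
  · refine hder'.congr_deriv ?_
    have hy := F.mem_tgt hev'.self_of_nhds
    refine Prod.ext ?_ ?_
    · rw [F.Y_fst _ _ _ _ hy, hev.self_of_nhds]
      simp [hw]
    · ext u
      rw [F.Y_snd _ _ _ _ _ hy, hev.self_of_nhds]
      have h0 : ∀ (y a : E) (c : ℝ), g.Γ (idx E (γ t)).1 y a (c • a)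
          = c • g.Γ (idx E (γ t)).1 y a a := by
        intro y a c
        rw [← g.chrCLM_eq, ← g.chrCLM_eq, map_smul]
      simp [hw, h0]

variable [FiniteDimensional ℝ E] [IsManifold 𝓘(ℝ, E) ∞ M] [T2Space P]

include F in
/-- Uniqueness of geodesics. -/
lemma geodesic_unique [Nontrivial E] {γ δ : ℝ → M} {I : Set ℝ} (hI : IsOpen I)
    (hI' : IsPreconnected I) (hγ : g.IsGeodesicOn γ I) (hδ : g.IsGeodesicOn δ I) {t₀ : ℝ}
    (ht₀ : t₀ ∈ I) (h : γ t₀ = δ t₀)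
    (h' : deriv ((idx E (γ t₀)).1 ∘ γ) t₀ = deriv ((idx E (γ t₀)).1 ∘ δ) t₀) : EqOn γ δ I := by
  obtain ⟨w, hw⟩ := exists_ne (0 : E)
  obtain ⟨lam, -, hlam⟩ := exists_dual_vector ℝ w (by simpa using hw)
  have hw' : lam (‖w‖⁻¹ • w) = 1 := by
    rw [map_smul, hlam]
    simp [hw]
  have h1 : EqOn (F.lift γ lam) (F.lift δ lam) I := by
    refine ParSpace.ctl_unique (S := F.S) hI' hI (fun t ht => F.ctl_lift lam hI hγ hw' ht)
      (fun t ht => F.ctl_lift lam hI hδ hw' ht) ht₀ ?_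
    unfold lift
    rw [← h, h']
  intro t ht
  rw [← F.π_lift γ lam t, ← F.π_lift δ lam t, h1 ht]

include F in
/-- Uniqueness of geodesics which agree on an open set. -/
lemma geodesic_unique' [Nontrivial E] {γ δ : ℝ → M} {I J : Set ℝ} (hI : IsOpen I)
    (hI' : IsPreconnected I) (hγ : g.IsGeodesicOn γ I) (hδ : g.IsGeodesicOn δ I)
    (hJ : IsOpen J) (hJI : J ⊆ I) (hJ0 : J.Nonempty) (h : EqOn γ δ J) : EqOn γ δ I := by
  obtain ⟨t₀, ht₀⟩ := hJ0
  refine F.geodesic_unique hI hI' hγ hδ (hJI ht₀) (h ht₀) ?_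
  refine Filter.EventuallyEq.deriv_eq ?_
  filter_upwards [hJ.mem_nhds ht₀] with s hs
  simp only [Function.comp_apply, h hs]

end FrameSpec

end

end Pool.Agent.Lib.MP_611141_gt
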