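import Pool.Agent.Lib.MP_611141_gt.Complete
import Pool.Agent.Lib.MP_611141_gt.FrameComplete
import Pool.Agent.Lib.PRSym.FrameInst
import Pool.Agent.Lib.PRSym.Spanning

/-!
# The main theorem
-/

set_option autoImplicit false
set_option maxSynthPendingDepth 3

open Set Topology Filter
open scoped ContDiff Manifold

namespace Pool.Agent.Lib.MP_611141_gt

noncomputable section

variable {E M : Type} [NormedAddCommGroup E] [NormedSpace ℝ E] [FiniteDimensional ℝ E]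
  [TopologicalSpace M] [ChartedSpace E M] [IsManifold 𝓘(ℝ, E) ∞ M]

namespace FrameSpec

variable {g : PseudoMetric E M} {P : Type} [TopologicalSpace P] [T2Space P] (F : FrameSpec g P)

lemma span_flows {η : E →L[ℝ] E →L[ℝ] ℝ} (hη : ∀ u, (∀ v, η u v = 0) → u = 0)
    (hsymm : ∀ u v, η u v = η v u) (hneg : ∃ u, η u u < 0) (hpos : ∃ u, 0 < η u u)
    {σ : SignType} (hσ : g.CausallyComplete σ) :
    skew η ≤ Submodule.span ℝ {u | ∃ Φ : P → ℝ → P, ParSpace.IsFlow F.S (F.Q η) u Φ} := by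
  have hnt : Nontrivial E := by
    obtain ⟨u, hu⟩ := hpos
    refine ⟨⟨u, 0, fun h => ?_⟩⟩
    rw [h] at hu
    simp at hu
  rintro ⟨w, B⟩ hz
  have hB : ((0 : E), B) ∈ Submodule.span ℝ
      {u | ∃ Φ : P → ℝ → P, ParSpace.IsFlow F.S (F.Q η) u Φ} :=
    Submodule.subset_span (F.isFlow_vert (mem_skew.1 hz))
  have hw : (w, (0 : E →L[ℝ] E)) ∈ Submodule.span ℝ
      {u | ∃ Φ : P → ℝ → P, ParSpace.IsFlow F.S (F.Q η) u Φ} := by
    have h1 : w ∈ Submodule.span ℝ {v | v ≠ 0 ∧ SignType.sign (η v v) = σ} := by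
      rw [PRSym.span_causal η hsymm hneg hpos σ]
      trivial
    have h2 : LinearMap.inl ℝ E (E →L[ℝ] E) w ∈ Submodule.map (LinearMap.inl ℝ E (E →L[ℝ] E))
        (Submodule.span ℝ {v | v ≠ 0 ∧ SignType.sign (η v v) = σ}) :=
      Submodule.mem_map_of_mem h1
    rw [Submodule.map_span] at h2
    refine Submodule.span_mono ?_ h2
    rintro _ ⟨v, hv, rfl⟩
    exact F.isFlow_of_causallyComplete hσ hη hv.1 hv.2
  have h3 := Submodule.add_mem _ hw hB
  simpa using h3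

/-- Geodesic completeness from completeness of all flows. -/
lemma eq_univ_of_inextendible [Nontrivial E]
    (hflow : ∀ (η : E →L[ℝ] E →L[ℝ] ℝ) (φ : OpenPartialHomeomorph M E), φ ∈ atlas E M →
      ∀ y ∈ φ.target, η = g.G φ y → ∀ w : E,
      ∃ Φ : P → ℝ → P, ParSpace.IsFlow F.S (F.Q η) (w, 0) Φ)
    {γ : ℝ → M} {I : Set ℝ} (hγ : g.IsInextendibleGeodesic γ I) : I = univ := by
  obtain ⟨t₀, ht₀⟩ := hγ.nonempty
  obtain ⟨j, hjdef⟩ : ∃ j, j = idx E (γ t₀) := ⟨_, rfl⟩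
  have hjt : γ t₀ ∈ j.1.source := by rw [hjdef]; exact mem_idx E _
  have hy : j.1 (γ t₀) ∈ j.1.target := j.1.map_source hjt
  have htgt : (j.1 (γ t₀), ContinuousLinearMap.id ℝ E) ∈ (F.S.κ j).target := (F.tgt _ _).2 hy
  obtain ⟨p₀, hp₀def⟩ : ∃ p₀, p₀ = (F.S.κ j).symm (j.1 (γ t₀), ContinuousLinearMap.id ℝ E) :=
    ⟨_, rfl⟩
  have hp₀ : p₀ ∈ (F.S.κ j).source := by rw [hp₀def]; exact (F.S.κ j).map_target htgt
  have hκ : F.S.κ j p₀ = (j.1 (γ t₀), ContinuousLinearMap.id ℝ E) := by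
    rw [hp₀def]; exact (F.S.κ j).right_inv htgt
  have hπ : F.π p₀ = γ t₀ := by
    have h1 := F.fst _ _ hp₀
    rw [hκ] at h1
    exact j.1.injOn ((F.src _ _).1 hp₀) hjt h1.symm
  set η : E →L[ℝ] E →L[ℝ] ℝ := g.G j.1 (j.1 (γ t₀)) with hη
  have hpQ : p₀ ∈ F.Q η := by
    rw [F.mem_Q]
    ext u v
    rw [F.form_apply j hp₀, hκ]
    rfl
  set w : E := deriv (j.1 ∘ γ) t₀ with hw
  obtain ⟨Φ, hΦ⟩ := hflow η j.1 j.2 _ hy hη w
  -- the complete geodesic
  have hctl : ∀ t ∈ (univ : Set ℝ), F.S.Ctl (fun s => Φ p₀ (s + -t₀)) (w, 0) t := fun t _ =>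
    ParSpace.Ctl.comp_add (hΦ.ctl p₀ hpQ _)
  have hgeo : g.IsGeodesicOn (F.π ∘ fun s => Φ p₀ (s + -t₀)) univ :=
    F.isGeodesicOn_of_ctl isOpen_univ hctl
  have h0 : Φ p₀ (t₀ + -t₀) = p₀ := by rw [add_neg_cancel]; exact hΦ.zero p₀ hpQ
  have heq : EqOn γ (F.π ∘ fun s => Φ p₀ (s + -t₀)) I := by
    refine F.geodesic_unique hγ.isOpen hγ.ordConnected.isPreconnected hγ.geodesic
      (fun t _ => hgeo t trivial) ht₀ ?_ ?_
    · simp only [Function.comp_apply, h0, hπ]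
    · rw [← hjdef]
      have h1 := F.hasDerivAt_base (hctl t₀ trivial) (j := j) (by simp only [h0]; exact hp₀)
      rw [h1.deriv]
      simp only [h0, hκ]
      rfl
  exact (hγ.maximal univ _ isOpen_univ ordConnected_univ (subset_univ _) hgeo heq).symm

end FrameSpec

namespace PseudoMetric

/-- **Main theorem.** Let `(M, g)` be an indefinite pseudo-Riemannian manifold with `∇^r R = 0`. If
`(M, g)` is complete for one causal type, then it is geodesically complete. -/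
theorem geodesicallyComplete [T2Space M] {g : PseudoMetric E M} {r : ℕ}
    (hr : g.IsSymmetricOfOrder r) (hind : g.IsIndefinite) {σ : SignType}
    (hσ : g.CausallyComplete σ) {γ : ℝ → M} {I : Set ℝ} (hγ : g.IsInextendibleGeodesic γ I) :
    I = univ := by
  have hnt : Nontrivial E := by
    obtain ⟨t₀, -⟩ := hγ.nonempty
    obtain ⟨-, u, hu⟩ := hind _ (idx E (γ t₀)).2 _ ((idx E (γ t₀)).1.map_source (mem_idx E _))
    refine ⟨⟨u, 0, fun h => ?_⟩⟩
    rw [h] at hu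
    simp at hu
  have F : FrameSpec g (PRSym.Fr g) := PRSym.frameSpec g
  refine F.eq_univ_of_inextendible ?_ hγ
  rintro η φ hφ y hy rfl w
  have hnd := g.nondeg φ hφ y hy
  have hs := g.symm φ hφ y hy
  exact F.exists_isFlow hr hnd hs (F.span_flows hnd hs (hind φ hφ y hy).1 (hind φ hφ y hy).2 hσ)
    (mem_skew.2 (by simp))

end PseudoMetric

end

end Pool.Agent.Lib.MP_611141_gt
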