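import Mathlib
import Pool.Agent.Lib.MP_611141_gt.ParSpace

/-!
# Constant control paths: extension past a limit point and maximality
-/

set_option autoImplicit false

open Set Topology Filter

namespace Pool.Agent.Lib.MP_611141_gt

namespace ParSpace

variable {P J V 𝔤 : Type*} [TopologicalSpace P] [NormedAddCommGroup V] [NormedSpace ℝ V]
    [NormedAddCommGroup 𝔤] [NormedSpace ℝ 𝔤] {S : ParSpace P J V 𝔤}

/-- Local existence with constant control. -/
theorem local_path [CompleteSpace V] (S : ParSpace P J V 𝔤) (x₀ : P) (v : 𝔤) :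
    ∃ ε > 0, ∃ f : ℝ → P, f 0 = x₀ ∧ ∀ t ∈ Ioo (-ε) ε, S.Ctl f v t := by
  obtain ⟨N, hN, δ, hδ, Ψ, -, h⟩ := local_flow S x₀ v
  obtain ⟨h0, h1⟩ := h x₀ (mem_of_mem_nhds hN)
  exact ⟨δ, hδ, fun s => Ψ (x₀, s), h0, h1⟩

/-- Extension of a converging path. -/
theorem extend_path [CompleteSpace V] {f : ℝ → P} {v : 𝔤} {a T : ℝ}
    (haT : a < T) (hf : ∀ t ∈ Ioo a T, S.Ctl f v t) {x : P}
    (hx : Tendsto f (𝓝[<] T) (𝓝 x)) :
    ∃ δ > 0, ∃ F : ℝ → P, (∀ t < T, F t = f t) ∧ F T = x ∧ ∀ t ∈ Ioo a (T + δ), S.Ctl F v t := by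
  obtain ⟨δ, hδ, h, h0, hh⟩ := local_path S x v
  classical
  let F : ℝ → P := fun t => if t < T then f t else h (t - T)
  have hF1 : ∀ t < T, F t = f t := fun t ht => if_pos ht
  have hF2 : ∀ t, T ≤ t → F t = h (t - T) := fun t ht => if_neg (not_lt.mpr ht)
  have hFT : F T = x := by rw [hF2 T le_rfl, sub_self, h0]
  refine ⟨δ, hδ, F, hF1, hFT, fun t ht => ?_⟩
  rcases lt_trichotomy t T with hlt | heq | hgt
  · refine (hf t ⟨ht.1, hlt⟩).congr ?_
    filter_upwards [Iio_mem_nhds hlt] with s hs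
    exact (hF1 s hs).symm
  · subst heq
    -- left and right limits
    have hcl : Tendsto F (𝓝[<] t) (𝓝 (F t)) := by
      rw [hFT]
      refine hx.congr' ?_
      filter_upwards [self_mem_nhdsWithin] with s hs
      exact (hF1 s hs).symm
    have hshift : ContinuousAt (fun s => h (s - t)) t := by
      have h1 : ContinuousAt h (t - t) := by
        rw [sub_self]
        exact (hh 0 (by constructor <;> linarith)).1
      exact ContinuousAt.comp (g := h) (f := fun s => s - t) h1 (by fun_prop)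
    have hcr : Tendsto F (𝓝[≥] t) (𝓝 (F t)) := by
      have h1 : Tendsto (fun s => h (s - t)) (𝓝[≥] t) (𝓝 (F t)) := by
        rw [hF2 t le_rfl]
        exact hshift.tendsto.mono_left nhdsWithin_le_nhds
      refine h1.congr' ?_
      filter_upwards [self_mem_nhdsWithin] with s hs
      exact (hF2 s hs).symm
    have hFc : ContinuousAt F t := by
      rw [ContinuousAt, ← nhdsLT_sup_nhdsGE]
      exact hcl.sup hcr
    obtain ⟨j, hj⟩ := S.cover x
    refine Ctl.of_chart hFc (i := j) (by rw [hFT]; exact hj) ?_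
    have hφF : ContinuousAt (fun s => S.κ j (F s)) t :=
      ContinuousAt.comp (g := S.κ j) (f := F) ((S.κ j).continuousAt (by rw [hFT]; exact hj)) hFc
    have hYc : ContinuousAt (fun y => S.Y j y v) (S.κ j (F t)) := by
      rw [hFT]
      exact (contDiffAt_Y j ((S.κ j).map_source hj) v).continuousAt
    -- right derivative
    have hr : HasDerivWithinAt (fun s => S.κ j (F s)) (S.Y j (S.κ j (F t)) v) (Ici t) t := by
      have h1 : HasDerivAt (fun s => S.κ j (h s)) (S.Y j (S.κ j (h 0)) v) (t - t) := by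
        rw [sub_self]
        exact (hh 0 (by constructor <;> linarith)).2 j (by rw [h0]; exact hj)
      have h2 : HasDerivAt (fun s => S.κ j (h (s - t))) (S.Y j (S.κ j (h 0)) v) t :=
        HasDerivAt.comp_sub_const t t h1
      rw [hFT, ← h0]
      refine h2.hasDerivWithinAt.congr ?_ ?_
      · intro s hs
        simp only [hF2 s hs]
      · simp only [hF2 t le_rfl]
    -- left derivative
    have hev : ∀ᶠ s in 𝓝[<] t, F s ∈ (S.κ j).source ∧ a < s := by
      have h1 : ∀ᶠ s in 𝓝 t, F s ∈ (S.κ j).source :=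
        hFc.eventually ((S.κ j).open_source.mem_nhds (by rw [hFT]; exact hj))
      exact (h1.and (lt_mem_nhds ht.1)).filter_mono nhdsWithin_le_nhds
    have hev2 : ∀ᶠ s in 𝓝[<] t, HasDerivAt (fun s => S.κ j (F s)) (S.Y j (S.κ j (F s)) v) s := by
      filter_upwards [hev, self_mem_nhdsWithin] with s hs hst
      have h1 : S.Ctl F v s := by
        refine (hf s ⟨hs.2, hst⟩).congr ?_
        filter_upwards [Iio_mem_nhds hst] with r hr
        exact (hF1 r hr).symm
      exact h1.2 j hs.1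
    have hl : HasDerivWithinAt (fun s => S.κ j (F s)) (S.Y j (S.κ j (F t)) v) (Iic t) t := by
      refine hasDerivWithinAt_Iic_of_tendsto_deriv
        (s := {s | s < t ∧ HasDerivAt (fun s => S.κ j (F s)) (S.Y j (S.κ j (F s)) v) s})
        ?_ ?_ ?_ ?_
      · rintro s ⟨-, hs⟩
        exact hs.differentiableAt.differentiableWithinAt
      · exact hφF.continuousWithinAt
      · exact Filter.inter_mem self_mem_nhdsWithin hev2
      · have h1 : Tendsto (fun s => S.Y j (S.κ j (F s)) v) (𝓝[<] t) (𝓝 (S.Y j (S.κ j (F t)) v)) :=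
          (ContinuousAt.comp (g := fun y => S.Y j y v) (f := fun s => S.κ j (F s)) hYc
            hφF).tendsto.mono_left nhdsWithin_le_nhds
        refine h1.congr' ?_
        filter_upwards [hev2] with s hs
        exact hs.deriv.symm
    have := hl.union hr
    rwa [Iic_union_Ici, hasDerivWithinAt_univ] at this
  · have h1 : S.Ctl (fun s => h (s + (-T))) v t := by
      apply Ctl.comp_add
      apply hh
      constructor <;> linarith [ht.2]
    refine h1.congr ?_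
    filter_upwards [Ioi_mem_nhds hgt] with s hs
    rw [hF2 s (le_of_lt hs)]
    congr 1

/-- Maximal paths in positive time. -/
theorem maximal_path [CompleteSpace V] [T2Space P] (S : ParSpace P J V 𝔤) (x₀ : P) (v : 𝔤)
    (b : ℝ) :
    (∃ f : ℝ → P, ∃ ε > 0, f 0 = x₀ ∧ ∀ t ∈ Ioo (-ε) b, S.Ctl f v t) ∨
    (∃ T > 0, T < b ∧ ∃ f : ℝ → P, ∃ ε > 0, f 0 = x₀ ∧ (∀ t ∈ Ioo (-ε) T, S.Ctl f v t) ∧
      ¬ ∃ x, Tendsto f (𝓝[<] T) (𝓝 x)) := by
  classical
  let Pr : ℝ → Prop := fun T => ∃ f : ℝ → P, ∃ ε > 0, f 0 = x₀ ∧ ∀ t ∈ Ioo (-ε) T, S.Ctl f v t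
  by_cases hPb : Pr b
  · left; exact hPb
  right
  obtain ⟨ε₀, hε₀, f₀, hf₀0, hf₀⟩ := local_path S x₀ v
  have hPε : Pr ε₀ := ⟨f₀, ε₀, hε₀, hf₀0, hf₀⟩
  have hPmono : ∀ T T', T' ≤ T → Pr T → Pr T' := by
    rintro T T' hTT' ⟨f, ε, hε, h0, h⟩
    exact ⟨f, ε, hε, h0, fun t ht => h t ⟨ht.1, by linarith [ht.2]⟩⟩
  have hub : ∀ T, Pr T → T ≤ b := by
    intro T hT
    by_contra hcon
    exact hPb (hPmono T b (not_le.mp hcon).le hT)
  let T := sSup {T | Pr T}
  have hbdd : BddAbove {T | Pr T} := ⟨b, fun T hT => hub T hT⟩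
  have hne : {T | Pr T}.Nonempty := ⟨ε₀, hPε⟩
  have hT0 : 0 < T := lt_of_lt_of_le hε₀ (le_csSup hbdd hPε)
  have hTb : T ≤ b := csSup_le hne hub
  -- choose paths for every smaller time
  have hex : ∀ t, t < T → ∃ T', t < T' ∧ Pr T' := by
    intro t ht
    obtain ⟨T', hT', h⟩ := exists_lt_of_lt_csSup hne ht
    exact ⟨T', h, hT'⟩
  have hPT : Pr T := by
    have hch : ∀ t, ∃ (f : ℝ → P) (ε T' : ℝ), t < T → (t < T' ∧ 0 < ε ∧ f 0 = x₀ ∧
        ∀ s ∈ Ioo (-ε) T', S.Ctl f v s) := by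
      intro t
      by_cases ht : t < T
      · obtain ⟨T', h1, f, ε, hε, h0, h⟩ := hex t ht
        exact ⟨f, ε, T', fun _ => ⟨h1, hε, h0, h⟩⟩
      · exact ⟨f₀, 1, 1, fun h => absurd h ht⟩
    choose k ε T' hk using hch
    let F : ℝ → P := fun t => if t ≤ 0 then f₀ t else k t t
    -- agreement
    have hagree : ∀ (f g : ℝ → P) (ε ε' T T' : ℝ), 0 < ε → 0 < ε' → 0 < T → 0 < T' →
        f 0 = x₀ → g 0 = x₀ →
        (∀ s ∈ Ioo (-ε) T, S.Ctl f v s) → (∀ s ∈ Ioo (-ε') T', S.Ctl g v s) →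
        ∀ s, 0 ≤ s → s < T → s < T' → f s = g s := by
      intro f g ε ε' T T' hε hε' hT hT' hf0 hg0 hf hg s hs hsT hsT'
      have h1 : 0 < min ε ε' := lt_min hε hε'
      have h2 := min_le_left ε ε'
      have h3 := min_le_right ε ε'
      have h4 := min_le_left T T'
      have h5 := min_le_right T T'
      exact ctl_unique (S := S) (I := Ioo (-(min ε ε')) (min T T')) isPreconnected_Ioo isOpen_Ioo
        (fun t ht => hf t ⟨by linarith [ht.1], by linarith [ht.2]⟩)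
        (fun t ht => hg t ⟨by linarith [ht.1], by linarith [ht.2]⟩) (t₀ := 0)
        ⟨by linarith, lt_min hT hT'⟩ (by rw [hf0, hg0]) ⟨by linarith, lt_min hsT hsT'⟩
    refine ⟨F, ε₀, hε₀, by simp [F, hf₀0], fun t ht => ?_⟩
    rcases lt_or_ge 0 t with h0t | h0t
    · -- t > 0
      obtain ⟨a1, a2, a3, a4⟩ := hk t ht.2
      have h1 : S.Ctl (k t) v t := a4 t ⟨by linarith, a1⟩
      refine h1.congr ?_
      filter_upwards [Ioo_mem_nhds h0t (lt_min a1 ht.2)] with s hs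
      have hs2 : s < T' t := lt_of_lt_of_le hs.2 (min_le_left _ _)
      have hs3 : s < T := lt_of_lt_of_le hs.2 (min_le_right _ _)
      obtain ⟨b1, b2, b3, b4⟩ := hk s hs3
      have hFs : F s = k s s := if_neg (not_le.mpr hs.1)
      rw [hFs]
      exact (hagree (k s) (k t) (ε s) (ε t) (T' s) (T' t) b2 a2 (by linarith [hs.1]) (by linarith)
        b3 a3 b4 a4 s hs.1.le b1 hs2).symm
    · -- t ≤ 0
      have h1 : S.Ctl f₀ v t := hf₀ t ⟨ht.1, by linarith⟩
      refine h1.congr ?_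
      filter_upwards [Iio_mem_nhds (show t < min ε₀ T from lt_of_le_of_lt h0t (lt_min hε₀ hT0))] with s hs
      have hs2 : s < ε₀ := lt_of_lt_of_le hs (min_le_left _ _)
      have hs3 : s < T := lt_of_lt_of_le hs (min_le_right _ _)
      by_cases hs0 : s ≤ 0
      · exact (if_pos hs0).symm
      · have hFs : F s = k s s := if_neg hs0
        rw [hFs]
        push Not at hs0
        obtain ⟨b1, b2, b3, b4⟩ := hk s hs3
        exact (hagree (k s) f₀ (ε s) ε₀ (T' s) ε₀ b2 hε₀ (by linarith) hε₀ b3 hf₀0 b4 hf₀ s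
          hs0.le b1 hs2).symm
  have hTlt : T < b := lt_of_le_of_ne hTb (by
    intro h
    rw [h] at hPT
    exact hPb hPT)
  obtain ⟨f, ε, hε, hf0, hf⟩ := hPT
  refine ⟨T, hT0, hTlt, f, ε, hε, hf0, hf, ?_⟩
  rintro ⟨x, hx⟩
  obtain ⟨δ, hδ, F, hF1, hF2, hF3⟩ := extend_path (S := S) (a := -ε) (by linarith) hf hx
  have hP : Pr (T + δ) := ⟨F, ε, hε, by rw [hF1 0 hT0, hf0], hF3⟩
  have := le_csSup hbdd hP
  linarith

/-- If no path in the directions `v` and `-v` stops, then there is a global path. -/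
theorem global_path [CompleteSpace V] [T2Space P] (S : ParSpace P J V 𝔤) (x₀ : P) (v : 𝔤)
    (hconv : ∀ w : 𝔤, (w = v ∨ w = -v) → ∀ (T : ℝ) (f : ℝ → P) (ε : ℝ), 0 < T → 0 < ε → f 0 = x₀ →
      (∀ t ∈ Ioo (-ε) T, S.Ctl f w t) → ∃ x, Tendsto f (𝓝[<] T) (𝓝 x)) :
    ∃ f : ℝ → P, f 0 = x₀ ∧ ∀ t, S.Ctl f v t := by
  classical
  have hmax : ∀ w : 𝔤, (w = v ∨ w = -v) → ∀ n : ℕ, ∃ f : ℝ → P, ∃ ε > 0, f 0 = x₀ ∧
      ∀ t ∈ Ioo (-ε) (n + 1 : ℝ), S.Ctl f w t := by
    intro w hw n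
    rcases maximal_path S x₀ w (n + 1) with h | ⟨T, hT, -, f, ε, hε, h0, h, hno⟩
    · exact h
    · exact absurd (hconv w hw T f ε hT hε h0 h) hno
  -- two sided paths
  have htwo : ∀ n : ℕ, ∃ f : ℝ → P, f 0 = x₀ ∧ ∀ t ∈ Ioo (-(n + 1 : ℝ)) (n + 1 : ℝ), S.Ctl f v t := by
    intro n
    obtain ⟨f, ε, hε, hf0, hf⟩ := hmax v (Or.inl rfl) n
    obtain ⟨g, ε', hε', hg0, hg⟩ := hmax (-v) (Or.inr rfl) n
    -- reversed g
    have hg' : ∀ t ∈ Ioo (-(n + 1 : ℝ)) ε', S.Ctl (fun s => g (-s)) v t := by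
      intro t ht
      have := Ctl.comp_neg (hg (-t) ⟨by linarith [ht.2], by linarith [ht.1]⟩)
      rwa [neg_neg] at this
    let F : ℝ → P := fun t => if 0 ≤ t then f t else g (-t)
    have hn : (0 : ℝ) < n + 1 := by positivity
    obtain ⟨ρ, hρ, hρ1, hρ2, hρ3⟩ : ∃ ρ > 0, ρ ≤ ε ∧ ρ ≤ ε' ∧ ρ ≤ (n + 1 : ℝ) :=
      ⟨min (min ε ε') (n + 1 : ℝ), by positivity, (min_le_left _ _).trans (min_le_left _ _),
        (min_le_left _ _).trans (min_le_right _ _), min_le_right _ _⟩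
    have hag : EqOn f (fun s => g (-s)) (Ioo (-ρ) ρ) := by
      refine ctl_unique (S := S) isPreconnected_Ioo isOpen_Ioo
        (fun t ht => hf t ⟨by linarith [ht.1], by linarith [ht.2]⟩)
        (fun t ht => hg' t ⟨by linarith [ht.1], by linarith [ht.2]⟩) (t₀ := 0)
        ⟨by linarith, hρ⟩ ?_
      simp [hf0, hg0]
    refine ⟨F, by simp [F, hf0], fun t ht => ?_⟩
    rcases lt_or_ge t 0 with h0t | h0t
    · refine (hg' t ⟨ht.1, by linarith⟩).congr ?_
      filter_upwards [Iio_mem_nhds h0t] with s hs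
      exact (if_neg (not_le.mpr hs)).symm
    · refine (hf t ⟨by linarith, ht.2⟩).congr ?_
      filter_upwards [Ioi_mem_nhds (show -ρ < t by linarith)] with s hs
      by_cases hs0 : 0 ≤ s
      · exact (if_pos hs0).symm
      · push Not at hs0
        have h1 : F s = g (-s) := if_neg (not_le.mpr hs0)
        rw [h1]
        exact hag ⟨hs, by linarith⟩
  choose k hk0 hk using htwo
  have hkk : ∀ m n : ℕ, m ≤ n → EqOn (k m) (k n) (Ioo (-(m + 1 : ℝ)) (m + 1 : ℝ)) := by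
    intro m n hmn
    have hmn' : (m : ℝ) ≤ n := by exact_mod_cast hmn
    refine ctl_unique (S := S) isPreconnected_Ioo isOpen_Ioo (hk m)
      (fun t ht => hk n t ⟨by linarith [ht.1], by linarith [ht.2]⟩) (t₀ := 0) ?_
      (by rw [hk0, hk0])
    constructor
    · have : (0 : ℝ) < m + 1 := by positivity
      linarith
    · positivity
  let F : ℝ → P := fun t => k ⌈|t|⌉₊ t
  have hF : ∀ (n : ℕ) (t : ℝ), |t| < n + 1 → F t = k n t := by
    intro n t ht
    have h1 : |t| < (⌈|t|⌉₊ : ℝ) + 1 := lt_of_le_of_lt (Nat.le_ceil _) (by linarith)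
    rcases le_total ⌈|t|⌉₊ n with h | h
    · exact hkk _ _ h ⟨by linarith [(abs_lt.mp h1).1], (abs_lt.mp h1).2⟩
    · exact (hkk _ _ h ⟨by linarith [(abs_lt.mp ht).1], (abs_lt.mp ht).2⟩).symm
  refine ⟨F, ?_, fun t => ?_⟩
  · rw [hF 0 0 (by simp), hk0]
  · obtain ⟨n, hn⟩ := exists_nat_gt |t|
    have h1 : |t| < n + 1 := by linarith
    refine (hk n t ⟨by linarith [(abs_lt.mp h1).1], (abs_lt.mp h1).2⟩).congr ?_
    have h2 : ∀ᶠ s : ℝ in 𝓝 t, |s| < (n : ℝ) + 1 :=
      (continuous_abs.continuousAt).eventually (gt_mem_nhds h1)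
    filter_upwards [h2] with s hs
    exact (hF n s hs).symm

end ParSpace

end Pool.Agent.Lib.MP_611141_gt
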