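import Pool.Agent.Lib.MP_611141_gt.Flow

/-!
Differentiation of solutions of an ordinary differential equation along a one-parameter family.
-/

open Set Filter Metric Asymptotics
open scoped Topology

noncomputable section

namespace Pool.Agent.Lib.MP_611141_gt

variable {V : Type*} [NormedAddCommGroup V] [NormedSpace ℝ V]

theorem gronwallBound_le {δ L ε x : ℝ} (hL : 1 ≤ L) (hδ : 0 ≤ δ) (hε : 0 ≤ ε) (hx : 0 ≤ x)
    (hx1 : x ≤ 1) : gronwallBound δ L ε x ≤ Real.exp L * (δ + ε) := by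
  have hL0 : L ≠ 0 := by linarith
  rw [gronwallBound_of_K_ne_0 hL0]
  have h1 : Real.exp (L * x) ≤ Real.exp L := Real.exp_le_exp.2 (by nlinarith)
  have h2 : ε / L ≤ ε := div_le_self hε hL
  have h3 : 0 ≤ ε / L := by positivity
  have h4 : Real.exp (L * x) - 1 ≤ Real.exp L := by linarith
  have h5 : 0 ≤ Real.exp (L * x) - 1 := by
    have := Real.one_le_exp (x := L * x) (by positivity)
    linarith
  have h6 : 0 < Real.exp L := Real.exp_pos _
  calc δ * Real.exp (L * x) + ε / L * (Real.exp (L * x) - 1)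
      ≤ δ * Real.exp L + ε * Real.exp L := by
        gcongr
    _ = Real.exp L * (δ + ε) := by ring

/-- first order Taylor estimate on a ball where the derivative is Lipschitz -/
theorem taylor_ball {X : V → V} {X' : V → V →L[ℝ] V} {x₀ : V} {ρ L₂ : ℝ}
    (hX : ∀ y ∈ ball x₀ ρ, HasFDerivAt X (X' y) y)
    (hL₂ : ∀ y ∈ ball x₀ ρ, ∀ y' ∈ ball x₀ ρ, ‖X' y - X' y'‖ ≤ L₂ * ‖y - y'‖) (hL0 : 0 ≤ L₂)
    {p q : V} (hp : p ∈ ball x₀ ρ) (hq : q ∈ ball x₀ ρ) :
    ‖X p - X q - X' q (p - q)‖ ≤ L₂ * ‖p - q‖ ^ 2 := by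
  have hseg : segment ℝ q p ⊆ ball x₀ ρ := (convex_ball x₀ ρ).segment_subset hq hp
  have h1 := (convex_segment q p).norm_image_sub_le_of_norm_hasFDerivWithin_le'
    (f := X) (f' := X') (φ := X' q) (C := L₂ * ‖p - q‖)
    (fun y hy => (hX y (hseg hy)).hasFDerivWithinAt)
    (fun y hy => ?_) (left_mem_segment ℝ q p) (right_mem_segment ℝ q p)
  · calc ‖X p - X q - X' q (p - q)‖ ≤ L₂ * ‖p - q‖ * ‖p - q‖ := h1
      _ = L₂ * ‖p - q‖ ^ 2 := by ring
  · refine (hL₂ y (hseg hy) q hq).trans ?_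
    gcongr
    obtain ⟨a, b, ha, hb, hab, rfl⟩ := hy
    have : a • q + b • p - q = b • (p - q) := by
      have : a = 1 - b := by linarith
      rw [this]
      module
    rw [this, norm_smul, Real.norm_of_nonneg hb]
    have : b ≤ 1 := by linarith
    nlinarith [norm_nonneg (p - q)]

theorem hasDerivAt_family {X : V → V} {X' : V → V →L[ℝ] V} {x₀ : V} {ρ L L₂ : ℝ}
    (hX : ∀ y ∈ ball x₀ ρ, HasFDerivAt X (X' y) y) (hL : ∀ y ∈ ball x₀ ρ, ‖X' y‖ ≤ L)
    (hL₂ : ∀ y ∈ ball x₀ ρ, ∀ y' ∈ ball x₀ ρ, ‖X' y - X' y'‖ ≤ L₂ * ‖y - y'‖)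
    (hL1 : 1 ≤ L) (hL0 : 0 ≤ L₂) {x : ℝ → ℝ → V} {ξ : ℝ → V} {t₀ s₁ s₂ : ℝ}
    (hs : s₁ ≤ s₂) (hs1 : s₂ - s₁ ≤ 1)
    (hx : ∀ᶠ t in 𝓝 t₀, ∀ s ∈ Icc s₁ s₂, x t s ∈ ball x₀ ρ ∧ HasDerivAt (x t) (X (x t s)) s)
    (hξc : ContinuousOn ξ (Icc s₁ s₂))
    (hξ : ∀ s ∈ Ico s₁ s₂, HasDerivWithinAt ξ (X' (x t₀ s) (ξ s)) (Ici s) s)
    (h : HasDerivAt (fun t => x t s₁) (ξ s₁) t₀) :
    HasDerivAt (fun t => x t s₂) (ξ s₂) t₀ := by
  have hx0 := hx.self_of_nhds
  -- Lipschitz bound of `X` on the ball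
  have hLip : ∀ y ∈ ball x₀ ρ, ∀ y' ∈ ball x₀ ρ, ‖X y - X y'‖ ≤ L * ‖y - y'‖ := by
    intro y hy y' hy'
    exact (convex_ball x₀ ρ).norm_image_sub_le_of_norm_hasFDerivWithin_le
      (fun z hz => (hX z hz).hasFDerivWithinAt) hL hy' hy
  -- growth of differences
  have hv : ∀ᶠ t in 𝓝 t₀, ∀ s ∈ Icc s₁ s₂,
      ‖x t s - x t₀ s‖ ≤ Real.exp L * ‖x t s₁ - x t₀ s₁‖ := by
    filter_upwards [hx] with t ht s hs'
    have h1 := norm_le_gronwallBound_of_norm_deriv_right_le (f := fun s => x t s - x t₀ s)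
      (f' := fun s => X (x t s) - X (x t₀ s)) (δ := ‖x t s₁ - x t₀ s₁‖) (K := L) (ε := 0)
      (a := s₁) (b := s₂)
      (fun s hs => ((ht s hs).2.continuousAt.sub (hx0 s hs).2.continuousAt).continuousWithinAt)
      (fun s hs => (((ht s (Ico_subset_Icc_self hs)).2.sub
        (hx0 s (Ico_subset_Icc_self hs)).2)).hasDerivWithinAt) le_rfl
      (fun s hs => by
        rw [add_zero]
        exact hLip _ (ht s (Ico_subset_Icc_self hs)).1 _ (hx0 s (Ico_subset_Icc_self hs)).1) s hs'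
    refine h1.trans ?_
    refine (gronwallBound_le hL1 (norm_nonneg _) le_rfl (by linarith [hs'.1])
      (by linarith [hs'.2])).trans ?_
    rw [add_zero]
  -- bound of the remainder
  have hw : ∀ᶠ t in 𝓝 t₀, ‖x t s₂ - x t₀ s₂ - (t - t₀) • ξ s₂‖
      ≤ Real.exp L * (‖x t s₁ - x t₀ s₁ - (t - t₀) • ξ s₁‖
        + L₂ * (Real.exp L * ‖x t s₁ - x t₀ s₁‖) ^ 2) := by
    filter_upwards [hx, hv] with t ht hvt
    have h1 := norm_le_gronwallBound_of_norm_deriv_right_le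
      (f := fun s => x t s - x t₀ s - (t - t₀) • ξ s)
      (f' := fun s => X (x t s) - X (x t₀ s) - (t - t₀) • X' (x t₀ s) (ξ s))
      (δ := ‖x t s₁ - x t₀ s₁ - (t - t₀) • ξ s₁‖) (K := L)
      (ε := L₂ * (Real.exp L * ‖x t s₁ - x t₀ s₁‖) ^ 2) (a := s₁) (b := s₂)
      (fun s hs => (((ht s hs).2.continuousAt.sub (hx0 s hs).2.continuousAt).continuousWithinAt).sub
        ((hξc s hs).const_smul _))
      (fun s hs => (((ht s (Ico_subset_Icc_self hs)).2.sub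
        (hx0 s (Ico_subset_Icc_self hs)).2)).hasDerivWithinAt.sub ((hξ s hs).const_smul _)) le_rfl
      (fun s hs => by
        have hs' := Ico_subset_Icc_self hs
        have e1 : X (x t s) - X (x t₀ s) - (t - t₀) • X' (x t₀ s) (ξ s)
            = X' (x t₀ s) (x t s - x t₀ s - (t - t₀) • ξ s)
              + (X (x t s) - X (x t₀ s) - X' (x t₀ s) (x t s - x t₀ s)) := by
          simp only [map_sub, map_smul]
          abel
        rw [e1]
        refine (norm_add_le _ _).trans ?_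
        refine add_le_add ?_ ?_
        · refine ((X' (x t₀ s)).le_opNorm _).trans ?_
          gcongr
          exact hL _ (hx0 s hs').1
        · refine (taylor_ball hX hL₂ hL0 (ht s hs').1 (hx0 s hs').1).trans ?_
          gcongr
          exact hvt s hs') s₂ (right_mem_Icc.2 hs)
    refine h1.trans ?_
    exact gronwallBound_le hL1 (norm_nonneg _) (by positivity) (by linarith) hs1
  rw [hasDerivAt_iff_isLittleO] at h ⊢
  have hO : (fun t => x t s₁ - x t₀ s₁) =O[𝓝 t₀] fun t => t - t₀ := by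
    have h1 : (fun t => x t s₁ - x t₀ s₁) = fun t =>
        (x t s₁ - x t₀ s₁ - (t - t₀) • ξ s₁) + (t - t₀) • ξ s₁ := by
      funext t
      abel
    rw [h1]
    refine h.isBigO.add ?_
    refine IsBigO.of_bound ‖ξ s₁‖ (Eventually.of_forall fun t => ?_)
    rw [norm_smul, mul_comm]
  have hO2 : (fun t => L₂ * (Real.exp L * ‖x t s₁ - x t₀ s₁‖) ^ 2) =o[𝓝 t₀] fun t => t - t₀ := by
    have h1 : (fun t => L₂ * (Real.exp L * ‖x t s₁ - x t₀ s₁‖) ^ 2) =O[𝓝 t₀]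
        fun t => (t - t₀) ^ 2 := by
      refine IsBigO.const_mul_left ?_ _
      refine IsBigO.pow ?_ 2
      exact hO.norm_left.const_mul_left _
    refine h1.trans_isLittleO ?_
    have h2 : Tendsto (fun t => t - t₀) (𝓝 t₀) (𝓝 0) := by
      have : Tendsto (fun t => t - t₀) (𝓝 t₀) (𝓝 (t₀ - t₀)) :=
        (continuous_id.sub continuous_const).continuousAt
      rwa [sub_self] at this
    have h3 := (isLittleO_pow_id (𝕜 := ℝ) (n := 2) (by norm_num)).comp_tendsto h2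
    exact h3
  have h2 : (fun t => Real.exp L * (‖x t s₁ - x t₀ s₁ - (t - t₀) • ξ s₁‖
        + L₂ * (Real.exp L * ‖x t s₁ - x t₀ s₁‖) ^ 2)) =o[𝓝 t₀] fun t => t - t₀ :=
    (h.norm_left.add hO2).const_mul_left _
  refine IsBigO.trans_isLittleO ?_ h2
  refine IsBigO.of_bound 1 ?_
  filter_upwards [hw] with t ht
  rw [one_mul]
  refine ht.trans (le_abs_self _)

end Pool.Agent.Lib.MP_611141_gt
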